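import Pool.Agent.LibQM51.Dom

/-!
Concentrated sequences which are small in the mean are null sequences (page, C6).
-/

set_option autoImplicit false

namespace Pool.Agent.LibHF46

open Pool.Agent.LibZIS Filter Topology Pool.Agent.LibQM51

variable {G ι : Type} [Group G]

/-- concentrated sequences which are small in the mean are null sequences. -/
theorem dn_of_l1 (c : SH G ι) (n : ℕ → XX G → ℝ) (h : DL c n)
    (hs : ∀ r, Summable fun x => |n r x|)
    (ht : Tendsto (fun r => (∑' x, |n r x|) / c.a r) atTop (𝓝 0)) : DN c n := by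
  obtain ⟨w, hw, hn⟩ := h
  have hsq : ∀ r, 0 < √(c.a r) := fun r => Real.sqrt_pos.2 (c.pos r)
  obtain ⟨v, hv⟩ := exists_dom w (fun r x => ((n r x / √(c.a r) : ℝ) : ℂ)) (fun r x => by
    rw [Complex.norm_real, norm_div, Real.norm_of_nonneg (Real.sqrt_nonneg _),
      div_le_iff₀ (hsq r), mul_comm]
    exact hn r x)
  have hvn : ∀ r x, √(c.a r) * ‖v r x‖ = ‖n r x‖ := by
    intro r x
    rw [hv, Complex.norm_real, norm_div, Real.norm_of_nonneg (Real.sqrt_nonneg _),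
      mul_div_cancel₀ _ (hsq r).ne']
  refine ⟨v, ?_, fun r x => (hvn r x).ge⟩
  show Tendsto (fun r => ‖v r‖) atTop (𝓝 0)
  rw [Metric.tendsto_atTop']
  intro ε hε
  obtain ⟨K, C, w', hw', hw1⟩ := hw (ε / 4) (by positivity)
  set C' := |C| + 1 with hC'
  have hC'0 : 0 < C' := by positivity
  -- the pointwise bound
  have hpt : ∀ r x, ‖v r x‖ ^ 2 ≤ 2 * C' / c.a r * |n r x| + 4 * ‖(w r - w' r) x‖ ^ 2 := by
    intro r x
    have h1 := hvn r x
    have h2 : ‖v r x‖ ^ 2 = |n r x| ^ 2 / c.a r := by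
      rw [eq_div_iff (c.pos r).ne', ← Real.norm_eq_abs, ← h1, mul_pow, Real.sq_sqrt (c.pos r).le]
      ring
    by_cases h3 : |n r x| ≤ 2 * C'
    · have h4 : |n r x| ^ 2 / c.a r ≤ 2 * C' / c.a r * |n r x| := by
        rw [div_mul_eq_mul_div]
        refine div_le_div_of_nonneg_right ?_ (c.pos r).le
        have := abs_nonneg (n r x)
        nlinarith
      have h5 : 0 ≤ 4 * ‖(w r - w' r) x‖ ^ 2 := by positivity
      linarith
    · push Not at h3
      have h4 : ‖w r x‖ ≤ ‖w' r x‖ + ‖(w r - w' r) x‖ := by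
        have h5 : w r x = w' r x + (w r - w' r) x := by
          show w r x = w' r x + (w r x - w' r x)
          ring
        rw [h5]
        exact norm_add_le _ _
      have h5 : |n r x| ≤ √(c.a r) * ‖w r x‖ := hn r x
      have h6 : √(c.a r) * ‖w' r x‖ ≤ C' := by
        rw [mul_comm]
        exact ((hw' r x).1).trans ((le_abs_self C).trans (by rw [hC']; linarith))
      have h7 : √(c.a r) * ‖w r x‖ ≤ C' + √(c.a r) * ‖(w r - w' r) x‖ := by
        calc √(c.a r) * ‖w r x‖ ≤ √(c.a r) * (‖w' r x‖ + ‖(w r - w' r) x‖) := by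
              gcongr
          _ = √(c.a r) * ‖w' r x‖ + √(c.a r) * ‖(w r - w' r) x‖ := by ring
          _ ≤ _ := by linarith
      have h8 : |n r x| ≤ 2 * (√(c.a r) * ‖(w r - w' r) x‖) := by linarith
      have h9 : |n r x| ^ 2 / c.a r ≤ 4 * ‖(w r - w' r) x‖ ^ 2 := by
        rw [div_le_iff₀ (c.pos r)]
        calc |n r x| ^ 2 ≤ (2 * (√(c.a r) * ‖(w r - w' r) x‖)) ^ 2 := by gcongr
          _ = 4 * ‖(w r - w' r) x‖ ^ 2 * √(c.a r) ^ 2 := by ring
          _ = _ := by rw [Real.sq_sqrt (c.pos r).le]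
      have h10 : 0 ≤ 2 * C' / c.a r * |n r x| := by
        have := (c.pos r).le
        positivity
      linarith
  have hnorm : ∀ r, ‖v r‖ ^ 2 ≤ 2 * C' * ((∑' x, |n r x|) / c.a r) + 4 * ‖w r - w' r‖ ^ 2 := by
    intro r
    rw [Raw.norm_sq_eq]
    have s1 : Summable fun x => 2 * C' / c.a r * |n r x| := (hs r).mul_left _
    have s2 : Summable fun x => 4 * ‖(w r - w' r) x‖ ^ 2 := (Raw.summable_sq _).mul_left 4
    refine ((Raw.summable_sq (v r)).tsum_le_tsum (hpt r) (s1.add s2)).trans (le_of_eq ?_)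
    rw [s1.tsum_add s2, tsum_mul_left, tsum_mul_left, Raw.norm_sq_eq]
    ring
  have h1 : ∀ᶠ r in atTop, (∑' x, |n r x|) / c.a r < ε ^ 2 / (4 * C') :=
    ht.eventually (gt_mem_nhds (by positivity))
  obtain ⟨N, hN⟩ := eventually_atTop.1 (h1.and hw1)
  refine ⟨N, fun r hr => ?_⟩
  obtain ⟨h2, h3⟩ := hN r hr.le
  rw [dist_zero_right, norm_norm]
  have h4 := hnorm r
  have h5 : 2 * C' * ((∑' x, |n r x|) / c.a r) < ε ^ 2 / 2 := by
    calc 2 * C' * ((∑' x, |n r x|) / c.a r) < 2 * C' * (ε ^ 2 / (4 * C')) := by gcongr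
      _ = ε ^ 2 / 2 := by field_simp; ring
  have h6 : 4 * ‖w r - w' r‖ ^ 2 ≤ ε ^ 2 / 4 := by
    calc 4 * ‖w r - w' r‖ ^ 2 ≤ 4 * (ε / 4) ^ 2 := by gcongr
      _ = ε ^ 2 / 4 := by ring
  have h7 : ‖v r‖ ^ 2 < ε ^ 2 := by nlinarith
  exact lt_of_pow_lt_pow_left₀ 2 hε.le h7

end Pool.Agent.LibHF46
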