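import Pool.Agent.LibHF46.Cells
import Pool.Agent.LibHF46.Small

/-!
The boundaries of the chains carried by the labels, and the sum of the absolute values
(page, B4 and C6).
-/

set_option autoImplicit false

namespace Pool.Agent.LibHF46

open Pool.Agent.LibZIS Filter Topology Pool.Agent.LibQM51 Pool.Agent.LibFi47 Pool.Agent.LibRD47

variable {G ι I J : Type} [Group G]

/-! ### the sum of the absolute values -/

private lemma l1_supp (x : I →₀ MonoidAlgebra ℤ G) (i : I) :
    (Function.support fun g : G => |(((x i).coeff g : ℤ) : ℝ)|) ⊆ ((x i).coeff.support : Set G) := by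
  intro g hg
  rw [Function.mem_support] at hg
  rw [Finset.mem_coe, Finsupp.mem_support_iff]
  intro h0
  apply hg
  rw [h0]
  simp

lemma summable_abs_cf (x : I →₀ MonoidAlgebra ℤ G) (i : I) : Summable fun h => |cf x i h| :=
  (Equiv.summable_iff (Equiv.inv G)).2
    (summable_of_hasFiniteSupport (Set.Finite.subset (Finset.finite_toSet _) (l1_supp x i)))

private lemma l1_tsum (x : I →₀ MonoidAlgebra ℤ G) (i : I) :
    ∑' h, |cf x i h| = ∑ g ∈ (x i).coeff.support, |(((x i).coeff g : ℤ) : ℝ)| := by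
  have h1 : ∑' h, |cf x i h| = ∑' g : G, |(((x i).coeff g : ℤ) : ℝ)| :=
    (Equiv.inv G).tsum_eq (fun g : G => |(((x i).coeff g : ℤ) : ℝ)|)
  rw [h1]
  exact tsum_eq_sum' (l1_supp x i)

lemma l1F_eq [Fintype I] (x : I →₀ MonoidAlgebra ℤ G) : l1F x = ∑ i, ∑' h, |cf x i h| := by
  classical
  unfold l1F
  rw [Finset.sum_congr rfl fun i _ => l1_tsum x i]
  refine Finset.sum_subset (Finset.subset_univ _) fun i _ hi => ?_
  rw [Finsupp.notMem_support_iff] at hi
  rw [hi]
  simp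

lemma l1F_nonneg (x : I →₀ MonoidAlgebra ℤ G) : 0 ≤ l1F x :=
  Finset.sum_nonneg fun _ _ => Finset.sum_nonneg fun _ _ => abs_nonneg _

lemma l1F_le_sqF (x : I →₀ MonoidAlgebra ℤ G) : l1F x ≤ sqF x := by
  refine Finset.sum_le_sum fun i _ => Finset.sum_le_sum fun g _ => ?_
  rcases eq_or_ne ((x i).coeff g) 0 with h | h
  · rw [h]; simp
  · have h1 : (1 : ℝ) ≤ |(((x i).coeff g : ℤ) : ℝ)| := by
      exact_mod_cast Int.one_le_abs h
    rw [← sq_abs]
    nlinarith

lemma l1F_add [Fintype I] (x y : I →₀ MonoidAlgebra ℤ G) : l1F (x + y) ≤ l1F x + l1F y := by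
  rw [l1F_eq, l1F_eq, l1F_eq, ← Finset.sum_add_distrib]
  refine Finset.sum_le_sum fun i _ => ?_
  rw [← (summable_abs_cf x i).tsum_add (summable_abs_cf y i)]
  refine (summable_abs_cf _ i).tsum_le_tsum (fun h => ?_)
    ((summable_abs_cf x i).add (summable_abs_cf y i))
  rw [FC3.cf_add]
  exact abs_add_le _ _

lemma l1F_zero : l1F (0 : I →₀ MonoidAlgebra ℤ G) = 0 := by
  simp [l1F]

lemma l1F_sum [Fintype I] {α : Type} (s : Finset α) (x : α → (I →₀ MonoidAlgebra ℤ G)) :
    l1F (∑ t ∈ s, x t) ≤ ∑ t ∈ s, l1F (x t) := by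
  classical
  induction s using Finset.induction_on with
  | empty => rw [Finset.sum_empty, Finset.sum_empty, l1F_zero]
  | insert a s ha ih =>
    rw [Finset.sum_insert ha, Finset.sum_insert ha]
    exact (l1F_add _ _).trans (by linarith)

lemma sum_cf_le [Fintype I] (A : Finset G) (y : I →₀ MonoidAlgebra ℤ G) (i : I) :
    ∑ h ∈ A, |cf y i h| ≤ l1F y := by
  rw [l1F_eq]
  refine ((summable_abs_cf y i).sum_le_tsum A fun h _ => abs_nonneg _).trans ?_
  exact Finset.single_le_sum (f := fun i => ∑' h, |cf y i h|)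
    (fun i _ => tsum_nonneg fun h => abs_nonneg _) (Finset.mem_univ i)

/-- the sum over the copies. -/
lemma sum_copies [Fintype I] (Y : ℕ → (I →₀ MonoidAlgebra ℤ G)) (Js : Finset ℕ)
    (h0 : ∀ j ∉ Js, Y j = 0) (i : I) :
    (Summable fun x : XX G => |cf (Y x.2) i x.1|) ∧
      ∑' x : XX G, |cf (Y x.2) i x.1| ≤ ∑ j ∈ Js, l1F (Y j) := by
  classical
  set A : Finset G := Js.biUnion fun j => ((Y j) i).coeff.support.image (·⁻¹) with hA
  have h1 : ∀ x : XX G, x ∉ (A ×ˢ Js : Finset (G × ℕ)) → |cf (Y x.2) i x.1| = 0 := by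
    intro x hx
    rw [abs_eq_zero]
    by_contra h2
    apply hx
    have h3 : x.2 ∈ Js := by
      by_contra h3
      apply h2
      rw [h0 _ h3]
      show (((0 : G →₀ ℤ) _ : ℤ) : ℝ) = 0
      simp
    refine Finset.mem_product.2 ⟨?_, h3⟩
    rw [hA, Finset.mem_biUnion]
    refine ⟨x.2, h3, Finset.mem_image.2 ⟨x.1⁻¹, ?_, inv_inv _⟩⟩
    rw [Finsupp.mem_support_iff]
    intro h4
    apply h2
    unfold cf
    rw [h4]
    simp
  have h2 : Summable (fun x : G × ℕ => |cf (Y x.2) i x.1|) := summable_of_ne_finset_zero h1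
  have h3 : ∑' x : G × ℕ, |cf (Y x.2) i x.1| =
      ∑ x ∈ (A ×ˢ Js : Finset (G × ℕ)), |cf (Y x.2) i x.1| := tsum_eq_sum h1
  refine ⟨h2, h3.le.trans ?_⟩
  rw [Finset.sum_product_right]
  exact Finset.sum_le_sum fun j _ => sum_cf_le A (Y j) i

/-! ### the boundary -/

/-- the coefficients of the boundary of concentrated chains are concentrated. -/
theorem dl_bdy [Fintype I] (c : SH G ι)
    (D : (I →₀ MonoidAlgebra ℤ G) →+ (J →₀ MonoidAlgebra ℤ G)) (hD : Eqv D)
    (U : ℕ → ℕ → (I →₀ MonoidAlgebra ℤ G)) (hU : ∀ i, DL c fun r x => cf (U r x.2) i x.1) (b : J) :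
    DL c fun r x => cf (D (U r x.2)) b x.1 := by
  classical
  have h1 : DL c fun r x => ∑ i : I, ∑ g ∈ (D (bs G i) b).coeff.support,
      (((D (bs G i) b).coeff g : ℤ) : ℝ) * cf (U r (g⁻¹⁻¹ • x).2) i (g⁻¹⁻¹ • x).1 := by
    refine dl_sum c Finset.univ _ fun i _ => dl_sum c _ _ fun g _ => ?_
    refine ((hU i).trans g⁻¹).of_le |(((D (bs G i) b).coeff g : ℤ) : ℝ)| fun r x => ?_
    rw [norm_mul, Real.norm_eq_abs]
  refine h1.of_le 1 fun r x => ?_
  rw [one_mul]
  refine le_of_eq (congrArg norm ?_)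
  rw [FC1.cf_D D hD, Finset.sum_apply]
  refine Finset.sum_congr rfl fun i _ => ?_
  rw [ap_apply, Finset.sum_apply]
  refine Finset.sum_congr rfl fun g _ => ?_
  show (D (bs G i) b).coeff g • cf (U r x.2) i (g⁻¹⁻¹ * x.1) = _
  rw [zsmul_eq_mul]
  rfl

open Classical in
/-- the total boundary of the chains carried by the labels. -/
theorem sum_bdy_le (T : Sheet G I) (D : (I →₀ MonoidAlgebra ℤ G) → (J →₀ MonoidAlgebra ℤ G)) (C : ℝ)
    (hC : ∀ Q : Finset (Fin T.n), l1F (D (T.ch Q)) ≤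
      C * ((T.edges fun v w => v ∈ Q ∧ w ∉ Q : ℕ) + ((Q ∩ T.W).card : ℕ) : ℝ))
    (lab : Fin T.n → ℕ) :
    ∑ j ∈ Finset.univ.image lab, l1F (D (T.lch lab j)) ≤
      |C| * ((T.edges fun v w => lab v ≠ lab w : ℕ) + (T.W.card : ℕ) : ℝ) := by
  have h1 : ∀ j, l1F (D (T.lch lab j)) ≤ |C| * ((T.edges fun v w => lab v = j ∧ lab w ≠ j : ℕ) +
      ((T.W.filter fun v => lab v = j).card : ℕ) : ℝ) := by
    intro j
    refine (hC _).trans ?_
    refine (mul_le_mul_of_nonneg_right (le_abs_self C) (by positivity)).trans (le_of_eq ?_)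
    congr 3
    · congr 1
      funext v w
      simp
    · congr 1
      ext v
      simp [and_comm]
  refine (Finset.sum_le_sum fun j _ => h1 j).trans ?_
  rw [← Finset.mul_sum, Finset.sum_add_distrib]
  refine mul_le_mul_of_nonneg_left (add_le_add (le_of_eq ?_) (le_of_eq ?_)) (abs_nonneg C)
  · rw [← Nat.cast_sum]
    congr 1
    unfold Sheet.edges
    rw [Finset.card_eq_sum_card_fiberwise (f := fun q : Fin T.n × Fin T.n => lab q.1)
      (t := Finset.univ.image lab)
      (fun q _ => Finset.mem_coe.2 (Finset.mem_image_of_mem lab (Finset.mem_univ _)))]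
    refine Finset.sum_congr rfl fun j _ => ?_
    congr 1
    ext q
    simp only [Finset.mem_filter, Finset.mem_univ, true_and]
    constructor
    · rintro ⟨q1, q2, q3⟩
      exact ⟨⟨q1, fun h => q3 (by rw [← h, q2])⟩, q2⟩
    · rintro ⟨⟨q1, q2⟩, q3⟩
      exact ⟨q1, q3, fun h => q2 (by rw [q3, h])⟩
  · rw [← Nat.cast_sum]
    congr 1
    rw [Finset.card_eq_sum_card_fiberwise (s := T.W) (f := lab) (t := Finset.univ.image lab)
      (fun q _ => Finset.mem_coe.2 (Finset.mem_image_of_mem lab (Finset.mem_univ _)))]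

end Pool.Agent.LibHF46
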