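import Mathlib

/-!
C1. Levels of a hyperfinite sequence of sheets.
-/

set_option autoImplicit false

namespace Pool.Agent.LibHF46

open Filter Topology
open scoped Pointwise

/-- nested equivalence relations on the cells of a sheet with positions in a group -/
structure Lv (G : Type) (n : ℕ) where
  /-- the positions -/
  pos : Fin n → G
  /-- the relations -/
  R : ℕ → Fin n → Fin n → Prop
  equiv : ∀ j, Equivalence (R j)
  mono : ∀ i j, i ≤ j → ∀ v w, R i v w → R j v w

/-- the edges inside the classes of `p` -/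
def inner {n : ℕ} (Γ : SimpleGraph (Fin n)) (p : Fin n → ℕ) : SimpleGraph (Fin n) where
  Adj v w := Γ.Adj v w ∧ p v = p w
  symm := ⟨fun _ _ h => ⟨h.1.symm, h.2.symm⟩⟩
  loopless := ⟨fun _ h => h.1.ne rfl⟩

lemma inner_walk {n : ℕ} {Γ : SimpleGraph (Fin n)} {p : Fin n → ℕ} {v w : Fin n}
    (q : (inner Γ p).Walk v w) : ∀ x ∈ q.support, p x = p v := by
  induction q with
  | nil => intro x hx; rw [SimpleGraph.Walk.support_nil, List.mem_singleton] at hx; rw [hx]
  | cons h q ih =>
    intro x hx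
    rw [SimpleGraph.Walk.support_cons, List.mem_cons] at hx
    rcases hx with rfl | hx
    · rfl
    · rw [ih x hx]; exact h.2.symm

lemma walk_mem {G : Type} [Group G] [DecidableEq G] {n : ℕ} {Γ : SimpleGraph (Fin n)}
    {p : Fin n → ℕ} {pos : Fin n → G} {F₀ : Finset G}
    (h : ∀ v w, Γ.Adj v w → (pos v)⁻¹ * pos w ∈ F₀) {v w : Fin n} (q : (inner Γ p).Walk v w) :
    (pos v)⁻¹ * pos w ∈ F₀ ^ q.length := by
  induction q with
  | nil => simp
  | @cons v u w hvu q ih =>
    rw [SimpleGraph.Walk.length_cons, pow_succ']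
    have e : (pos v)⁻¹ * pos w = ((pos v)⁻¹ * pos u) * ((pos u)⁻¹ * pos w) := by group
    rw [e]
    exact Finset.mul_mem_mul (h _ _ hvu.1) ih

/-- the level `j` relation -/
def lvR {n : ℕ} (Γ : SimpleGraph (Fin n)) (p : ℕ → Fin n → ℕ) (j : ℕ) (v w : Fin n) : Prop :=
  ∀ i, j ≤ i → (inner Γ (p i)).Reachable v w

/-- the levels of a sheet with a sequence of partitions -/
def lv {G : Type} {n : ℕ} (pos : Fin n → G) (Γ : SimpleGraph (Fin n)) (p : ℕ → Fin n → ℕ) :
    Lv G n where
  pos := pos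
  R := lvR Γ p
  equiv j := ⟨fun _ _ _ => SimpleGraph.Reachable.refl _, fun h i hi => (h i hi).symm,
    fun h h' i hi => (h i hi).trans (h' i hi)⟩
  mono _ _ hij _ _ h k hk := h k (hij.trans hk)

lemma lv_pos {G : Type} {n : ℕ} (pos : Fin n → G) (Γ : SimpleGraph (Fin n)) (p : ℕ → Fin n → ℕ) :
    (lv pos Γ p).pos = pos := rfl

lemma lv_class {G : Type} {n : ℕ} (pos : Fin n → G) (Γ : SimpleGraph (Fin n))
    (p : ℕ → Fin n → ℕ) {j : ℕ} {v w : Fin n} (h : (lv pos Γ p).R j v w) : p j w = p j v := by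
  obtain ⟨q⟩ := h j le_rfl
  exact inner_walk q w q.end_mem_support

open Classical in
lemma lv_size {G : Type} {n : ℕ} (pos : Fin n → G) (Γ : SimpleGraph (Fin n))
    (p : ℕ → Fin n → ℕ) {K : ℕ → ℕ} (hK : ∀ j v, (Finset.univ.filter fun w => p j w = p j v).card ≤ K j)
    (j : ℕ) (v : Fin n) : (Finset.univ.filter fun w => (lv pos Γ p).R j v w).card ≤ K j := by
  refine (Finset.card_le_card fun w hw => ?_).trans (hK j v)
  rw [Finset.mem_filter] at hw ⊢
  exact ⟨hw.1, lv_class pos Γ p hw.2⟩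

lemma lv_disp {G : Type} [Group G] [DecidableEq G] {n : ℕ} (pos : Fin n → G)
    (Γ : SimpleGraph (Fin n)) (p : ℕ → Fin n → ℕ) {F₀ : Finset G}
    (hF : ∀ v w, Γ.Adj v w → (pos v)⁻¹ * pos w ∈ F₀) {K : ℕ → ℕ}
    (hK : ∀ j v, (Finset.univ.filter fun w => p j w = p j v).card ≤ K j)
    (j : ℕ) (v w : Fin n) (h : (lv pos Γ p).R j v w) :
    ((lv pos Γ p).pos v)⁻¹ * (lv pos Γ p).pos w ∈ (insert 1 F₀) ^ K j := by
  classical
  obtain ⟨q, hq⟩ := (h j le_rfl).exists_isPath
  have h1 := walk_mem (p := p j) hF q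
  have h2 : q.length ≤ K j := by
    have h3 : q.support.toFinset ⊆ Finset.univ.filter fun w => p j w = p j v := fun x hx => by
      rw [List.mem_toFinset] at hx
      exact Finset.mem_filter.2 ⟨Finset.mem_univ _, inner_walk q x hx⟩
    have h4 := (Finset.card_le_card h3).trans (hK j v)
    rw [List.toFinset_card_of_nodup hq.support_nodup, SimpleGraph.Walk.length_support] at h4
    omega
  have h5 : F₀ ^ q.length ⊆ (insert 1 F₀) ^ q.length :=
    Finset.pow_subset_pow_left (Finset.subset_insert _ _)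
  exact Finset.pow_subset_pow_right (Finset.mem_insert_self _ _) h2 (h5 h1)

open Classical in
/-- the edges which are cut by the level `j` relation -/
lemma lv_cut {G : Type} {n : ℕ} (pos : Fin n → G) (Γ : SimpleGraph (Fin n)) (p : ℕ → Fin n → ℕ)
    (hp : ∀ i, ((Finset.univ.filter fun x : Fin n × Fin n => Γ.Adj x.1 x.2 ∧
      p i x.1 ≠ p i x.2).card : ℝ) ≤ (1 / 2) ^ i * n) (j : ℕ) :
    ((Finset.univ.filter fun x : Fin n × Fin n => Γ.Adj x.1 x.2 ∧
      ¬ (lv pos Γ p).R j x.1 x.2).card : ℝ) ≤ 2 * (1 / 2) ^ j * n := by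
  set A := Finset.univ.filter fun x : Fin n × Fin n => Γ.Adj x.1 x.2 ∧
    ¬ (lv pos Γ p).R j x.1 x.2 with hA
  set B : ℕ → Finset (Fin n × Fin n) := fun i => Finset.univ.filter fun x : Fin n × Fin n =>
    Γ.Adj x.1 x.2 ∧ p i x.1 ≠ p i x.2 with hB
  have h1 : ∀ x ∈ A, ∃ i, j ≤ i ∧ x ∈ B i := by
    intro x hx
    rw [hA, Finset.mem_filter] at hx
    obtain ⟨-, hadj, hn⟩ := hx
    by_contra hcon
    push Not at hcon
    refine hn fun i hi => ?_
    have h2 : p i x.1 = p i x.2 := by
      by_contra h3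
      exact hcon i hi (Finset.mem_filter.2 ⟨Finset.mem_univ _, hadj, h3⟩)
    exact SimpleGraph.Adj.reachable (G := inner Γ (p i)) ⟨hadj, h2⟩
  choose! c hc using h1
  set N := A.sup c + 1 with hN
  have h2 : A ⊆ (Finset.range N).biUnion fun i => if j ≤ i then B i else ∅ := by
    intro x hx
    rw [Finset.mem_biUnion]
    refine ⟨c x, ?_, ?_⟩
    · rw [Finset.mem_range, hN, Nat.lt_succ_iff]
      exact Finset.le_sup hx
    · rw [if_pos (hc x hx).1]
      exact (hc x hx).2
  have h3 : (A.card : ℝ) ≤ ∑ i ∈ Finset.range N, if j ≤ i then (1 / 2 : ℝ) ^ i * n else 0 := by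
    calc (A.card : ℝ) ≤ (((Finset.range N).biUnion fun i => if j ≤ i then B i else ∅).card : ℝ) := by
          exact_mod_cast Finset.card_le_card h2
      _ ≤ ∑ i ∈ Finset.range N, ((if j ≤ i then B i else ∅).card : ℝ) := by
          exact_mod_cast Finset.card_biUnion_le
      _ ≤ _ := by
          refine Finset.sum_le_sum fun i _ => ?_
          split_ifs
          · exact hp i
          · simp
  refine h3.trans ?_
  have h4 : ∀ N : ℕ, ∑ i ∈ Finset.range N, (if j ≤ i then (1 / 2 : ℝ) ^ i * n else 0) ≤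
      (2 * (1 / 2) ^ j - if j ≤ N then 2 * (1 / 2) ^ N else 2 * (1 / 2) ^ j) * n := by
    intro N
    induction N with
    | zero =>
      rcases Nat.eq_zero_or_pos j with rfl | hj
      · simp
      · rw [if_neg (by omega)]; simp
    | succ N ih =>
      rw [Finset.sum_range_succ]
      refine (add_le_add_left ih _).trans ?_
      rcases lt_trichotomy j (N + 1) with h | h | h
      · rw [if_pos (by omega), if_pos (by omega), if_pos (by omega), pow_succ]
        apply le_of_eq
        ring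
      · rw [if_neg (by omega), if_neg (by omega), if_pos (by omega), ← h]
        simp
      · rw [if_neg (by omega), if_neg (by omega), if_neg (by omega)]
        simp
  refine (h4 N).trans (mul_le_mul_of_nonneg_right ?_ (Nat.cast_nonneg _))
  split_ifs
  · have : (0 : ℝ) ≤ 2 * (1 / 2) ^ N := by positivity
    linarith
  · have : (0 : ℝ) ≤ 2 * (1 / 2) ^ j := by positivity
    linarith

end Pool.Agent.LibHF46
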