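import Mathlib

/-!
C2. Selection of a subsequence and of levels.
-/

set_option autoImplicit false

namespace Pool.Agent.LibHF46

open Filter Topology

/-- a bounded monotone sequence is almost constant from some point on. -/
lemma exists_flat {a : ℕ → ℝ} (ha : Monotone a) {M : ℝ} (hM : ∀ j, a j ≤ M) {ε : ℝ} (hε : 0 < ε) :
    ∃ j, ∀ i, a i ≤ a j + ε := by
  have hb : BddAbove (Set.range a) := ⟨M, by rintro _ ⟨j, rfl⟩; exact hM j⟩
  obtain ⟨_, ⟨j, rfl⟩, hj⟩ := exists_lt_of_lt_csSup (Set.range_nonempty a)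
    (show sSup (Set.range a) - ε < sSup (Set.range a) by linarith)
  exact ⟨j, fun i => by linarith [le_csSup hb ⟨i, rfl⟩]⟩

/-- the selection lemma: along a subsequence there are levels which tend to infinity and at which no
mass is created. -/
theorem selection (f : ℕ → ℕ → ℕ → ℝ) (M : ℝ) (h0 : ∀ k r j, 0 ≤ f k r j)
    (hM : ∀ k r j, f k r j ≤ M) (hmono : ∀ k r, Monotone (f k r)) :
    ∃ (φ : ℕ → ℕ) (L : ℕ → ℕ), StrictMono φ ∧ Tendsto L atTop atTop ∧ (∀ r, L r ≤ r) ∧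
      ∀ (k : ℕ) (ε : ℝ), 0 < ε → ∃ j, ∀ᶠ r in atTop, f k (φ r) (L r) - f k (φ r) j ≤ ε := by
  classical
  have hc : IsCompact (Set.pi Set.univ fun _ : ℕ × ℕ => Set.Icc (0 : ℝ) M) :=
    isCompact_univ_pi fun _ => isCompact_Icc
  obtain ⟨a, ha, φ, hφ, hlim⟩ := hc.tendsto_subseq (x := fun r (p : ℕ × ℕ) => f p.1 r p.2)
    (fun r p _ => ⟨h0 _ _ _, hM _ _ _⟩)
  have hl : ∀ k j, Tendsto (fun r => f k (φ r) j) atTop (𝓝 (a (k, j))) := fun k j =>
    (tendsto_pi_nhds.1 hlim) (k, j)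
  have hamono : ∀ k, Monotone fun j => a (k, j) := fun k i j hij =>
    le_of_tendsto_of_tendsto' (hl k i) (hl k j) fun r => hmono k (φ r) hij
  have haM : ∀ k j, a (k, j) ≤ M := fun k j => (ha (k, j) (Set.mem_univ _)).2
  let P : ℕ → ℕ → Prop := fun r L => ∀ k ≤ L, f k (φ r) L ≤ a (k, L) + 1 / ((L : ℝ) + 1)
  let L : ℕ → ℕ := fun r => Nat.findGreatest (P r) r
  have hP : ∀ L₀, ∀ᶠ r in atTop, P r L₀ := by
    intro L₀
    have h1 : ∀ k ∈ Set.Iic L₀, ∀ᶠ r in atTop, f k (φ r) L₀ ≤ a (k, L₀) + 1 / ((L₀ : ℝ) + 1) :=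
      fun k _ => (hl k L₀).eventually (ge_mem_nhds (by
        have : 0 < 1 / ((L₀ : ℝ) + 1) := by positivity
        linarith))
    exact (eventually_all_finite (Set.finite_Iic L₀)).2 h1
  have hL : ∀ L₀, ∀ᶠ r in atTop, L₀ ≤ L r ∧ P r (L r) := by
    intro L₀
    filter_upwards [hP L₀, eventually_ge_atTop L₀] with r h1 h2
    exact ⟨Nat.le_findGreatest h2 h1, Nat.findGreatest_spec h2 h1⟩
  refine ⟨φ, L, hφ, tendsto_atTop.2 fun b => (hL b).mono fun r h => h.1,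
    fun r => Nat.findGreatest_le r, fun k ε hε => ?_⟩
  obtain ⟨j, hj⟩ := exists_flat (hamono k) (haM k) (show 0 < ε / 3 by positivity)
  obtain ⟨N, hN⟩ := exists_nat_one_div_lt (show 0 < ε / 3 by positivity)
  refine ⟨j, ?_⟩
  have h3 : ∀ᶠ r in atTop, a (k, j) - ε / 3 ≤ f k (φ r) j :=
    (hl k j).eventually (le_mem_nhds (by linarith))
  filter_upwards [hL (max k N), h3] with r h1 h3
  have h4 := h1.2 k ((le_max_left _ _).trans h1.1)
  have h5 : 1 / ((L r : ℝ) + 1) ≤ ε / 3 := by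
    refine le_trans ?_ hN.le
    have h6 : (N : ℝ) ≤ L r := by exact_mod_cast (le_max_right k N).trans h1.1
    exact one_div_le_one_div_of_le (by positivity) (by linarith)
  have h6 := hj (L r)
  linarith

end Pool.Agent.LibHF46
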