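import Pool.Agent.LibHF46.C1
import Pool.Agent.LibHF46.C2

/-!
C2b. Pairs of cells with a given displacement in the same class, and the choice of the levels.
-/

set_option autoImplicit false

namespace Pool.Agent.LibHF46

open Filter Topology

variable {G : Type} [Group G]

open Classical in
/-- the number of pairs of cells with displacement `k` in the same class -/
noncomputable def cnt {n : ℕ} (D : Lv G n) (k : G) (j : ℕ) : ℕ :=
  (Finset.univ.filter fun x : Fin n × Fin n => (D.pos x.1)⁻¹ * D.pos x.2 = k ∧ D.R j x.1 x.2).card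

lemma cnt_mono {n : ℕ} (D : Lv G n) (k : G) : Monotone (cnt D k) := by
  classical
  intro i j hij
  refine Finset.card_le_card fun x hx => ?_
  rw [Finset.mem_filter] at hx ⊢
  exact ⟨hx.1, hx.2.1, D.mono i j hij _ _ hx.2.2⟩

open Classical in
/-- a Cauchy-Schwarz inequality for the number of pairs of points related by an injection -/
lemma card_shift_le {n : ℕ} {X : Type} (f : Fin n → X) (σ : X → X) (hσ : Function.Injective σ) :
    (Finset.univ.filter fun x : Fin n × Fin n => f x.2 = σ (f x.1)).card ≤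
      (Finset.univ.filter fun x : Fin n × Fin n => f x.2 = f x.1).card := by
  set I : Finset X := Finset.univ.image f with hI
  set N : X → ℕ := fun g => (Finset.univ.filter fun v => f v = g).card with hN
  have h1 : ∀ τ : X → X, (Finset.univ.filter fun x : Fin n × Fin n => f x.2 = τ (f x.1)).card =
      ∑ g ∈ I, N g * N (τ g) := by
    intro τ
    have h2 : (Finset.univ.filter fun x : Fin n × Fin n => f x.2 = τ (f x.1)) =
        I.biUnion fun g => (Finset.univ.filter fun v => f v = g) ×ˢ
          (Finset.univ.filter fun v => f v = τ g) := by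
      ext x
      simp only [Finset.mem_filter, Finset.mem_univ, true_and, Finset.mem_biUnion,
        Finset.mem_product, hI, Finset.mem_image]
      constructor
      · intro h
        exact ⟨f x.1, ⟨x.1, rfl⟩, rfl, h⟩
      · rintro ⟨g, -, h3, h4⟩
        rw [h3, h4]
    rw [h2, Finset.card_biUnion]
    · exact Finset.sum_congr rfl fun g _ => Finset.card_product _ _
    · intro g _ g' _ hgg'
      refine Finset.disjoint_left.2 fun x hx hx' => ?_
      rw [Finset.mem_product, Finset.mem_filter, Finset.mem_filter] at hx hx'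
      exact hgg' (hx.1.2.symm.trans hx'.1.2)
  have h1' := h1 id
  simp only [id_eq] at h1'
  rw [h1 σ, h1']
  have h4 : ∑ g ∈ I, N (σ g) * N (σ g) ≤ ∑ g ∈ I, N g * N g := by
    have h5 : ∑ g ∈ I, N (σ g) * N (σ g) = ∑ g ∈ I.filter fun g => σ g ∈ I,
        N (σ g) * N (σ g) := by
      rw [Finset.sum_filter]
      refine Finset.sum_congr rfl fun g _ => ?_
      split_ifs with h
      · rfl
      · have h6 : N (σ g) = 0 := by
          rw [hN]
          refine Finset.card_eq_zero.2 (Finset.filter_eq_empty_iff.2 fun v _ hv => h ?_)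
          rw [hI, ← hv]
          exact Finset.mem_image_of_mem _ (Finset.mem_univ _)
        rw [h6, mul_zero]
    have h7 : ∑ g ∈ I.filter fun g => σ g ∈ I, N (σ g) * N (σ g) =
        ∑ g ∈ (I.filter fun g => σ g ∈ I).image σ, N g * N g := by
      rw [Finset.sum_image fun a _ b _ hab => hσ hab]
    rw [h5, h7]
    refine Finset.sum_le_sum_of_subset fun g hg => ?_
    obtain ⟨h, hh, rfl⟩ := Finset.mem_image.1 hg
    exact (Finset.mem_filter.1 hh).2
  have h5 : 2 * ∑ g ∈ I, N g * N (σ g) ≤ ∑ g ∈ I, N g * N g + ∑ g ∈ I, N (σ g) * N (σ g) := by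
    rw [Finset.mul_sum, ← Finset.sum_add_distrib]
    refine Finset.sum_le_sum fun g _ => ?_
    have h8 := two_mul_le_add_sq (N g : ℤ) (N (σ g))
    have h9 : ((2 * (N g * N (σ g)) : ℕ) : ℤ) ≤ ((N g * N g + N (σ g) * N (σ g) : ℕ) : ℤ) := by
      push_cast
      nlinarith
    exact_mod_cast h9
  omega

section lbl

variable {n : ℕ} (D : Lv G n)

open Classical in
/-- the least element of the class -/
noncomputable def lbl (L : ℕ) (v : Fin n) : ℕ :=
  ((Finset.univ.filter fun w => D.R L v w).min' ⟨v, Finset.mem_filter.2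
    ⟨Finset.mem_univ _, (D.equiv L).refl v⟩⟩ : Fin n)

omit [Group G] in
lemma lbl_eq_iff (L : ℕ) (v w : Fin n) : lbl D L v = lbl D L w ↔ D.R L v w := by
  classical
  constructor
  · intro h
    have h1 := Finset.min'_mem (Finset.univ.filter fun x => D.R L v x) ⟨v, Finset.mem_filter.2
      ⟨Finset.mem_univ _, (D.equiv L).refl v⟩⟩
    have h2 := Finset.min'_mem (Finset.univ.filter fun x => D.R L w x) ⟨w, Finset.mem_filter.2
      ⟨Finset.mem_univ _, (D.equiv L).refl w⟩⟩
    have h3 := Fin.ext h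
    rw [h3] at h1
    exact (D.equiv L).trans (Finset.mem_filter.1 h1).2 ((D.equiv L).symm (Finset.mem_filter.1 h2).2)
  · intro h
    have h1 : (Finset.univ.filter fun x => D.R L v x) = Finset.univ.filter fun x => D.R L w x := by
      ext x
      simp only [Finset.mem_filter, Finset.mem_univ, true_and]
      exact ⟨fun h2 => (D.equiv L).trans ((D.equiv L).symm h) h2,
        fun h2 => (D.equiv L).trans h h2⟩
    unfold lbl
    simp only [h1]

end lbl

lemma cnt_le {n : ℕ} (D : Lv G n) (k : G) (j : ℕ) : cnt D k j ≤ cnt D 1 j := by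
  classical
  have h1 := card_shift_le (fun v => (D.pos v, lbl D j v)) (fun p => (p.1 * k, p.2))
    (fun p q h => by
      obtain ⟨a, b⟩ := p
      obtain ⟨a', b'⟩ := q
      simp only [Prod.mk.injEq] at h
      exact Prod.ext (mul_right_cancel h.1) h.2)
  have e : ∀ l : G, cnt D l j = (Finset.univ.filter fun x : Fin n × Fin n =>
      (D.pos x.2, lbl D j x.2) = (D.pos x.1 * l, lbl D j x.1)).card := by
    intro l
    unfold cnt
    congr 1
    ext x
    simp only [Finset.mem_filter, Finset.mem_univ, true_and, Prod.mk.injEq]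
    rw [lbl_eq_iff, inv_mul_eq_iff_eq_mul]
    exact and_congr_right fun _ => ⟨fun h => (D.equiv j).symm h, fun h => (D.equiv j).symm h⟩
  rw [e k, e 1]
  refine le_trans (le_of_eq ?_) (h1.trans (le_of_eq ?_))
  · congr 1
    ext x
    simp
  · congr 1
    ext x
    simp

/-- the choice of the levels -/
theorem exists_lev {n : ℕ → ℕ} (hn : ∀ r, 0 < n r) (D : ∀ r, Lv G (n r)) {M : ℝ}
    (hM : ∀ r j, (cnt (D r) 1 j : ℝ) ≤ M * n r) :
    ∃ (φ : ℕ → ℕ) (L : ℕ → ℕ), StrictMono φ ∧ Tendsto L atTop atTop ∧ (∀ r, L r ≤ r) ∧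
      ∀ (k : G) (ε : ℝ), 0 < ε → ∃ j, ∀ᶠ r in atTop,
        (cnt (D (φ r)) k (L r) : ℝ) - cnt (D (φ r)) k j ≤ ε * n (φ r) := by
  classical
  set Q : Set G := ⋃ r, Set.range fun x : Fin (n r) × Fin (n r) =>
    ((D r).pos x.1)⁻¹ * (D r).pos x.2 with hQ
  have hQc : Q.Countable := Set.countable_iUnion fun r => Set.countable_range _
  have hQn : Q.Nonempty := ⟨_, Set.mem_iUnion.2 ⟨0, ⟨(⟨0, hn 0⟩, ⟨0, hn 0⟩), rfl⟩⟩⟩
  obtain ⟨e, he⟩ := hQc.exists_eq_range hQn
  have hn' : ∀ r, (0 : ℝ) < n r := fun r => by exact_mod_cast hn r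
  obtain ⟨φ, L, h1, h2, h2', h3⟩ := selection (fun i r j => (cnt (D r) (e i) j : ℝ) / n r) M
    (fun i r j => by have := hn' r; positivity)
    (fun i r j => by
      rw [div_le_iff₀ (hn' r)]
      exact (Nat.cast_le.2 (cnt_le (D r) (e i) j)).trans (hM r j))
    (fun i r j j' hj => by
      show (cnt (D r) (e i) j : ℝ) / n r ≤ (cnt (D r) (e i) j' : ℝ) / n r
      have h4 : (cnt (D r) (e i) j : ℝ) ≤ cnt (D r) (e i) j' := by
        exact_mod_cast cnt_mono (D r) (e i) hj
      have := hn' r
      gcongr)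
  refine ⟨φ, L, h1, h2, h2', fun k ε hε => ?_⟩
  by_cases hk : k ∈ Q
  · rw [he] at hk
    obtain ⟨i, rfl⟩ := hk
    obtain ⟨j, hj⟩ := h3 i ε hε
    refine ⟨j, hj.mono fun r hr => ?_⟩
    rw [← sub_div, div_le_iff₀ (hn' _)] at hr
    exact hr
  · refine ⟨0, Eventually.of_forall fun r => ?_⟩
    have h4 : ∀ j, cnt (D (φ r)) k j = 0 := by
      intro j
      refine Finset.card_eq_zero.2 (Finset.filter_eq_empty_iff.2 fun x _ hx => hk ?_)
      exact Set.mem_iUnion.2 ⟨φ r, ⟨x, hx.1⟩⟩
    rw [h4, h4]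
    have := hn' (φ r)
    simp only [Nat.cast_zero, sub_zero]
    positivity

end Pool.Agent.LibHF46
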