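import Pool.Agent.LibHF46.C2b
import Pool.Agent.LibQM51.Seq

/-!
C3. Unfolding: the sequence of sheets with the labels of the chosen levels.
-/

set_option autoImplicit false

namespace Pool.Agent.LibHF46

open Filter Topology
open Pool.Agent.LibQM51 (SH)

variable {G : Type} [Group G]

section lbl

variable {n : ℕ} (D : Lv G n)

lemma lbl_lt (L : ℕ) (v : Fin n) : lbl D L v < n := Fin.is_lt _

open Classical in
/-- the pairs which are created between two levels -/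
lemma card_created {k : G} {i j : ℕ} (hij : i ≤ j) :
    ((Finset.univ.filter fun x : Fin n × Fin n => (D.pos x.1)⁻¹ * D.pos x.2 = k ∧
      D.R j x.1 x.2 ∧ ¬ D.R i x.1 x.2).card : ℝ) = cnt D k j - cnt D k i := by
  have h1 : (Finset.univ.filter fun x : Fin n × Fin n => (D.pos x.1)⁻¹ * D.pos x.2 = k ∧
      D.R j x.1 x.2 ∧ ¬ D.R i x.1 x.2) =
      (Finset.univ.filter fun x : Fin n × Fin n => (D.pos x.1)⁻¹ * D.pos x.2 = k ∧
        D.R j x.1 x.2) \ (Finset.univ.filter fun x : Fin n × Fin n =>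
        (D.pos x.1)⁻¹ * D.pos x.2 = k ∧ D.R i x.1 x.2) := by
    ext x
    simp only [Finset.mem_filter, Finset.mem_univ, true_and, Finset.mem_sdiff]
    tauto
  have h2 : (Finset.univ.filter fun x : Fin n × Fin n =>
        (D.pos x.1)⁻¹ * D.pos x.2 = k ∧ D.R i x.1 x.2) ⊆
      (Finset.univ.filter fun x : Fin n × Fin n => (D.pos x.1)⁻¹ * D.pos x.2 = k ∧
        D.R j x.1 x.2) := by
    intro x hx
    rw [Finset.mem_filter] at hx ⊢
    exact ⟨hx.1, hx.2.1, D.mono i j hij _ _ hx.2.2⟩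
  rw [h1, Finset.card_sdiff_of_subset h2, Nat.cast_sub (Finset.card_le_card h2)]
  rfl

end lbl

/-- sheets with levels, such that no pairs are created at the selected levels -/
structure Sel (G : Type) [Group G] where
  /-- the number of cells -/
  n : ℕ → ℕ
  npos : ∀ r, 0 < n r
  /-- the levels -/
  D : ∀ r, Lv G (n r)
  /-- the selected levels -/
  L : ℕ → ℕ
  lim : Tendsto L atTop atTop
  /-- the displacements -/
  F : ℕ → Finset G
  disp : ∀ j r v w, (D r).R j v w → ((D r).pos v)⁻¹ * (D r).pos w ∈ F j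
  sel : ∀ (k : G) (ε : ℝ), 0 < ε → ∃ j, ∀ᶠ r in atTop,
    (cnt (D r) k (L r) : ℝ) - cnt (D r) k j ≤ ε * n r

namespace Sel

variable (c : Sel G)

lemma npos' (r : ℕ) : (0 : ℝ) < c.n r := by exact_mod_cast c.npos r

/-- the position of a cell -/
noncomputable def f (r x : ℕ) : G := if h : x < c.n r then (c.D r).pos ⟨x, h⟩ else 1

/-- the label of a cell -/
noncomputable def lab (r x : ℕ) : ℕ := if h : x < c.n r then lbl (c.D r) (c.L r) ⟨x, h⟩ else 0

lemma f_apply {r : ℕ} (v : Fin (c.n r)) : c.f r v = (c.D r).pos v := by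
  rw [f, dif_pos v.2]

lemma lab_apply {r : ℕ} (v : Fin (c.n r)) : c.lab r v = lbl (c.D r) (c.L r) v := by
  rw [lab, dif_pos v.2]

/-- the level `j` relation on the natural numbers -/
def E (j r : ℕ) : Setoid ℕ where
  r x y := x = y ∨ ∃ (hx : x < c.n r) (hy : y < c.n r), (c.D r).R j ⟨x, hx⟩ ⟨y, hy⟩
  iseqv := by
    refine ⟨fun x => Or.inl rfl, ?_, ?_⟩
    · rintro x y (rfl | ⟨hx, hy, h⟩)
      · exact Or.inl rfl
      · exact Or.inr ⟨hy, hx, ((c.D r).equiv j).symm h⟩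
    · rintro x y z (rfl | ⟨hx, hy, h⟩) (rfl | ⟨hy', hz, h'⟩)
      · exact Or.inl rfl
      · exact Or.inr ⟨hy', hz, h'⟩
      · exact Or.inr ⟨hx, hy, h⟩
      · exact Or.inr ⟨hx, hz, ((c.D r).equiv j).trans h h'⟩

lemma E_iff (j : ℕ) {r : ℕ} (v w : Fin (c.n r)) : c.E j r (v : ℕ) (w : ℕ) ↔ (c.D r).R j v w := by
  constructor
  · rintro (h | ⟨hx, hy, h⟩)
    · rw [Fin.ext h]; exact ((c.D r).equiv j).refl _
    · exact h
  · intro h
    exact Or.inr ⟨v.2, w.2, h⟩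

open Classical in
/-- few cells have a neighbour in another piece -/
lemma few (K : Finset G) {ε : ℝ} (hε : 0 < ε) : ∃ j, ∀ᶠ r in atTop, j ≤ c.L r ∧
    (((Finset.range (c.n r)).filter fun x => ∃ y ∈ Finset.range (c.n r),
      c.lab r x = c.lab r y ∧ (c.f r x)⁻¹ * c.f r y ∈ K ∧ ¬ c.E j r x y).card : ℝ) ≤ ε * c.n r := by
  have h0 : (0 : ℝ) < (K.card : ℝ) + 1 := by positivity
  choose J hJ using fun k : G => c.sel k (ε / ((K.card : ℝ) + 1)) (by positivity)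
  set j := K.sup J with hj
  refine ⟨j, ?_⟩
  have h1 : ∀ᶠ r in atTop, ∀ k ∈ K, (cnt (c.D r) k (c.L r) : ℝ) - cnt (c.D r) k (J k) ≤
      ε / ((K.card : ℝ) + 1) * c.n r :=
    (eventually_all_finset K).2 fun k _ => hJ k
  filter_upwards [h1, c.lim.eventually (eventually_ge_atTop j)] with r h2 h3
  refine ⟨h3, ?_⟩
  have h4 : ((Finset.range (c.n r)).filter fun x => ∃ y ∈ Finset.range (c.n r),
      c.lab r x = c.lab r y ∧ (c.f r x)⁻¹ * c.f r y ∈ K ∧ ¬ c.E j r x y) ⊆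
      K.biUnion fun k => (Finset.univ.filter fun x : Fin (c.n r) × Fin (c.n r) =>
        ((c.D r).pos x.1)⁻¹ * (c.D r).pos x.2 = k ∧ (c.D r).R (c.L r) x.1 x.2 ∧
          ¬ (c.D r).R j x.1 x.2).image fun x => (x.1 : ℕ) := by
    intro x hx
    rw [Finset.mem_filter] at hx
    obtain ⟨hx, y, hy, e1, e2, e3⟩ := hx
    rw [Finset.mem_range] at hx hy
    have e4 : c.lab r x = lbl (c.D r) (c.L r) ⟨x, hx⟩ := c.lab_apply ⟨x, hx⟩
    have e5 : c.lab r y = lbl (c.D r) (c.L r) ⟨y, hy⟩ := c.lab_apply ⟨y, hy⟩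
    have e6 : c.f r x = (c.D r).pos ⟨x, hx⟩ := c.f_apply ⟨x, hx⟩
    have e7 : c.f r y = (c.D r).pos ⟨y, hy⟩ := c.f_apply ⟨y, hy⟩
    rw [e4, e5, lbl_eq_iff] at e1
    rw [e6, e7] at e2
    refine Finset.mem_biUnion.2 ⟨_, e2, Finset.mem_image.2 ⟨(⟨x, hx⟩, ⟨y, hy⟩),
      Finset.mem_filter.2 ⟨Finset.mem_univ _, rfl, e1, fun h => e3 ?_⟩, rfl⟩⟩
    exact (c.E_iff j ⟨x, hx⟩ ⟨y, hy⟩).2 h
  calc _ ≤ ((K.biUnion fun k => (Finset.univ.filter fun x : Fin (c.n r) × Fin (c.n r) =>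
        ((c.D r).pos x.1)⁻¹ * (c.D r).pos x.2 = k ∧ (c.D r).R (c.L r) x.1 x.2 ∧
          ¬ (c.D r).R j x.1 x.2).image fun x => (x.1 : ℕ)).card : ℝ) := by
        exact_mod_cast Finset.card_le_card h4
    _ ≤ ∑ k ∈ K, (((Finset.univ.filter fun x : Fin (c.n r) × Fin (c.n r) =>
        ((c.D r).pos x.1)⁻¹ * (c.D r).pos x.2 = k ∧ (c.D r).R (c.L r) x.1 x.2 ∧
          ¬ (c.D r).R j x.1 x.2).image fun x => (x.1 : ℕ)).card : ℝ) := by
        exact_mod_cast Finset.card_biUnion_le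
    _ ≤ ∑ k ∈ K, ε / ((K.card : ℝ) + 1) * c.n r := by
        refine Finset.sum_le_sum fun k hk => ?_
        refine le_trans (Nat.cast_le.2 Finset.card_image_le) ?_
        rw [card_created (c.D r) h3]
        have h5 : (cnt (c.D r) k (J k) : ℝ) ≤ cnt (c.D r) k j := by
          exact_mod_cast cnt_mono (c.D r) k (Finset.le_sup (f := J) hk)
        linarith [h2 k hk]
    _ ≤ ε * c.n r := by
        rw [Finset.sum_const, nsmul_eq_mul, ← mul_assoc]
        refine mul_le_mul_of_nonneg_right ?_ (c.npos' r).le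
        rw [mul_div_assoc', div_le_iff₀ h0]
        nlinarith

/-- the unfolded sequence -/
noncomputable def sh : SH G ℕ where
  D r := Finset.range (c.n r)
  f := c.f
  lab := c.lab
  a r := c.n r
  pos := c.npos'
  hyp := by
    classical
    intro K ε hε
    obtain ⟨j, hj⟩ := c.few K hε
    refine ⟨c.F j, ?_⟩
    filter_upwards [hj] with r hr
    refine ⟨c.E j r, _, hr.2, fun x hx y hy h => ?_, fun x hx hxW y hy h1 h2 => ?_⟩
    · rw [Finset.mem_range] at hx hy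
      have h3 : (c.D r).R j ⟨x, hx⟩ ⟨y, hy⟩ := (c.E_iff j ⟨x, hx⟩ ⟨y, hy⟩).1 h
      have e4 : c.lab r x = lbl (c.D r) (c.L r) ⟨x, hx⟩ := c.lab_apply ⟨x, hx⟩
      have e5 : c.lab r y = lbl (c.D r) (c.L r) ⟨y, hy⟩ := c.lab_apply ⟨y, hy⟩
      have e6 : c.f r x = (c.D r).pos ⟨x, hx⟩ := c.f_apply ⟨x, hx⟩
      have e7 : c.f r y = (c.D r).pos ⟨y, hy⟩ := c.f_apply ⟨y, hy⟩
      rw [e4, e5, e6, e7, lbl_eq_iff]
      exact ⟨(c.D r).mono _ _ hr.1 _ _ h3, c.disp _ _ _ _ h3⟩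
    · by_contra h3
      exact hxW (Finset.mem_filter.2 ⟨hx, y, hy, h1, h2, h3⟩)

lemma sh_a (r : ℕ) : c.sh.a r = c.n r := rfl

end Sel

end Pool.Agent.LibHF46
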