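import Pool.Agent.LibHF46.Mul
import Pool.Agent.LibFi47.FC1
import Pool.Agent.LibFi47.FC3

/-!
The coefficients of the chains carried by the labels are concentrated sequences (page, C5).
-/

set_option autoImplicit false

namespace Pool.Agent.LibHF46

open Pool.Agent.LibZIS Filter Topology Pool.Agent.LibQM51 Pool.Agent.LibFi47

variable {G ι I J : Type} [Group G]

lemma dl_zero (c : SH G ι) : DL c (fun _ _ => (0 : ℝ)) := by
  refine (DL.of_loc (c := c) (locS c).zero_mem).of_le 0 fun r x => ?_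
  simp

lemma dl_sum {α : Type} (c : SH G ι) (s : Finset α) (n : α → ℕ → XX G → ℝ)
    (h : ∀ q ∈ s, DL c (n q)) : DL c (fun r x => ∑ q ∈ s, n q r x) := by
  classical
  induction s using Finset.induction_on with
  | empty => exact dl_zero c
  | insert a s ha ih =>
    have h1 := (h a (Finset.mem_insert_self a s)).add
      (ih fun q hq => h q (Finset.mem_insert_of_mem hq))
    refine h1.of_le 1 fun r x => ?_
    rw [Finset.sum_insert ha, one_mul]

lemma cf_free (g : G) (x : I →₀ MonoidAlgebra ℤ G) (i : I) (h : G) :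
    cf (Representation.free ℤ G I g x) i h = cf x i (h * g) := by
  unfold cf
  rw [FC2.free_coeff, mul_inv_rev]

lemma cf_ch (T : Sheet G I) (Q : Finset (Fin T.n)) (i : I) (h : G) :
    cf (T.ch Q) i h = ∑ v ∈ Q, cf (T.d v) i (h * T.pos v) := by
  rw [Sheet.ch, FC3.cf_sum, Finset.sum_apply]
  exact Finset.sum_congr rfl fun v _ => cf_free _ _ _ _

lemma exists_supp [Fintype I] (D₀ : Finset (I →₀ MonoidAlgebra ℤ G)) :
    ∃ (Q₀ : Finset G) (C : ℝ), 0 ≤ C ∧ ∀ d ∈ D₀, ∀ i y, |cf d i y| ≤ C ∧ (y ∉ Q₀ → cf d i y = 0) := by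
  classical
  refine ⟨D₀.biUnion fun d => Finset.univ.biUnion fun i => (d i).coeff.support.image (·⁻¹),
    ∑ d ∈ D₀, ∑ i, ∑ g ∈ (d i).coeff.support, |(((d i).coeff g : ℤ) : ℝ)|,
    Finset.sum_nonneg fun d _ => Finset.sum_nonneg fun i _ => Finset.sum_nonneg fun g _ =>
      abs_nonneg _, fun d hd i y => ?_⟩
  have h1 : y ∉ (D₀.biUnion fun d => Finset.univ.biUnion fun i =>
      (d i).coeff.support.image (·⁻¹)) → cf d i y = 0 := by
    intro hy
    by_contra h2
    apply hy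
    rw [Finset.mem_biUnion]
    refine ⟨d, hd, Finset.mem_biUnion.2 ⟨i, Finset.mem_univ i, Finset.mem_image.2 ⟨y⁻¹, ?_,
      inv_inv y⟩⟩⟩
    rw [Finsupp.mem_support_iff]
    intro h3
    apply h2
    unfold cf
    rw [h3]
    simp
  refine ⟨?_, h1⟩
  by_cases h4 : (d i).coeff y⁻¹ = 0
  · have h5 : cf d i y = 0 := by
      unfold cf
      rw [h4]
      simp
    rw [h5, abs_zero]
    exact Finset.sum_nonneg fun d _ => Finset.sum_nonneg fun i _ => Finset.sum_nonneg fun g _ =>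
      abs_nonneg _
  · have e1 : |cf d i y| ≤ ∑ g ∈ (d i).coeff.support, |(((d i).coeff g : ℤ) : ℝ)| :=
      Finset.single_le_sum (f := fun g => |(((d i).coeff g : ℤ) : ℝ)|)
        (fun g _ => abs_nonneg _) (Finsupp.mem_support_iff.2 h4)
    have e2 : ∑ g ∈ (d i).coeff.support, |(((d i).coeff g : ℤ) : ℝ)| ≤
        ∑ i, ∑ g ∈ (d i).coeff.support, |(((d i).coeff g : ℤ) : ℝ)| :=
      Finset.single_le_sum (f := fun i => ∑ g ∈ (d i).coeff.support, |(((d i).coeff g : ℤ) : ℝ)|)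
        (fun i _ => Finset.sum_nonneg fun g _ => abs_nonneg _) (Finset.mem_univ i)
    have e3 : ∑ i, ∑ g ∈ (d i).coeff.support, |(((d i).coeff g : ℤ) : ℝ)| ≤
        ∑ d ∈ D₀, ∑ i, ∑ g ∈ (d i).coeff.support, |(((d i).coeff g : ℤ) : ℝ)| :=
      Finset.single_le_sum (f := fun d : I →₀ MonoidAlgebra ℤ G =>
          ∑ i, ∑ g ∈ (d i).coeff.support, |(((d i).coeff g : ℤ) : ℝ)|)
        (fun d _ => Finset.sum_nonneg fun i _ => Finset.sum_nonneg fun g _ => abs_nonneg _) hd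
    exact e1.trans (e2.trans e3)

/-- the site of a cell -/
noncomputable def Sheet.site (T : Sheet G I) (lab : Fin T.n → ℕ) (v : Fin T.n) : XX G :=
  ((T.pos v)⁻¹, lab v)

open Classical in
/-- the chain carried by a label -/
noncomputable def Sheet.lch (T : Sheet G I) (lab : Fin T.n → ℕ) (j : ℕ) : I →₀ MonoidAlgebra ℤ G :=
  T.ch (Finset.univ.filter fun v => lab v = j)

/-- the coefficients of the chains carried by the labels are concentrated sequences. -/
theorem dl_lch [Fintype I] (c : SH G ι) (T : ℕ → Sheet G I) (lab : (r : ℕ) → Fin (T r).n → ℕ)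
    (D₀ : Finset (I →₀ MonoidAlgebra ℤ G)) (hD₀ : ∀ r v, (T r).d v ∈ D₀)
    (h : DL c fun r x => (mlt ((T r).site (lab r)) x : ℝ)) (i : I) :
    DL c fun r x => cf ((T r).lch (lab r) x.2) i x.1 := by
  classical
  obtain ⟨Q₀, C, hC, hQ⟩ := exists_supp D₀
  have h1 : DL c fun r x => ∑ q ∈ Q₀, (mlt ((T r).site (lab r)) (q⁻¹ • x) : ℝ) :=
    dl_sum c Q₀ (fun q r x => (mlt ((T r).site (lab r)) (q⁻¹ • x) : ℝ)) fun q _ => h.trans q
  refine h1.of_le C fun r x => ?_
  have h0 : 0 ≤ ∑ q ∈ Q₀, (mlt ((T r).site (lab r)) (q⁻¹ • x) : ℝ) :=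
    Finset.sum_nonneg fun q _ => Nat.cast_nonneg _
  rw [Real.norm_of_nonneg h0, Sheet.lch, cf_ch]
  refine (norm_sum_le _ _).trans ?_
  have h2 : ∀ v ∈ Finset.univ.filter (fun v => lab r v = x.2),
      ‖cf ((T r).d v) i (x.1 * (T r).pos v)‖ ≤
        ∑ q ∈ Q₀, if x.1 * (T r).pos v = q then C else 0 := by
    intro v _
    rw [Finset.sum_ite_eq, Real.norm_eq_abs]
    split_ifs with hq
    · exact (hQ _ (hD₀ r v) i _).1
    · rw [(hQ _ (hD₀ r v) i _).2 hq, abs_zero]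
  refine (Finset.sum_le_sum h2).trans (le_of_eq ?_)
  rw [Finset.sum_comm, Finset.mul_sum]
  refine Finset.sum_congr rfl fun q _ => ?_
  rw [← Finset.sum_filter, Finset.sum_const, nsmul_eq_mul, mul_comm, Finset.filter_filter, mlt]
  congr 2
  refine Finset.card_bij (fun v _ => v) (fun v hv => ?_) (fun _ _ _ _ h => h) fun v hv => ?_
  · rw [Finset.mem_filter] at hv ⊢
    refine ⟨hv.1, ?_⟩
    obtain ⟨h3, h4⟩ := hv.2
    show ((((T r).pos v)⁻¹, lab r v) : G × ℕ) = (q⁻¹ * x.1, x.2)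
    rw [← h3, ← h4]
    congr 1
    group
  · rw [Finset.mem_filter] at hv
    refine ⟨v, Finset.mem_filter.2 ⟨hv.1, ?_⟩, rfl⟩
    have h3 : ((((T r).pos v)⁻¹, lab r v) : G × ℕ) = (q⁻¹ * x.1, x.2) := hv.2
    have h4 : ((T r).pos v)⁻¹ = q⁻¹ * x.1 := congrArg Prod.fst h3
    have h5 : lab r v = x.2 := congrArg Prod.snd h3
    refine ⟨h5, ?_⟩
    have h6 : x.1 = q * ((T r).pos v)⁻¹ := by rw [h4]; group
    rw [h6]
    group

end Pool.Agent.LibHF46
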