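import Pool.Agent.LibHF46.Defs
import Pool.Agent.LibQM51.Coh
import Pool.Agent.LibFi47.HX3
import Pool.Agent.LibFi47.FC1
import Pool.Agent.LibFi47.FC3
import Pool.Agent.LibFi47.FL

/-!
Chains (page, section 4, B1-B3).
-/

set_option autoImplicit false

namespace Pool.Agent.LibHF46

open CategoryTheory Filter Topology Pool.Agent.LibFi47 Pool.Agent.LibQM51
open Pool.Agent.LibFi47.FC1 Pool.Agent.LibFi47.FC2 Pool.Agent.LibFi47.FC3

variable {G I J ι : Type} [Group G]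

/-- the slices of an integer valued sequence. -/
noncomputable def Chain_sl (c : SH G ι) (r j : ℕ) : ZS c →+ (G → ℝ) where
  toFun n := fun h => ((n.1 r (h, j) : ℤ) : ℝ)
  map_zero' := by
    funext h
    show (((0 : ℤ)) : ℝ) = 0
    simp
  map_add' u v := by
    funext h
    show (((u.1 r (h, j) + v.1 r (h, j) : ℤ)) : ℝ) = _ + _
    push_cast
    rfl

lemma Chain_sl_apply (c : SH G ι) (r j : ℕ) (n : ZS c) (h : G) :
    Chain_sl c r j n h = ((n.1 r (h, j) : ℤ) : ℝ) := rfl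

lemma Chain_sl_LtZ (c : SH G ι) (r j : ℕ) (g : G) (n : ZS c) :
    Chain_sl c r j (LtZ c g n) = LibRD47.Tf g (Chain_sl c r j n) := by
  funext h
  show (((LtZ c g n).1 r (h, j) : ℤ) : ℝ) = ((n.1 r (g⁻¹ * h, j) : ℤ) : ℝ)
  rw [LtZ_val]
  rfl

lemma Chain_ap (c : SH G ι) (q : G →₀ ℤ) (n : ZS c) (r j : ℕ) :
    Chain_sl c r j (ap (LtZ c) q n) = ap LibRD47.Tf q (Chain_sl c r j n) :=
  FL.ap_comm (LtZ c) LibRD47.Tf (Chain_sl c r j) (fun g a => Chain_sl_LtZ c r j g a) q n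

/-- the quotient map. -/
noncomputable def Chain_mk (c : SH G ι) : ZS c →+ MM c := QuotientAddGroup.mk' _

lemma Chain_mk_apply (c : SH G ι) (u : ZS c) : Chain_mk c u = mk c u := rfl

lemma Chain_mk_ap (c : SH G ι) (q : G →₀ ℤ) (n : ZS c) :
    Chain_mk c (ap (LtZ c) q n) = ap (HX2.rh (RM c)) q (Chain_mk c n) :=
  FL.ap_comm (LtZ c) (HX2.rh (RM c)) (Chain_mk c) (fun _ _ => rfl) q n

/-- sums over slices. -/
lemma Chain_sum_slices (E : XX G →₀ ℤ) (J : Finset ℕ) :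
    ∑ j ∈ J, ∑' h : G, ((E (h, j) : ℤ) : ℝ) ^ 2 ≤ ∑ x ∈ E.support, ((E x : ℤ) : ℝ) ^ 2 := by
  classical
  have h0 : ∀ x ∉ E.support, ((E x : ℤ) : ℝ) ^ 2 = 0 := by
    intro x hx
    rw [Finsupp.notMem_support_iff.1 hx]
    simp
  have h1 : Summable fun x : G × ℕ => ((E x : ℤ) : ℝ) ^ 2 :=
    summable_of_ne_finset_zero (s := E.support) h0
  have h2 : Summable fun p : ℕ × G => ((E (p.2, p.1) : ℤ) : ℝ) ^ 2 :=
    (Equiv.prodComm ℕ G).summable_iff.2 h1
  have h3 : ∑' p : ℕ × G, ((E (p.2, p.1) : ℤ) : ℝ) ^ 2 = ∑' x : G × ℕ, ((E x : ℤ) : ℝ) ^ 2 :=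
    (Equiv.prodComm ℕ G).tsum_eq (fun x : G × ℕ => ((E x : ℤ) : ℝ) ^ 2)
  have h4 : ∑' x : XX G, ((E x : ℤ) : ℝ) ^ 2 = ∑ x ∈ E.support, ((E x : ℤ) : ℝ) ^ 2 :=
    tsum_eq_sum (s := E.support) h0
  have h5 : ∑' p : ℕ × G, ((E (p.2, p.1) : ℤ) : ℝ) ^ 2 = ∑' x : XX G, ((E x : ℤ) : ℝ) ^ 2 := h3
  rw [← h4, ← h5, h2.tsum_prod]
  exact h2.prod.sum_le_tsum J fun j _ => tsum_nonneg fun h => sq_nonneg _

/-- approximate cycles over the copies of the group are close to integral cycles. -/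
theorem exists_cycles [Fintype I] [Fintype J] (c : SH G ι)
    (D : (I →₀ MonoidAlgebra ℤ G) →+ (J →₀ MonoidAlgebra ℤ G)) (hD : Eqv D)
    (hI : HC (HX2.rh (RM c)) D) (U : ℕ → ℕ → (I →₀ MonoidAlgebra ℤ G)) (Js : ℕ → Finset ℕ)
    (h0 : ∀ r, ∀ j ∉ Js r, U r j = 0)
    (hU : ∀ i, DL c fun r x => cf (U r x.2) i x.1)
    (hb : ∀ b, DN c fun r x => cf (D (U r x.2)) b x.1) :
    ∃ W : ℕ → ℕ → (I →₀ MonoidAlgebra ℤ G), (∀ r j, D (W r j) = 0) ∧
      Tendsto (fun r => (∑ j ∈ Js r, sqF (U r j - W r j)) / c.a r) atTop (𝓝 0) := by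
  classical
  choose X hX using fun i => exists_ZS (hU i) (fun r x => ⟨_, rfl⟩)
  have hXs : ∀ i r j, Chain_sl c r j (X i) = cf (U r j) i := by
    intro i r j
    funext h
    exact hX i r (h, j)
  have hval : ∀ b r j, Chain_sl c r j (∑ i, ap (LtZ c) (D (bs G i) b).coeff (X i)) =
      cf (D (U r j)) b := by
    intro b r j
    rw [map_sum, cf_D D hD]
    refine Finset.sum_congr rfl fun i _ => ?_
    rw [Chain_ap, hXs]
  obtain ⟨n, k, w', hk, hw⟩ := hI (fun i => mk c (X i)) (fun b => by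
    have h1 : ∑ i, ap (HX2.rh (RM c)) (D (bs G i) b).coeff (mk c (X i)) =
        Chain_mk c (∑ i, ap (LtZ c) (D (bs G i) b).coeff (X i)) := by
      rw [map_sum]
      exact Finset.sum_congr rfl fun i _ => (Chain_mk_ap c _ _).symm
    rw [h1, Chain_mk_apply, mk_eq_zero_iff_dn]
    refine (hb b).of_le 1 fun r x => ?_
    have h2 := congrFun (hval b r x.2) x.1
    rw [one_mul, ← h2]
    exact le_of_eq rfl)
  choose w hw' using fun s => mk_surj c (w' s)
  -- the errors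
  set E : I → ZS c := fun i => X i - ∑ s, ap (LtZ c) (k s i).coeff (w s) with hE
  have hE0 : ∀ i, mk c (E i) = 0 := by
    intro i
    have h1 : mk c (E i) = mk c (X i) - ∑ s, ap (HX2.rh (RM c)) (k s i).coeff (w' s) := by
      rw [← Chain_mk_apply, hE]
      simp only
      rw [map_sub, map_sum]
      refine congrArg₂ (· - ·) rfl (Finset.sum_congr rfl fun s _ => ?_)
      rw [Chain_mk_ap, Chain_mk_apply, hw']
    rw [h1, sub_eq_zero]
    exact hw i
  -- the cycles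
  have hY : ∀ s r j, ∃ y : I →₀ MonoidAlgebra ℤ G, D y = 0 ∧
      ∀ i, cf y i = ap LibRD47.Tf (k s i).coeff (Chain_sl c r j (w s)) := by
    intro s r j
    refine exists_conv D hD (k s) (hk s) (Chain_sl c r j (w s)) (fun x => ⟨_, rfl⟩) ?_
    refine summable_of_ne_finset_zero (s := ((w s).1 r).support.image Prod.fst) fun x hx => ?_
    rw [Chain_sl_apply]
    have h1 : (w s).1 r (x, j) = 0 := by
      by_contra h2
      exact hx (Finset.mem_image.2 ⟨(x, j), Finsupp.mem_support_iff.2 h2, rfl⟩)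
    rw [h1]
    simp
  choose y hy hyc using hY
  refine ⟨fun r j => ∑ s, y s r j, fun r j => ?_, ?_⟩
  · rw [map_sum]
    exact Finset.sum_eq_zero fun s _ => hy s r j
  have key : ∀ r j i, cf (U r j - ∑ s, y s r j) i = Chain_sl c r j (E i) := by
    intro r j i
    rw [cf_sub, cf_sum, hE]
    simp only
    rw [map_sub, map_sum, hXs]
    refine congrArg₂ (· - ·) rfl (Finset.sum_congr rfl fun s _ => ?_)
    rw [hyc, Chain_ap]
  have hle : ∀ r, (∑ j ∈ Js r, sqF (U r j - ∑ s, y s r j)) / c.a r ≤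
      ∑ i, (∑ x ∈ ((E i).1 r).support, (((E i).1 r x : ℤ) : ℝ) ^ 2) / c.a r := by
    intro r
    rw [← Finset.sum_div]
    refine div_le_div_of_nonneg_right ?_ (c.pos r).le
    have h1 : ∑ j ∈ Js r, sqF (U r j - ∑ s, y s r j) =
        ∑ i, ∑ j ∈ Js r, ∑' h, (((E i).1 r (h, j) : ℤ) : ℝ) ^ 2 := by
      rw [Finset.sum_comm]
      refine Finset.sum_congr rfl fun j _ => ?_
      rw [sqF_eq]
      refine Finset.sum_congr rfl fun i _ => ?_
      rw [key]
      rfl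
    rw [h1]
    exact Finset.sum_le_sum fun i _ => Chain_sum_slices ((E i).1 r) (Js r)
  refine squeeze_zero (fun r => div_nonneg (Finset.sum_nonneg fun j _ => sqF_nonneg _)
    (c.pos r).le) hle ?_
  have h6 := tendsto_finsetSum Finset.univ fun i _ => tendsto_of_mk_eq_zero c (E i) (hE0 i)
  simpa using h6

end Pool.Agent.LibHF46
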