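import Pool.Agent.LibHF46.Defs
import Pool.Agent.LibQM51.Dom

/-!
The multiplicity function is a concentrated sequence (page, C4).
-/

set_option autoImplicit false

namespace Pool.Agent.LibHF46

open Pool.Agent.LibZIS Filter Topology Pool.Agent.LibQM51

variable {G ι : Type} [Group G]

open Classical in
/-- the number of the cells over a site -/
noncomputable def mlt {X : Type} {n : ℕ} (s : Fin n → X) (x : X) : ℕ :=
  (Finset.univ.filter fun v => s v = x).card

lemma mlt_eq_zero {X : Type} {n : ℕ} (s : Fin n → X) (x : X) (h : ∀ v, s v ≠ x) :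
    mlt s x = 0 := by
  classical
  rw [mlt, Finset.card_eq_zero, Finset.filter_eq_empty_iff]
  exact fun v _ => h v

open Classical in
lemma hasSum_mlt {X : Type} {n : ℕ} (s : Fin n → X) (g : X → ℝ) :
    HasSum (fun x => (mlt s x : ℝ) ^ 2 * g x)
      (∑ q : Fin n × Fin n, if s q.2 = s q.1 then g (s q.1) else 0) := by
  have h1 : ∀ x ∉ Finset.univ.image s, (mlt s x : ℝ) ^ 2 * g x = 0 := by
    intro x hx
    rw [mlt_eq_zero s x fun v hv => hx (Finset.mem_image.2 ⟨v, Finset.mem_univ v, hv⟩)]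
    simp
  have h2 : HasSum (fun x => (mlt s x : ℝ) ^ 2 * g x)
      (∑ x ∈ Finset.univ.image s, (mlt s x : ℝ) ^ 2 * g x) := hasSum_sum_of_ne_finset_zero h1
  have h3 : ∑ x ∈ Finset.univ.image s, (mlt s x : ℝ) ^ 2 * g x =
      ∑ q : Fin n × Fin n, if s q.2 = s q.1 then g (s q.1) else 0 := by
    rw [Fintype.sum_prod_type]
    have h4 : ∀ v : Fin n, (∑ w : Fin n, if s w = s v then g (s v) else 0) =
        (mlt s (s v) : ℝ) * g (s v) := by
      intro v
      rw [← Finset.sum_filter, Finset.sum_const, nsmul_eq_mul]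
      rfl
    simp only [h4]
    rw [← Finset.sum_fiberwise_of_maps_to (g := s) (t := Finset.univ.image s)
      (fun v _ => Finset.mem_image_of_mem s (Finset.mem_univ v))]
    refine Finset.sum_congr rfl fun x _ => ?_
    have h5 : ∀ v ∈ Finset.univ.filter (fun v => s v = x), (mlt s (s v) : ℝ) * g (s v) =
        (mlt s x : ℝ) * g x := by
      intro v hv
      rw [(Finset.mem_filter.1 hv).2]
    rw [Finset.sum_congr rfl h5, Finset.sum_const, nsmul_eq_mul]
    have h6 : (Finset.univ.filter fun v => s v = x).card = mlt s x := rfl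
    rw [h6]
    ring
  rw [h3] at h2
  exact h2

open Classical in
/-- the multiplicity function is a concentrated sequence. -/
theorem dl_mlt (c : SH G ι) (N : ℕ → ℕ) (ha : ∀ r, c.a r = N r) (s : (r : ℕ) → Fin (N r) → XX G)
    (hs : ∀ r v, s r v ∈ KS c {1} r) (M : ℝ)
    (hM : ∀ r, ((Finset.univ.filter fun q : Fin (N r) × Fin (N r) =>
      s r q.2 = s r q.1).card : ℝ) ≤ M * N r)
    (hU : ∀ ε : ℝ, 0 < ε → ∃ C : ℕ, ∀ᶠ r in atTop,
      ((Finset.univ.filter fun q : Fin (N r) × Fin (N r) =>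
        s r q.2 = s r q.1 ∧ C < mlt (s r) (s r q.1)).card : ℝ) ≤ ε * N r) :
    DL c fun r x => (mlt (s r) x : ℝ) := by
  have hM0 : 0 ≤ M := by
    have h1 := hM 0
    have h2 : (0 : ℝ) < N 0 := by rw [← ha]; exact c.pos 0
    by_contra h3
    push Not at h3
    have h4 : M * N 0 < 0 := mul_neg_of_neg_of_pos h3 h2
    have h5 : (0 : ℝ) ≤ ((Finset.univ.filter fun q : Fin (N 0) × Fin (N 0) =>
      s 0 q.2 = s 0 q.1).card : ℝ) := Nat.cast_nonneg _
    linarith
  have hsq : ∀ r, √(c.a r) ≠ 0 := fun r => (Real.sqrt_pos.2 (c.pos r)).ne'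
  -- the rescaled function, cut off at a set of sites
  let w : (ℕ → XX G → Prop) → ℕ → XX G → ℂ := fun A r x =>
    if A r x then (((mlt (s r) x : ℝ) / √(c.a r) : ℝ) : ℂ) else 0
  have wt : ∀ (A : ℕ → XX G → Prop) r x, A r x →
      w A r x = (((mlt (s r) x : ℝ) / √(c.a r) : ℝ) : ℂ) := fun A r x h => if_pos h
  have wf : ∀ (A : ℕ → XX G → Prop) r x, ¬ A r x → w A r x = 0 := fun A r x h => if_neg h
  have hw : ∀ A r x, ‖w A r x‖ ^ 2 = (mlt (s r) x : ℝ) ^ 2 * (if A r x then (c.a r)⁻¹ else 0) := by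
    intro A r x
    show ‖(if A r x then (((mlt (s r) x : ℝ) / √(c.a r) : ℝ) : ℂ) else 0)‖ ^ 2 = _
    split_ifs with h
    · rw [Complex.norm_real, Real.norm_eq_abs, sq_abs, div_pow, Real.sq_sqrt (c.pos r).le]
      rfl
    · rw [norm_zero]; ring
  have hsum : ∀ A r, HasSum (fun x => ‖w A r x‖ ^ 2)
      (((Finset.univ.filter fun q : Fin (N r) × Fin (N r) =>
        s r q.2 = s r q.1 ∧ A r (s r q.1)).card : ℝ) / c.a r) := by
    intro A r
    have h1 := hasSum_mlt (s r) (fun x => if A r x then (c.a r)⁻¹ else 0)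
    have h2 : (fun x => ‖w A r x‖ ^ 2) =
        fun x => (mlt (s r) x : ℝ) ^ 2 * (if A r x then (c.a r)⁻¹ else 0) := funext fun x => hw A r x
    rw [h2]
    convert h1 using 1
    rw [Finset.card_filter, Nat.cast_sum, Finset.sum_div]
    refine Finset.sum_congr rfl fun q _ => ?_
    by_cases q1 : s r q.2 = s r q.1
    · by_cases q2 : A r (s r q.1)
      · rw [if_pos ⟨q1, q2⟩, if_pos q1, if_pos q2]; simp
      · rw [if_neg (fun h => q2 h.2), if_pos q1, if_neg q2]; simp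
    · rw [if_neg (fun h => q1 h.1), if_neg q1]; simp
  have hle : ∀ (A : ℕ → XX G → Prop) r, ((Finset.univ.filter fun q : Fin (N r) × Fin (N r) =>
        s r q.2 = s r q.1 ∧ A r (s r q.1)).card : ℝ) / c.a r ≤ M := by
    intro A r
    rw [div_le_iff₀ (c.pos r), ha]
    refine le_trans ?_ (hM r)
    exact_mod_cast Finset.card_le_card fun q hq => by
      rw [Finset.mem_filter] at hq ⊢
      exact ⟨hq.1, hq.2.1⟩
  have hb : ∀ A r, (Summable fun x => ‖w A r x‖ ^ 2) ∧ ∑' x, ‖w A r x‖ ^ 2 ≤ (√M) ^ 2 := by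
    intro A r
    refine ⟨(hsum A r).summable, ?_⟩
    rw [(hsum A r).tsum_eq, Real.sq_sqrt hM0]
    exact hle A r
  let B : (ℕ → XX G → Prop) → BB G := fun A => mkB (w A) (√M) (hb A) (Real.sqrt_nonneg M)
  have hB : ∀ A r x, B A r x = w A r x := fun A r x => rfl
  have hnorm : ∀ (A : ℕ → XX G → Prop) r, ‖B A r‖ ^ 2 = ((Finset.univ.filter fun q : Fin (N r) × Fin (N r) =>
        s r q.2 = s r q.1 ∧ A r (s r q.1)).card : ℝ) / c.a r := by
    intro A r
    rw [Raw.norm_sq_eq]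
    exact (hsum A r).tsum_eq
  have wt' : ∀ (A : ℕ → XX G → Prop) r x, A r x →
      B A r x = (((mlt (s r) x : ℝ) / √(c.a r) : ℝ) : ℂ) := wt
  have wf' : ∀ (A : ℕ → XX G → Prop) r x, ¬ A r x → B A r x = 0 := wf
  clear_value w B
  obtain ⟨A0, hA0⟩ : ∃ A : ℕ → XX G → Prop, ∀ r x, A r x := ⟨fun _ _ => True, fun _ _ => trivial⟩
  refine ⟨B A0, fun ε hε => ?_, fun r x => ?_⟩
  · obtain ⟨C, hC⟩ := hU (ε ^ 2) (by positivity)
    obtain ⟨A1, hA1⟩ : ∃ A : ℕ → XX G → Prop, ∀ r x, A r x ↔ ¬ C < mlt (s r) x :=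
      ⟨_, fun _ _ => Iff.rfl⟩
    obtain ⟨A2, hA2⟩ : ∃ A : ℕ → XX G → Prop, ∀ r x, A r x ↔ ¬ A1 r x :=
      ⟨_, fun _ _ => Iff.rfl⟩
    refine ⟨{1}, C, B A1, fun r x => ⟨?_, fun hx => ?_⟩, ?_⟩
    · by_cases h : A1 r x
      · rw [wt' _ _ _ h, Complex.norm_real, Real.norm_eq_abs, abs_of_nonneg (by positivity),
          div_mul_cancel₀ _ (hsq r)]
        exact_mod_cast not_lt.1 ((hA1 r x).1 h)
      · rw [wf' _ _ _ h, norm_zero, zero_mul]; exact Nat.cast_nonneg C
    · by_contra h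
      apply hx
      by_cases h' : A1 r x
      · rw [wt' _ _ _ h', mlt_eq_zero (s r) x fun v hv => h (by rw [← hv]; exact hs r v)]
        simp
      · exact wf' _ _ _ h'
    · filter_upwards [hC] with r hr
      have h1 : B A0 r - B A1 r = B A2 r := by
        refine lp.ext (funext fun x => ?_)
        show B A0 r x - B A1 r x = B A2 r x
        rw [wt' _ _ _ (hA0 r x)]
        by_cases h : A1 r x
        · rw [wt' _ _ _ h, wf' A2 _ _ (fun h' => (hA2 r x).1 h' h), sub_self]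
        · rw [wf' _ _ _ h, wt' A2 _ _ ((hA2 r x).2 h), sub_zero]
      rw [h1]
      refine le_of_sq_le_sq ?_ hε.le
      rw [hnorm, div_le_iff₀ (c.pos r), ha]
      refine le_trans ?_ hr
      exact_mod_cast Finset.card_le_card fun q hq => by
        rw [Finset.mem_filter] at hq ⊢
        exact ⟨hq.1, hq.2.1, not_not.1 (mt (hA1 _ _).2 ((hA2 _ _).1 hq.2.2))⟩
  · rw [wt' _ _ _ (hA0 r x), Complex.norm_real, norm_div, Real.norm_of_nonneg
      (Real.sqrt_nonneg _), mul_div_cancel₀ _ (hsq r)]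

end Pool.Agent.LibHF46
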