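import Pool.Agent.LibHF46.Lev
import Pool.Agent.LibHF46.Mul
import Pool.Agent.LibQF83.Path

/-!
Levels for cubes.
-/

set_option autoImplicit false

namespace Pool.Agent.LibHF46

open Filter Topology Pool.Agent.LibQM51
open Pool.Agent.LibQF83 (box ev card_box)

variable {G : Type} [Group G]

/-- the numbering of the points of a box. -/
noncomputable def pt (m N : ℕ) : Fin (box m N).card ≃ ↥(box m N) := (box m N).equivFin.symm

lemma ev_ne {m : ℕ} (i : Fin m) (p : Fin m → ℤ) : p ≠ p + ev i := by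
  intro h
  have h1 := congrFun h i
  rw [Pi.add_apply] at h1
  unfold ev at h1
  rw [Pi.single_eq_same] at h1
  omega

/-- the sheet of a cube. -/
noncomputable def cubeSheet {m : ℕ} (N : ℕ) (f : (Fin m → ℤ) → G) : Sheet G Unit where
  n := (box m N).card
  pos v := f (pt m N v).1
  d _ := 0
  gr :=
    { Adj := fun v w => ∃ i, (pt m N w).1 = (pt m N v).1 + ev i ∨
        (pt m N v).1 = (pt m N w).1 + ev i
      symm := ⟨fun _ _ ⟨i, h⟩ => ⟨i, h.symm⟩⟩
      loopless := ⟨fun v ⟨i, h⟩ => h.elim (ev_ne i _) (ev_ne i _)⟩ }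
  W := ∅

/-- the cube of side `s` which contains a point. -/
noncomputable def flo {m : ℕ} (s : ℕ) (p : Fin m → ℤ) : ℕ :=
  Encodable.encode fun i => p i / (s : ℤ)

lemma flo_eq_iff {m : ℕ} (s : ℕ) (p q : Fin m → ℤ) :
    flo s p = flo s q ↔ ∀ i, p i / (s : ℤ) = q i / (s : ℤ) := by
  unfold flo
  rw [Encodable.encode_inj]
  exact ⟨fun h i => congrFun h i, fun h => funext h⟩

lemma flo_class {m : ℕ} (N s : ℕ) (hs : 0 < s) (c : ℕ) :
    {v : Fin (box m N).card | flo s (pt m N v).1 = c}.ncard ≤ s ^ m := by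
  classical
  rcases Set.eq_empty_or_nonempty {v : Fin (box m N).card | flo s (pt m N v).1 = c} with h | h
  · rw [h, Set.ncard_empty]
    exact Nat.zero_le _
  · obtain ⟨v0, hv0⟩ := h
    have hv0' : flo s (pt m N v0).1 = c := hv0
    let B : Finset (Fin m → ℤ) := Fintype.piFinset fun i =>
      Finset.Ico ((s : ℤ) * ((pt m N v0).1 i / (s : ℤ)))
        ((s : ℤ) * ((pt m N v0).1 i / (s : ℤ)) + s)
    have hB : B.card = s ^ m := by
      show (Fintype.piFinset _).card = _
      rw [Fintype.card_piFinset]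
      simp
    refine le_trans (Set.ncard_le_ncard_of_injOn (t := (B : Set (Fin m → ℤ)))
      (fun v => (pt m N v).1) (fun v hv => ?_)
      (fun v _ w _ h => (pt m N).injective (Subtype.ext h)) (Finset.finite_toSet B)) (by
        rw [Set.ncard_coe_finset, hB])
    have hv' : flo s (pt m N v).1 = c := hv
    have h1 := (flo_eq_iff s (pt m N v).1 (pt m N v0).1).1 (hv'.trans hv0'.symm)
    show (pt m N v).1 ∈ (B : Set (Fin m → ℤ))
    rw [Finset.mem_coe, Fintype.mem_piFinset]
    intro i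
    rw [Finset.mem_Ico, ← h1 i]
    have hs' : (0 : ℤ) < s := by exact_mod_cast hs
    constructor
    · exact Int.mul_ediv_self_le hs'.ne'
    · have := Int.lt_mul_ediv_self_add (x := (pt m N v).1 i) hs'
      exact this

open Classical in
lemma card_wall1 {m : ℕ} (N s : ℕ) (i : Fin m) (x : (Fin m → ℤ) × ℕ)
    (hx : x ∈ ((((box m N).filter fun p => (s : ℤ) ∣ p i + 1) ×ˢ Finset.range s :
      Finset ((Fin m → ℤ) × ℕ)) : Set ((Fin m → ℤ) × ℕ))) :
    x.1 - (x.2 : ℤ) • ev i ∈ ((box m N : Finset (Fin m → ℤ)) : Set (Fin m → ℤ)) := by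
  rw [Finset.mem_coe, Finset.mem_product, Finset.mem_filter, Finset.mem_range] at hx
  obtain ⟨⟨h1, h2⟩, h3⟩ := hx
  rw [Finset.mem_coe]
  unfold box at h1 ⊢
  rw [Fintype.mem_piFinset] at h1 ⊢
  intro j
  have h4 := h1 j
  rw [Finset.mem_Icc] at h4 ⊢
  by_cases hj : j = i
  · subst hj
    have h5 : (s : ℤ) ≤ x.1 j + 1 := Int.le_of_dvd (by omega) h2
    simp only [Pi.sub_apply, Pi.smul_apply, ev, Pi.single_eq_same, smul_eq_mul, mul_one]
    omega
  · simp only [Pi.sub_apply, Pi.smul_apply, ev, Pi.single_eq_of_ne hj, smul_eq_mul, mul_zero,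
      sub_zero]
    exact h4

open Classical in
lemma card_wall2 {m : ℕ} (N s : ℕ) (hs : 0 < s) (i : Fin m) (x : (Fin m → ℤ) × ℕ)
    (hx : x ∈ ((((box m N).filter fun p => (s : ℤ) ∣ p i + 1) ×ˢ Finset.range s :
      Finset ((Fin m → ℤ) × ℕ)) : Set ((Fin m → ℤ) × ℕ))) (y : (Fin m → ℤ) × ℕ)
    (hy : y ∈ ((((box m N).filter fun p => (s : ℤ) ∣ p i + 1) ×ˢ Finset.range s :
      Finset ((Fin m → ℤ) × ℕ)) : Set ((Fin m → ℤ) × ℕ)))
    (h : x.1 - (x.2 : ℤ) • ev i = y.1 - (y.2 : ℤ) • ev i) : x = y := by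
  rw [Finset.mem_coe, Finset.mem_product, Finset.mem_filter, Finset.mem_range] at hx hy
  obtain ⟨⟨hx1, hx2⟩, hx3⟩ := hx
  obtain ⟨⟨hy1, hy2⟩, hy3⟩ := hy
  have h0 := h
  have h1 := congrFun h0 i
  simp only [Pi.sub_apply, Pi.smul_apply, ev, Pi.single_eq_same, smul_eq_mul, mul_one] at h1
  have h2 : (s : ℤ) ∣ (x.2 : ℤ) - y.2 := by
    have h3 := dvd_sub hx2 hy2
    have h4 : x.1 i + 1 - (y.1 i + 1) = (x.2 : ℤ) - y.2 := by omega
    rwa [h4] at h3
  have h3 : (x.2 : ℤ) - y.2 = 0 := by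
    refine Int.eq_zero_of_abs_lt_dvd h2 ?_
    rw [abs_lt]
    constructor <;> omega
  have h4 : x.2 = y.2 := by omega
  refine Prod.ext ?_ h4
  rw [h4] at h0
  exact sub_left_injective h0


/-- the points of the box which lie below a wall. -/
lemma card_wall {m : ℕ} (N s : ℕ) (hs : 0 < s) (i : Fin m) :
    ((box m N).filter fun p => (s : ℤ) ∣ p i + 1).card * s ≤ (box m N).card := by
  classical
  have hmain : (((box m N).filter fun p => (s : ℤ) ∣ p i + 1) ×ˢ Finset.range s).card ≤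
      (box m N).card := by
    refine Finset.card_le_card_of_injOn (fun x => x.1 - (x.2 : ℤ) • ev i) (fun x hx => ?_)
      (fun x hx y hy h => ?_)
    · exact card_wall1 N s i x hx
    · exact card_wall2 N s hs i x hx y hy h
  rwa [Finset.card_product, Finset.card_range] at hmain

lemma flo_step {m : ℕ} (s : ℕ) (hs : 0 < s) (p : Fin m → ℤ) (i : Fin m)
    (h : flo s p ≠ flo s (p + ev i)) : (s : ℤ) ∣ p i + 1 := by
  by_contra hcon
  refine h ((flo_eq_iff s _ _).2 fun j => ?_)
  by_cases hj : j = i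
  · subst hj
    have hs' : (0 : ℤ) < s := by exact_mod_cast hs
    simp only [Pi.add_apply, ev, Pi.single_eq_same]
    have h1 := Int.emod_nonneg (p j + 1) hs'.ne'
    have h2 : (p j + 1) % (s : ℤ) ≠ 0 := fun hh => hcon (Int.dvd_of_emod_eq_zero hh)
    have h3 := Int.emod_lt_of_pos (p j + 1) hs'
    have h4 := Int.emod_add_mul_ediv (p j + 1) s
    symm
    have h5 : p j = ((p j + 1) % s - 1) + s * ((p j + 1) / s) := by omega
    have h6 : ((p j + 1) % (s : ℤ) - 1) / (s : ℤ) = 0 :=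
      Int.ediv_eq_zero_of_lt (by omega) (by omega)
    conv_rhs => rw [h5]
    rw [Int.add_mul_ediv_left _ _ hs'.ne', h6, zero_add]
  · simp only [Pi.add_apply, ev, Pi.single_eq_of_ne hj, add_zero]

open Classical in
lemma cube_cut {m : ℕ} (N : ℕ) (f : (Fin m → ℤ) → G) (s : ℕ) (hs : 0 < s) :
    (cubeSheet N f).edges (fun v w => flo s (pt m N v).1 ≠ flo s (pt m N w).1) * s ≤
      2 * m * (box m N).card := by
  have h1 : (cubeSheet N f).edges (fun v w => flo s (pt m N v).1 ≠ flo s (pt m N w).1) ≤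
      ∑ i : Fin m, 2 * ((box m N).filter fun p => (s : ℤ) ∣ p i + 1).card := by
    unfold Sheet.edges
    refine (Finset.card_le_card (t := Finset.univ.biUnion fun i : Fin m =>
          ((Finset.univ.filter fun q : Fin (box m N).card × Fin (box m N).card =>
            (pt m N q.2).1 = (pt m N q.1).1 + ev i ∧ (s : ℤ) ∣ (pt m N q.1).1 i + 1) ∪
          (Finset.univ.filter fun q : Fin (box m N).card × Fin (box m N).card =>
            (pt m N q.1).1 = (pt m N q.2).1 + ev i ∧ (s : ℤ) ∣ (pt m N q.2).1 i + 1)))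
            ?_).trans ((Finset.card_biUnion_le).trans (Finset.sum_le_sum fun i _ => ?_))
    · intro q hq
      obtain ⟨_, ⟨i, hi⟩, hne⟩ := (@Finset.mem_filter _ _ (_) _ _).1 hq
      rw [Finset.mem_biUnion]
      refine ⟨i, Finset.mem_univ i, ?_⟩
      rw [Finset.mem_union, Finset.mem_filter, Finset.mem_filter]
      rcases hi with hi | hi
      · refine Or.inl ⟨Finset.mem_univ _, hi, flo_step s hs _ i ?_⟩
        rw [← hi]
        exact hne
      · refine Or.inr ⟨Finset.mem_univ _, hi, flo_step s hs _ i ?_⟩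
        rw [← hi]
        exact fun h => hne h.symm
    refine (Finset.card_union_le _ _).trans ?_
    rw [two_mul]
    refine Nat.add_le_add ?_ ?_
    · refine Finset.card_le_card_of_injOn (fun q => (pt m N q.1).1) (fun q hq => ?_)
        (fun q hq q' hq' h => ?_)
      · rw [Finset.mem_coe, Finset.mem_filter] at hq ⊢
        exact ⟨(pt m N q.1).2, hq.2.2⟩
      · rw [Finset.mem_coe, Finset.mem_filter] at hq hq'
        have h3 : (pt m N q.1).1 = (pt m N q'.1).1 := h
        refine Prod.ext ((pt m N).injective (Subtype.ext h3))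
          ((pt m N).injective (Subtype.ext ?_))
        rw [hq.2.1, hq'.2.1, h3]
    · refine Finset.card_le_card_of_injOn (fun q => (pt m N q.2).1) (fun q hq => ?_)
        (fun q hq q' hq' h => ?_)
      · rw [Finset.mem_coe, Finset.mem_filter] at hq ⊢
        exact ⟨(pt m N q.2).2, hq.2.2⟩
      · rw [Finset.mem_coe, Finset.mem_filter] at hq hq'
        have h3 : (pt m N q.2).1 = (pt m N q'.2).1 := h
        refine Prod.ext ((pt m N).injective (Subtype.ext ?_))
          ((pt m N).injective (Subtype.ext h3))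
        rw [hq.2.1, hq'.2.1, h3]
  refine (Nat.mul_le_mul_right s h1).trans ?_
  rw [Finset.sum_mul]
  have h3 : ∀ i ∈ (Finset.univ : Finset (Fin m)),
      2 * ((box m N).filter fun p => (s : ℤ) ∣ p i + 1).card * s ≤ 2 * (box m N).card := by
    intro i _
    rw [mul_assoc]
    exact Nat.mul_le_mul_left 2 (card_wall N s hs i)
  refine (Finset.sum_le_sum h3).trans ?_
  rw [Finset.sum_const, Finset.card_univ, Fintype.card_fin, smul_eq_mul]
  apply le_of_eq
  ring

open Classical in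
lemma cube_pairs {m : ℕ} (N : ℕ) (f : (Fin m → ℤ) → G) (s : ℕ) (hs : 0 < s) :
    (cubeSheet N f).pairs (fun v w => flo s (pt m N v).1 = flo s (pt m N w).1 ∧
      (cubeSheet N f).pos v = (cubeSheet N f).pos w) ≤
      ((box m N ×ˢ box m N).filter fun x =>
        (∀ j, |x.1 j - x.2 j| ≤ (s : ℤ)) ∧ f x.1 = f x.2).card := by
  unfold Sheet.pairs
  refine Finset.card_le_card_of_injOn (fun q => ((pt m N q.1).1, (pt m N q.2).1)) (fun q hq => ?_)
    (fun q _ q' _ h => ?_)
  · rw [Finset.mem_coe] at hq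
    simp only [Finset.mem_filter, Finset.mem_univ, true_and] at hq
    obtain ⟨h1, h2⟩ := hq
    rw [Finset.mem_coe, Finset.mem_filter, Finset.mem_product]
    refine ⟨⟨(pt m N q.1).2, (pt m N q.2).2⟩, fun j => ?_, h2⟩
    have h3 := (flo_eq_iff s _ _).1 h1 j
    have hs' : (0 : ℤ) < s := by exact_mod_cast hs
    have e1 := Int.emod_nonneg ((pt m N q.1).1 j) hs'.ne'
    have e2 := Int.emod_lt_of_pos ((pt m N q.1).1 j) hs'
    have e3 := Int.emod_add_mul_ediv ((pt m N q.1).1 j) s
    have e4 := Int.emod_nonneg ((pt m N q.2).1 j) hs'.ne'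
    have e5 := Int.emod_lt_of_pos ((pt m N q.2).1 j) hs'
    have e6 := Int.emod_add_mul_ediv ((pt m N q.2).1 j) s
    rw [h3] at e3
    show |(pt m N q.1).1 j - (pt m N q.2).1 j| ≤ (s : ℤ)
    rw [abs_le]
    constructor <;> omega
  · have h1 : (pt m N q.1).1 = (pt m N q'.1).1 := congrArg Prod.fst h
    have h2 : (pt m N q.2).1 = (pt m N q'.2).1 := congrArg Prod.snd h
    exact Prod.ext ((pt m N).injective (Subtype.ext h1)) ((pt m N).injective (Subtype.ext h2))

open Classical in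
/-- FC-C: levels for cubes. -/
theorem exists_cube_levels {m : ℕ} (N : ℕ → ℕ) (f : ℕ → (Fin m → ℤ) → G) (S : Finset G)
    (hf : ∀ r p i, (f r p)⁻¹ * f r (p + ev i) ∈ S) (M : ℝ)
    (hM : ∀ s : ℕ, ∀ᶠ r in atTop, (((box m (N r) ×ˢ box m (N r)).filter fun x =>
      (∀ j, |x.1 j - x.2 j| ≤ (s : ℤ)) ∧ f r x.1 = f r x.2).card : ℝ) ≤ M * ((N r : ℝ) + 1) ^ m) :
    ∃ (φ : ℕ → ℕ) (lab : ℕ → (Fin m → ℤ) → ℕ) (c : SH G ℕ), StrictMono φ ∧
      (∀ r, c.a r = ((N (φ r) : ℝ) + 1) ^ m) ∧
      (DL c fun r (x : XX G) =>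
        (((box m (N (φ r))).filter fun p => ((f (φ r) p)⁻¹, lab r p) = x).card : ℝ)) ∧
      ∀ i, Tendsto (fun r => (((box m (N (φ r))).filter fun p =>
        p + ev i ∈ box m (N (φ r)) ∧ lab r p ≠ lab r (p + ev i)).card : ℝ) /
          ((N (φ r) : ℝ) + 1) ^ m) atTop (𝓝 0) := by
  have hn : ∀ r, ((cubeSheet (N r) (f r)).n : ℝ) = ((N r : ℝ) + 1) ^ m := by
    intro r
    show ((box m (N r)).card : ℝ) = _
    rw [card_box]
    push_cast
    rfl
  have h0 : ∀ r, 0 < (cubeSheet (N r) (f r)).n := by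
    intro r
    have h1 : (0 : ℝ) < (cubeSheet (N r) (f r)).n := by
      rw [hn]
      positivity
    exact_mod_cast h1
  have hF : ∀ r v w, (cubeSheet (N r) (f r)).gr.Adj v w →
      ((cubeSheet (N r) (f r)).pos v)⁻¹ * (cubeSheet (N r) (f r)).pos w ∈ S ∪ S.image (·⁻¹) := by
    rintro r v w ⟨i, h | h⟩
    · refine Finset.mem_union_left _ ?_
      show (f r (pt m (N r) v).1)⁻¹ * f r (pt m (N r) w).1 ∈ S
      rw [h]
      exact hf r _ i
    · refine Finset.mem_union_right _ (Finset.mem_image.2 ⟨_, hf r (pt m (N r) w).1 i, ?_⟩)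
      show ((f r (pt m (N r) w).1)⁻¹ * f r ((pt m (N r) w).1 + ev i))⁻¹ =
        (f r (pt m (N r) v).1)⁻¹ * f r (pt m (N r) w).1
      rw [← h]
      group
  have hH : Hyperfinite fun r => cubeSheet (N r) (f r) := by
    refine ⟨M, fun ε hε => ?_⟩
    obtain ⟨s, hs⟩ := exists_nat_gt (2 * (m : ℝ) / ε)
    have hs1 : 0 < s + 1 := Nat.succ_pos s
    refine ⟨(s + 1) ^ m, ?_⟩
    filter_upwards [hM (s + 1)] with r hr
    refine ⟨fun v => flo (s + 1) (pt m (N r) v).1, fun c => flo_class (N r) (s + 1) hs1 c, ?_, ?_⟩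
    · have h1 := cube_cut (N r) (f r) (s + 1) hs1
      have h2 : (((cubeSheet (N r) (f r)).edges (fun v w => flo (s + 1) (pt m (N r) v).1 ≠
          flo (s + 1) (pt m (N r) w).1) : ℕ) : ℝ) * ((s + 1 : ℕ) : ℝ) ≤
          2 * (m : ℝ) * (cubeSheet (N r) (f r)).n := by
        exact_mod_cast h1
      have h3 : 2 * (m : ℝ) ≤ ε * ((s + 1 : ℕ) : ℝ) := by
        rw [div_lt_iff₀ hε] at hs
        push_cast
        nlinarith
      have h4 : (0 : ℝ) < ((s + 1 : ℕ) : ℝ) := by positivity
      refine le_of_mul_le_mul_right (h2.trans ?_) h4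
      have h5 : (0 : ℝ) ≤ (cubeSheet (N r) (f r)).n := Nat.cast_nonneg _
      nlinarith
    · refine le_trans (Nat.cast_le.2 (cube_pairs (N r) (f r) (s + 1) hs1)) ?_
      rw [hn]
      exact hr
  obtain ⟨φ, lab, c, hφ, ha, hDr, hcf, hlab, hcut, ⟨M', hM'⟩, hui⟩ :=
    exists_levels (fun r => cubeSheet (N r) (f r)) h0 (S ∪ S.image (·⁻¹)) hF hH
  let lab' : ℕ → (Fin m → ℤ) → ℕ := fun r p =>
    if h : p ∈ box m (N (φ r)) then lab r ((pt m (N (φ r))).symm ⟨p, h⟩) else 0
  have hlab' : ∀ r v, lab' r (pt m (N (φ r)) v).1 = lab r v := by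
    intro r v
    show (if h : (pt m (N (φ r)) v).1 ∈ box m (N (φ r)) then _ else 0) = _
    rw [dif_pos (pt m (N (φ r)) v).2]
    congr 1
    exact (pt m (N (φ r))).symm_apply_apply v
  refine ⟨φ, lab', c, hφ, fun r => (ha r).trans (hn _), ?_, fun i => ?_⟩
  · let s : (r : ℕ) → Fin (cubeSheet (N (φ r)) (f (φ r))).n → XX G := fun r v =>
      (((cubeSheet (N (φ r)) (f (φ r))).pos v)⁻¹, lab r v)
    have hs : ∀ (r : ℕ) (u v : Fin (cubeSheet (N (φ r)) (f (φ r))).n), s r u = s r v ↔
        u ∈ (cubeSheet (N (φ r)) (f (φ r))).fib (lab r) v := by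
      intro r u v
      constructor
      · intro h
        exact ⟨inv_injective (congrArg Prod.fst h), congrArg Prod.snd h⟩
      · rintro ⟨h1, h2⟩
        exact Prod.ext (congrArg (·⁻¹) h1) h2
    have h1 : DL c fun r x => (mlt (s r) x : ℝ) := by
      refine dl_mlt c (fun r => (cubeSheet (N (φ r)) (f (φ r))).n) ha s (fun r v => ?_) M'
        (fun r => ?_) (fun ε hε => ?_)
      · refine ⟨1, Finset.mem_singleton_self 1, (v : ℕ), ?_, ?_⟩
        · rw [hDr, Finset.mem_range]
          exact v.2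
        · rw [one_mul, hcf, hlab]
      · refine le_trans ?_ (hM' r)
        unfold Sheet.pairs
        refine Nat.cast_le.2 (Finset.card_le_card fun q hq => ?_)
        simp only [Finset.mem_filter, Finset.mem_univ, true_and] at hq ⊢
        exact (hs _ _ _).1 hq
      · obtain ⟨C1, hC1⟩ := hui ε hε
        refine ⟨C1, ?_⟩
        filter_upwards [hC1] with r hr
        refine le_trans ?_ hr
        unfold Sheet.pairs
        refine Nat.cast_le.2 (Finset.card_le_card fun q hq => ?_)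
        simp only [Finset.mem_filter, Finset.mem_univ, true_and] at hq ⊢
        refine ⟨(hs _ _ _).1 hq.1, lt_of_lt_of_le hq.2 (le_of_eq ?_)⟩
        rw [mlt, ← Set.ncard_coe_finset]
        congr 1
        ext u
        simp only [Finset.coe_filter, Finset.mem_univ, true_and, Set.mem_ofPred_eq, hs]
    have h2 : (fun r (x : XX G) => (((box m (N (φ r))).filter fun p =>
        ((f (φ r) p)⁻¹, lab' r p) = x).card : ℝ)) = fun r x => (mlt (s r) x : ℝ) := by
      funext r x
      congr 1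
      unfold mlt
      symm
      refine Finset.card_bij (fun v _ => (pt m (N (φ r)) v).1) (fun v hv => ?_)
        (fun v _ w _ h => (pt m (N (φ r))).injective (Subtype.ext h)) (fun p hp => ?_)
      · rw [Finset.mem_filter] at hv ⊢
        refine ⟨(pt m (N (φ r)) v).2, ?_⟩
        rw [hlab' r v]
        exact hv.2
      · rw [Finset.mem_filter] at hp
        refine ⟨(pt m (N (φ r))).symm ⟨p, hp.1⟩, ?_, ?_⟩
        · rw [Finset.mem_filter]
          refine ⟨Finset.mem_univ _, Eq.trans ?_ hp.2⟩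
          have h3 := hlab' r ((pt m (N (φ r))).symm ⟨p, hp.1⟩)
          rw [Equiv.apply_symm_apply] at h3
          refine Prod.ext ?_ h3.symm
          show (f (φ r) (pt m (N (φ r)) ((pt m (N (φ r))).symm ⟨p, hp.1⟩)).1)⁻¹ = _
          rw [Equiv.apply_symm_apply]
        · rw [Equiv.apply_symm_apply]
    rw [h2]
    exact h1
  · refine squeeze_zero (fun r => by positivity) (fun r => ?_) hcut
    rw [hn]
    refine div_le_div_of_nonneg_right (Nat.cast_le.2 ?_) (by positivity)
    unfold Sheet.edges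
    let e : (Fin m → ℤ) → Fin (box m (N (φ r))).card := fun p =>
      if h : p ∈ box m (N (φ r)) then (pt m (N (φ r))).symm ⟨p, h⟩ else
        ⟨0, h0 (φ r)⟩
    have he : ∀ p ∈ box m (N (φ r)), (pt m (N (φ r)) (e p)).1 = p := by
      intro p hp
      show (pt m (N (φ r)) (if h : p ∈ box m (N (φ r)) then _ else _)).1 = p
      rw [dif_pos hp, Equiv.apply_symm_apply]
    refine Finset.card_le_card_of_injOn (fun p => (e p, e (p + ev i))) (fun p hp => ?_)
      (fun p hp q hq h => ?_)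
    · rw [Finset.mem_coe, Finset.mem_filter] at hp
      obtain ⟨h1, h2, h3⟩ := hp
      rw [Finset.mem_coe]
      simp only [Finset.mem_filter, Finset.mem_univ, true_and]
      refine ⟨⟨i, Or.inl ?_⟩, ?_⟩
      · show (pt m (N (φ r)) (e (p + ev i))).1 = (pt m (N (φ r)) (e p)).1 + ev i
        rw [he _ h1, he _ h2]
      · show lab r (e p) ≠ lab r (e (p + ev i))
        rw [← hlab', ← hlab', he _ h1, he _ h2]
        exact h3
    · rw [Finset.mem_coe, Finset.mem_filter] at hp hq
      have h4 : e p = e q := congrArg Prod.fst h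
      rw [← he p hp.1, ← he q hq.1, h4]

end Pool.Agent.LibHF46
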