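import Pool.Agent.LibFi47.Defs

/-!
Hyperfinite fillings: definitions.
-/

set_option autoImplicit false

namespace Pool.Agent.LibHF46

open CategoryTheory Filter Topology Pool.Agent.LibFi47

/-- The sum of the absolute values of the coefficients of an element of a free module over the
group ring. -/
noncomputable def l1F {G I : Type} (x : I →₀ MonoidAlgebra ℤ G) : ℝ :=
  ∑ i ∈ x.support, ∑ g ∈ (x i).coeff.support, |(((x i).coeff g : ℤ) : ℝ)|

/-- A sheet: finitely many cells `v`, the cell `v` being the translate of an element `d v` of a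
free module over the group ring by the group element `pos v`; a graph on the set of the cells, and
a set `W` of cells. -/
structure Sheet (G I : Type) where
  /-- the number of cells -/
  n : ℕ
  /-- the positions of the cells -/
  pos : Fin n → G
  /-- the shapes of the cells -/
  d : Fin n → (I →₀ MonoidAlgebra ℤ G)
  /-- the graph along which the cells are glued -/
  gr : SimpleGraph (Fin n)
  /-- the cells which meet the boundary -/
  W : Finset (Fin n)

variable {G I J : Type} [Group G]

/-- The chain carried by the set `Q` of cells. -/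
noncomputable def Sheet.ch (T : Sheet G I) (Q : Finset (Fin T.n)) : I →₀ MonoidAlgebra ℤ G :=
  ∑ v ∈ Q, Representation.free ℤ G I (T.pos v) (T.d v)

open Classical in
/-- The number of the pairs of adjacent cells `v`, `w` with the property `R`. -/
noncomputable def Sheet.edges (T : Sheet G I) (R : Fin T.n → Fin T.n → Prop) : ℕ :=
  (Finset.univ.filter fun q : Fin T.n × Fin T.n => T.gr.Adj q.1 q.2 ∧ R q.1 q.2).card

open Classical in
/-- The number of the pairs of cells `v`, `w` with the property `R`. -/
noncomputable def Sheet.pairs (T : Sheet G I) (R : Fin T.n → Fin T.n → Prop) : ℕ :=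
  (Finset.univ.filter fun q : Fin T.n × Fin T.n => R q.1 q.2).card

/-- The sheets `T r` are glued along their graphs in a bounded way: the cells have finitely many
shapes, adjacent cells are close to each other, and the mass of the boundary of the chain carried
by a set `Q` of cells is at most `C` times the number of the edges which leave `Q` and the cells of
`W` in `Q`. -/
def Glued (D : (I →₀ MonoidAlgebra ℤ G) → (J →₀ MonoidAlgebra ℤ G)) (T : ℕ → Sheet G I) : Prop :=
  ∃ (D₀ : Finset (I →₀ MonoidAlgebra ℤ G)) (F₀ : Finset G) (C : ℝ), ∀ r,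
    (∀ v, (T r).d v ∈ D₀) ∧ (∀ v w, (T r).gr.Adj v w → ((T r).pos v)⁻¹ * (T r).pos w ∈ F₀) ∧
    ∀ Q : Finset (Fin (T r).n), l1F (D ((T r).ch Q)) ≤
      C * (((T r).edges fun v w => v ∈ Q ∧ w ∉ Q : ℕ) + ((Q ∩ (T r).W).card : ℕ) : ℝ)

/-- The sheets form a hyperfinite family: there is `M` such that for every `ε > 0` there is `K` such
that, if `r` is large, the set of the cells of `T r` has a partition into pieces of at most `K` cells
which cuts at most `ε n` edges, where `n` is the number of cells, and such that at most `M n` pairs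
of cells of the same piece have the same position. -/
def Hyperfinite (T : ℕ → Sheet G I) : Prop :=
  ∃ M : ℝ, ∀ ε : ℝ, 0 < ε → ∃ K : ℕ, ∀ᶠ r in atTop, ∃ p : Fin (T r).n → ℕ,
    (∀ c, {v | p v = c}.ncard ≤ K) ∧
    (((T r).edges fun v w => p v ≠ p w : ℕ) : ℝ) ≤ ε * (T r).n ∧
    (((T r).pairs fun v w => p v = p w ∧ (T r).pos v = (T r).pos w : ℕ) : ℝ) ≤ M * (T r).n

/-- The fillings `T r` are optimal up to a factor, and the number of the cells which meet the
boundary is small with respect to the number of all cells. -/
def Optimal (D : (I →₀ MonoidAlgebra ℤ G) → (J →₀ MonoidAlgebra ℤ G)) (T : ℕ → Sheet G I) : Prop :=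
  (∀ r, 0 < (T r).n) ∧ Tendsto (fun r => ((T r).W.card : ℝ) / (T r).n) atTop (𝓝 0) ∧
  ∃ c : ℝ, 0 < c ∧ ∀ (r : ℕ) (y : I →₀ MonoidAlgebra ℤ G),
    D y = D ((T r).ch Finset.univ) → c * (T r).n ≤ l1F y

end Pool.Agent.LibHF46
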