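import Mathlib

/-!
Fat cubes: definition.
-/

set_option autoImplicit false

namespace Pool.Agent.LibHF46

open Filter Topology

/-- The points with integral coordinates of the cube `[0, N]ᵐ`. -/
noncomputable def cube (m N : ℕ) : Finset (Fin m → ℤ) := Fintype.piFinset fun _ => Finset.Icc (0 : ℤ) N

open Classical in
/-- Fat cubes of dimension `m`: maps `f r` of the lattice points of the cubes `[0, N r]ᵐ` to `G`,
`N r → ∞`, with finitely many steps, such that opposite faces are at distance at least `c N r` and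
such that, for each `s`, at most `M (N r)ᵐ` pairs of points with distance at most `s` have the same
image if `r` is large. -/
def FatCubes (G : Type) [Group G] (m : ℕ) : Prop :=
  ∃ (l : G → ℝ) (S : Finset G) (c M : ℝ) (N : ℕ → ℕ) (f : ℕ → (Fin m → ℤ) → G),
    (∀ g h, l (g * h) ≤ l g + l h) ∧ 0 < c ∧ Tendsto N atTop atTop ∧
    (∀ r, ∀ p ∈ cube m (N r), ∀ i, p + Pi.single i 1 ∈ cube m (N r) →
      (f r p)⁻¹ * f r (p + Pi.single i 1) ∈ S) ∧
    (∀ r, ∀ p ∈ cube m (N r), ∀ q ∈ cube m (N r), ∀ i, p i = 0 → q i = N r →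
      c * N r ≤ l ((f r p)⁻¹ * f r q)) ∧
    ∀ s : ℕ, ∀ᶠ r in atTop, (((cube m (N r) ×ˢ cube m (N r)).filter fun x =>
      (∀ j, |x.1 j - x.2 j| ≤ (s : ℤ)) ∧ f r x.1 = f r x.2).card : ℝ) ≤ M * (N r : ℝ) ^ m

end Pool.Agent.LibHF46
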