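import Pool.Agent.LibQF83.Pair

/-!
The integral lemma for cubes: the discrete Stokes theorem for a product of increments.
-/

set_option autoImplicit false

namespace Pool.Agent.LibHF46

open Pool.Agent.LibQF83

/-- the product of the increments along a lattice path. -/
noncomputable def inc {m n : ℕ} (u : Fin n → (Fin m → ℤ) → ℝ) (d : Fin n → Fin m)
    (p : Fin m → ℤ) : ℝ :=
  ∏ i : Fin n, (u i (pv d p ((i : ℕ) + 1)) - u i (pv d p (i : ℕ)))

/-- the pairing with the product of the increments. -/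
noncomputable def prg {G : Type} [Group G] {n : ℕ} (φ : G → Fin n → ℝ) :
    ((Fin n → G) →₀ (G →₀ ℤ)) →+ ℝ :=
  Finsupp.liftAddHom fun g => Finsupp.liftAddHom fun x =>
    (AddMonoidHom.mulRight (Om φ g x)).comp (Int.castAddHom ℝ)

lemma prg_single {G : Type} [Group G] {n : ℕ} (φ : G → Fin n → ℝ) (g : Fin n → G) (x : G)
    (k : ℤ) : prg φ (Finsupp.single g (Finsupp.single x k)) = (k : ℝ) * Om φ g x := by
  simp [prg]

lemma prg_dd {G : Type} [Group G] {n : ℕ} (φ : G → Fin n → ℝ)
    (y : (Fin (n + 1) → G) →₀ (G →₀ ℤ)) : prg φ (dd Lt n y) = 0 := by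
  induction y using Finsupp.induction_linear with
  | zero => rw [map_zero, map_zero]
  | add x y hx hy => rw [map_add, map_add, hx, hy, add_zero]
  | single g a =>
    induction a using Finsupp.induction_linear with
    | zero => rw [Finsupp.single_zero, map_zero, map_zero]
    | add x y hx hy => rw [Finsupp.single_add, map_add, map_add, hx, hy, add_zero]
    | single x k =>
      rw [dd_single, map_add, map_sum, Lt_single, prg_single]
      have h1 : ∀ j : Fin (n + 1), prg φ ((-1 : ℤ) ^ ((j : ℕ) + 1) •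
          Finsupp.single (Fin.contractNth j (· * ·) g) (Finsupp.single x k)) =
          (k : ℝ) * ((-1 : ℝ) ^ ((j : ℕ) + 1) * Om φ (Fin.contractNth j (· * ·) g) x) := by
        intro j
        rw [map_zsmul, prg_single, zsmul_eq_mul]
        push_cast
        ring
      simp only [h1]
      rw [← Finset.mul_sum, ← mul_add, Om_cocycle, mul_zero]

lemma prg_elt {G : Type} [Group G] {m n : ℕ} (f : (Fin m → ℤ) → G) (φ : G → Fin n → ℝ)
    (d : Fin n → Fin m) (p : Fin m → ℤ) :
    prg φ (elt f d p) = inc (fun i q => φ (f q) i) d p := by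
  rw [elt, prg_single, Int.cast_one, one_mul, Om, inc]
  refine Finset.prod_congr rfl fun i _ => ?_
  rw [partialProd_stp, partialProd_stp, Fin.val_succ, Fin.val_castSucc]

/-- the product of the increments is closed. -/
lemma inc_closed {n : ℕ} (u : Fin n → (Fin (n + 1) → ℤ) → ℝ) (p : Fin (n + 1) → ℤ) :
    ∑ π : Equiv.Perm (Fin (n + 1)), ((Equiv.Perm.sign π : ℤ) : ℝ) *
      (inc u (fun j : Fin n => π j.succ) (p + ev (π 0)) - inc u (fun j : Fin n => π j.succ) p) =
      0 := by
  let f : (Fin (n + 1) → ℤ) → Multiplicative (Fin (n + 1) → ℤ) := Multiplicative.ofAdd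
  let φ : Multiplicative (Fin (n + 1) → ℤ) → Fin n → ℝ := fun x i => u i (Multiplicative.toAdd x)
  have h1 := congrArg (prg φ) (dd_cell f p)
  rw [prg_dd, map_sum] at h1
  rw [h1]
  refine Finset.sum_congr rfl fun π _ => ?_
  rw [map_zsmul, map_sub, prg_elt, prg_elt, zsmul_eq_mul]
  rfl

/-- summation of differences over a box. -/
lemma box_tel {n r : ℕ} (i : Fin (n + 1)) (F : (Fin (n + 1) → ℤ) → ℝ) :
    ∑ p ∈ box (n + 1) r, (F (p + ev i) - F p) =
      ∑ q ∈ box n r, (F (i.insertNth ((r : ℤ) + 1) q) - F (i.insertNth 0 q)) := by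
  have h1 : ∀ K : (Fin (n + 1) → ℤ) → ℝ, ∑ p ∈ box (n + 1) r, K p =
      ∑ x ∈ Finset.Icc (0 : ℤ) r ×ˢ box n r, K (i.insertNth x.1 x.2) := by
    intro K
    refine Finset.sum_nbij' (fun p => (p i, i.removeNth p)) (fun x => i.insertNth x.1 x.2)
      ?_ ?_ ?_ ?_ ?_
    · intro p hp
      unfold box at hp ⊢
      rw [Fintype.mem_piFinset] at hp
      rw [Finset.mem_product, Fintype.mem_piFinset]
      exact ⟨hp i, fun j => hp _⟩
    · rintro ⟨t, q⟩ hx
      unfold box at hx ⊢
      rw [Finset.mem_product, Fintype.mem_piFinset] at hx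
      rw [Fintype.mem_piFinset]
      intro j
      refine Fin.succAboveCases i ?_ (fun j => ?_) j
      · rw [Fin.insertNth_apply_same]
        exact hx.1
      · rw [Fin.insertNth_apply_succAbove]
        exact hx.2 j
    · intro p _
      exact Fin.insertNth_self_removeNth i p
    · rintro ⟨t, q⟩ _
      simp
    · intro p _
      rw [Fin.insertNth_self_removeNth i p]
  rw [h1, Finset.sum_product_right]
  refine Finset.sum_congr rfl fun q _ => ?_
  have h2 := PathB_tel (fun t : ℤ => F (i.insertNth t q)) r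
  rw [← h2]
  refine Finset.sum_congr rfl fun t _ => ?_
  have h3 : (i.insertNth t q : Fin (n + 1) → ℤ) + ev i = i.insertNth (t + 1) q := by
    rw [Fin.eq_insertNth_iff]
    constructor
    · simp [ev]
    · funext j
      simp [Fin.removeNth, ev, Fin.succAbove_ne]
  rw [h3]

/-- a coordinate which is not a direction of the path is constant. -/
lemma pv_const {m n : ℕ} (d : Fin n → Fin m) (p : Fin m → ℤ) (k : ℕ) (i : Fin m)
    (h : ∀ j, d j ≠ i) : pv d p k i = p i := by
  unfold pv
  rw [Pi.add_apply, Finset.sum_apply]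
  rw [Finset.sum_eq_zero, add_zero]
  intro j _
  split_ifs
  · unfold ev
    exact Pi.single_eq_of_ne (h j).symm 1
  · rfl

/-- paths in a face. -/
lemma pv_cons {n l : ℕ} (σ : Fin l → Fin n) (t : ℤ) (q : Fin n → ℤ) (k : ℕ) :
    pv (fun j => (σ j).succ) (Fin.cons t q : Fin (n + 1) → ℤ) k =
      (Fin.cons t (pv σ q k) : Fin (n + 1) → ℤ) := by
  funext i
  unfold pv
  rw [Pi.add_apply, Finset.sum_apply]
  refine Fin.cases ?_ (fun i => ?_) i
  · rw [Fin.cons_zero, Fin.cons_zero, Finset.sum_eq_zero, add_zero]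
    intro j _
    split_ifs
    · unfold ev
      exact Pi.single_eq_of_ne (Fin.succ_ne_zero _).symm 1
    · rfl
  · rw [Fin.cons_succ, Fin.cons_succ, Pi.add_apply, Finset.sum_apply]
    congr 1
    refine Finset.sum_congr rfl fun j _ => ?_
    split_ifs
    · unfold ev
      by_cases h : i = σ j
      · subst h
        rw [Pi.single_eq_same, Pi.single_eq_same]
      · rw [Pi.single_eq_of_ne h, Pi.single_eq_of_ne]
        exact fun hh => h (Fin.succ_injective _ hh)
    · rfl

/-- FC-A: the integral lemma. -/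
theorem int_box {m : ℕ} (N : ℕ) (u : Fin m → (Fin m → ℤ) → ℝ) (A B : Fin m → ℝ)
    (hA : ∀ i p, p i = 0 → u i p = A i) (hB : ∀ i p, p i = (N : ℤ) + 1 → u i p = B i) :
    ∑ p ∈ box m N, ∑ π : Equiv.Perm (Fin m), ((Equiv.Perm.sign π : ℤ) : ℝ) *
      ∏ i : Fin m, (u i (pv (fun i => π i) p ((i : ℕ) + 1)) - u i (pv (fun i => π i) p (i : ℕ))) =
      ∏ i, (B i - A i) := by
  induction m with
  | zero => simp [box]
  | succ n ih =>
    have h1 : ∀ p ∈ box (n + 1) N, (∑ π : Equiv.Perm (Fin (n + 1)),
        ((Equiv.Perm.sign π : ℤ) : ℝ) * ∏ i : Fin (n + 1),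
          (u i (pv (fun i => π i) p ((i : ℕ) + 1)) - u i (pv (fun i => π i) p (i : ℕ)))) =
        ∑ π : Equiv.Perm (Fin (n + 1)), ((Equiv.Perm.sign π : ℤ) : ℝ) *
          (u 0 (p + ev (π 0)) *
            inc (fun i : Fin n => u i.succ) (fun j : Fin n => π j.succ) (p + ev (π 0)) -
          u 0 p * inc (fun i : Fin n => u i.succ) (fun j : Fin n => π j.succ) p) := by
      intro p _
      have h2 := congrArg (fun x : ℝ => u 0 p * x) (inc_closed (fun i : Fin n => u i.succ) p)
      simp only [mul_zero] at h2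
      rw [Finset.mul_sum] at h2
      have h3 : ∀ a b c : ℝ, c = 0 → a = b - c → a = b := by
        rintro a b c rfl h
        rw [h, sub_zero]
      refine h3 _ _ _ h2 ?_
      rw [← Finset.sum_sub_distrib]
      refine Finset.sum_congr rfl fun π _ => ?_
      have h4 : ∏ i : Fin (n + 1),
          (u i (pv (fun i => π i) p ((i : ℕ) + 1)) - u i (pv (fun i => π i) p (i : ℕ))) =
          (u 0 (p + ev (π 0)) - u 0 p) *
            inc (fun i : Fin n => u i.succ) (fun j : Fin n => π j.succ) (p + ev (π 0)) := by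
        rw [Fin.prod_univ_succ]
        congr 1
        · rw [Fin.val_zero, ← pv_tail, pv_zero, pv_zero]
        · unfold inc
          refine Finset.prod_congr rfl fun i _ => ?_
          rw [Fin.val_succ, pv_tail (fun i => π i) p, pv_tail (fun i => π i) p]
      rw [h4]
      ring
    rw [Finset.sum_congr rfl h1, Finset.sum_comm]
    have h5 : ∀ π : Equiv.Perm (Fin (n + 1)), ∑ p ∈ box (n + 1) N,
        (((Equiv.Perm.sign π : ℤ) : ℝ) * (u 0 (p + ev (π 0)) *
            inc (fun i : Fin n => u i.succ) (fun j : Fin n => π j.succ) (p + ev (π 0)) -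
          u 0 p * inc (fun i : Fin n => u i.succ) (fun j : Fin n => π j.succ) p)) =
        ((Equiv.Perm.sign π : ℤ) : ℝ) * ∑ q ∈ box n N,
          (u 0 ((π 0).insertNth ((N : ℤ) + 1) q) * inc (fun i : Fin n => u i.succ)
            (fun j : Fin n => π j.succ) ((π 0).insertNth ((N : ℤ) + 1) q) -
          u 0 ((π 0).insertNth 0 q) * inc (fun i : Fin n => u i.succ)
            (fun j : Fin n => π j.succ) ((π 0).insertNth 0 q)) := by
      intro π
      rw [← Finset.mul_sum]
      congr 1
      exact box_tel (π 0) (fun p => u 0 p *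
        inc (fun i : Fin n => u i.succ) (fun j : Fin n => π j.succ) p)
    rw [Finset.sum_congr rfl fun π _ => h5 π]
    -- faces which are not orthogonal to the first direction
    have h6 : ∀ (π : Equiv.Perm (Fin (n + 1))) (t : ℤ) (q : Fin n → ℤ), π 0 ≠ 0 →
        (t = 0 ∨ t = (N : ℤ) + 1) → inc (fun i : Fin n => u i.succ) (fun j : Fin n => π j.succ)
          ((π 0).insertNth t q) = 0 := by
      intro π t q hπ ht
      obtain ⟨k, hk⟩ := Fin.exists_succ_eq.2 hπ
      unfold inc
      refine Finset.prod_eq_zero (Finset.mem_univ k) ?_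
      have h7 : ∀ l : ℕ, pv (fun j : Fin n => π j.succ) ((π 0).insertNth t q) l k.succ = t := by
        intro l
        rw [pv_const, hk, Fin.insertNth_apply_same]
        intro j hj
        rw [hk] at hj
        exact Fin.succ_ne_zero j (π.injective hj)
      rcases ht with rfl | rfl
      · exact sub_eq_zero.2 ((hA _ _ (h7 _)).trans (hA _ _ (h7 _)).symm)
      · exact sub_eq_zero.2 ((hB _ _ (h7 _)).trans (hB _ _ (h7 _)).symm)
    rw [← Equiv.sum_comp Equiv.Perm.decomposeFin.symm, Fintype.sum_prod_type, Fin.sum_univ_succ]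
    have h8 : ∀ (i : Fin n) (e : Equiv.Perm (Fin n)), ((Equiv.Perm.sign
        (Equiv.Perm.decomposeFin.symm (i.succ, e)) : ℤ) : ℝ) * ∑ q ∈ box n N,
          (u 0 ((Equiv.Perm.decomposeFin.symm (i.succ, e) 0).insertNth ((N : ℤ) + 1) q) *
            inc (fun i : Fin n => u i.succ)
            (fun j : Fin n => Equiv.Perm.decomposeFin.symm (i.succ, e) j.succ)
            ((Equiv.Perm.decomposeFin.symm (i.succ, e) 0).insertNth ((N : ℤ) + 1) q) -
          u 0 ((Equiv.Perm.decomposeFin.symm (i.succ, e) 0).insertNth 0 q) *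
            inc (fun i : Fin n => u i.succ)
            (fun j : Fin n => Equiv.Perm.decomposeFin.symm (i.succ, e) j.succ)
            ((Equiv.Perm.decomposeFin.symm (i.succ, e) 0).insertNth 0 q)) = 0 := by
      intro i e
      have h9 : Equiv.Perm.decomposeFin.symm (i.succ, e) 0 ≠ 0 := by
        rw [Equiv.Perm.decomposeFin_symm_apply_zero]
        exact Fin.succ_ne_zero i
      rw [Finset.sum_eq_zero, mul_zero]
      intro q _
      rw [h6 _ _ q h9 (Or.inl rfl), h6 _ _ q h9 (Or.inr rfl), mul_zero, mul_zero, sub_zero]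
    have h10 : ∀ e : Equiv.Perm (Fin n), ∀ t : ℤ, ∀ q : Fin n → ℤ,
        inc (fun i : Fin n => u i.succ)
          (fun j : Fin n => Equiv.Perm.decomposeFin.symm (0, e) j.succ)
          ((Equiv.Perm.decomposeFin.symm (0, e) 0).insertNth t q) =
        ∏ i : Fin n, (u i.succ (Fin.cons t (pv (fun i => e i) q ((i : ℕ) + 1))) -
          u i.succ (Fin.cons t (pv (fun i => e i) q (i : ℕ)))) := by
      intro e t q
      have h11 : (fun j : Fin n => Equiv.Perm.decomposeFin.symm (0, e) j.succ) =
          fun j => (e j).succ := by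
        funext j
        rw [Equiv.Perm.decomposeFin_symm_apply_succ, Equiv.swap_self, Equiv.refl_apply]
      rw [h11, Equiv.Perm.decomposeFin_symm_apply_zero, Fin.insertNth_zero']
      unfold inc
      refine Finset.prod_congr rfl fun i _ => ?_
      rw [pv_cons (fun j => e j), pv_cons (fun j => e j)]
    rw [Finset.sum_eq_zero (s := (Finset.univ : Finset (Fin n)))
      (fun i _ => Finset.sum_eq_zero fun e _ => h8 i e), add_zero]
    have h13 : ∀ e : Equiv.Perm (Fin n), ((Equiv.Perm.sign
        (Equiv.Perm.decomposeFin.symm (0, e)) : ℤ) : ℝ) * ∑ q ∈ box n N,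
          (u 0 ((Equiv.Perm.decomposeFin.symm (0, e) 0).insertNth ((N : ℤ) + 1) q) *
            inc (fun i : Fin n => u i.succ)
            (fun j : Fin n => Equiv.Perm.decomposeFin.symm (0, e) j.succ)
            ((Equiv.Perm.decomposeFin.symm (0, e) 0).insertNth ((N : ℤ) + 1) q) -
          u 0 ((Equiv.Perm.decomposeFin.symm (0, e) 0).insertNth 0 q) *
            inc (fun i : Fin n => u i.succ)
            (fun j : Fin n => Equiv.Perm.decomposeFin.symm (0, e) j.succ)
            ((Equiv.Perm.decomposeFin.symm (0, e) 0).insertNth 0 q)) =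
        B 0 * ∑ q ∈ box n N, ((Equiv.Perm.sign e : ℤ) : ℝ) *
          ∏ i : Fin n, (u i.succ (Fin.cons ((N : ℤ) + 1) (pv (fun i => e i) q ((i : ℕ) + 1))) -
            u i.succ (Fin.cons ((N : ℤ) + 1) (pv (fun i => e i) q (i : ℕ)))) -
        A 0 * ∑ q ∈ box n N, ((Equiv.Perm.sign e : ℤ) : ℝ) *
          ∏ i : Fin n, (u i.succ (Fin.cons 0 (pv (fun i => e i) q ((i : ℕ) + 1))) -
            u i.succ (Fin.cons 0 (pv (fun i => e i) q (i : ℕ)))) := by
      intro e
      have h14 : Equiv.Perm.sign (Equiv.Perm.decomposeFin.symm (0, e)) = Equiv.Perm.sign e := by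
        rw [Equiv.Perm.decomposeFin.symm_sign, if_pos rfl, one_mul]
      rw [h14, Finset.mul_sum, Finset.mul_sum, Finset.mul_sum, ← Finset.sum_sub_distrib]
      refine Finset.sum_congr rfl fun q _ => ?_
      rw [h10, h10, Equiv.Perm.decomposeFin_symm_apply_zero, Fin.insertNth_zero',
        Fin.insertNth_zero', hA 0 _ (Fin.cons_zero _ _), hB 0 _ (Fin.cons_zero _ _)]
      ring
    rw [Finset.sum_congr rfl fun e _ => h13 e, Finset.sum_sub_distrib, ← Finset.mul_sum,
      ← Finset.mul_sum, Finset.sum_comm, Finset.sum_comm (s := Finset.univ)]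
    have h15 := ih (fun i q => u i.succ (Fin.cons ((N : ℤ) + 1) q)) (fun i => A i.succ)
      (fun i => B i.succ) (fun i p hp => hA _ _ (by rw [Fin.cons_succ]; exact hp))
      (fun i p hp => hB _ _ (by rw [Fin.cons_succ]; exact hp))
    have h16 := ih (fun i q => u i.succ (Fin.cons 0 q)) (fun i => A i.succ)
      (fun i => B i.succ) (fun i p hp => hA _ _ (by rw [Fin.cons_succ]; exact hp))
      (fun i p hp => hB _ _ (by rw [Fin.cons_succ]; exact hp))
    rw [Fin.prod_univ_succ, sub_mul, ← h16]
    rw [h16, ← h15]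

end Pool.Agent.LibHF46
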