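import Pool.Agent.LibQM51.Dom
import Pool.Agent.LibQF83.Pair

/-!
Pairing of the chains with values in the asymptotic module with a sequence of Lipschitz cocycles.
-/

set_option autoImplicit false

namespace Pool.Agent.LibHF46

open Filter Topology Pool.Agent.LibQM51
open Pool.Agent.LibQF83 (Om Om_cocycle QR nullR)

variable {G ι : Type} [Group G] (c : SH G ι)

/-- boundedness. -/
lemma Om_bdd {m : ℕ} (ψ : ℕ → G → Fin m → ℝ)
    (hψ : ∀ g : G, ∃ C : ℝ, ∀ (r : ℕ) (x : G) (i : Fin m), |ψ r (x * g) i - ψ r x i| ≤ C)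
    (g : Fin m → G) : ∃ C : ℝ, ∀ (r : ℕ) (x : XX G), |Om (ψ r) g x.1| ≤ C := by
  choose C hC using hψ
  refine ⟨∏ i, C (g i), fun r x => ?_⟩
  rw [Om, Finset.abs_prod]
  refine Finset.prod_le_prod (fun i _ => abs_nonneg _) fun i _ => ?_
  have h2 := hC (g i) r (x.1⁻¹ * Fin.partialProd g i.castSucc) i
  rwa [mul_assoc, ← Fin.partialProd_succ] at h2

omit [Group G] in
lemma pX_add (w : XX G → ℝ) (u v : XX G →₀ ℤ) :
    ∑ x ∈ (u + v).support, ((u + v) x : ℝ) * w x =
      ∑ x ∈ u.support, (u x : ℝ) * w x + ∑ x ∈ v.support, (v x : ℝ) * w x := by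
  have h := Finsupp.sum_add_index' (f := u) (g := v) (h := fun x (n : ℤ) => (n : ℝ) * w x)
    (fun x => by simp) (fun x m n => by push_cast; ring)
  exact h

lemma pX_Lt (w : XX G → ℝ) (g : G) (u : XX G →₀ ℤ) :
    ∑ x ∈ (Lt g u).support, ((Lt g u) x : ℝ) * w x =
      ∑ x ∈ u.support, (u x : ℝ) * w (g • x) := by
  have h := Finsupp.sum_mapDomain_index (f := (g • ·)) (s := u)
    (h := fun x (n : ℤ) => (n : ℝ) * w x) (fun x => by simp) (fun x m n => by push_cast; ring)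
  exact h

/-- the average pairing with a sequence of functions. -/
noncomputable def avgX (w : ℕ → XX G → ℝ) : ZS c →+ QR where
  toFun u := QuotientAddGroup.mk fun r =>
    (∑ x ∈ (u.1 r).support, (u.1 r x : ℝ) * w r x) / c.a r
  map_zero' := by
    have h : (fun r => (∑ x ∈ ((0 : ZS c).1 r).support, ((0 : ZS c).1 r x : ℝ) * w r x) / c.a r) =
        (0 : ℕ → ℝ) := by
      funext r
      show (∑ x ∈ (0 : XX G →₀ ℤ).support, ((0 : XX G →₀ ℤ) x : ℝ) * w r x) / c.a r = 0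
      rw [Finsupp.support_zero, Finset.sum_empty, zero_div]
    rw [h]
    rfl
  map_add' u v := by
    have h : (fun r => (∑ x ∈ ((u + v).1 r).support, ((u + v).1 r x : ℝ) * w r x) / c.a r) =
        (fun r => (∑ x ∈ (u.1 r).support, (u.1 r x : ℝ) * w r x) / c.a r) +
        (fun r => (∑ x ∈ (v.1 r).support, (v.1 r x : ℝ) * w r x) / c.a r) := by
      funext r
      show (∑ x ∈ (u.1 r + v.1 r).support, ((u.1 r + v.1 r) x : ℝ) * w r x) / c.a r =
        (∑ x ∈ (u.1 r).support, (u.1 r x : ℝ) * w r x) / c.a r +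
        (∑ x ∈ (v.1 r).support, (v.1 r x : ℝ) * w r x) / c.a r
      rw [pX_add, add_div]
    rw [h]
    rfl

omit [Group G] in
lemma pX_abs_le (w : XX G → ℝ) (C : ℝ) (hC : 0 ≤ C) (hw : ∀ x, |w x| ≤ C) (u : XX G →₀ ℤ) :
    |∑ x ∈ u.support, (u x : ℝ) * w x| ≤ C * ∑ x ∈ u.support, (u x : ℝ) ^ 2 := by
  refine (Finset.abs_sum_le_sum_abs _ _).trans ?_
  rw [Finset.mul_sum]
  refine Finset.sum_le_sum fun x _ => ?_
  rw [abs_mul, mul_comm]
  have h1 : |(u x : ℝ)| ≤ (u x : ℝ) ^ 2 := by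
    have h2 : |u x| ≤ (u x) ^ 2 := by
      rw [← sq_abs (u x)]
      have h3 : 0 ≤ |u x| := abs_nonneg _
      nlinarith [Int.le_self_sq |u x|]
    exact_mod_cast h2
  exact mul_le_mul (hw x) h1 (abs_nonneg _) hC

lemma avgX_ker (w : ℕ → XX G → ℝ) (C : ℝ) (hw : ∀ r x, |w r x| ≤ C) (u : ZS c) (hu : mk c u = 0) :
    avgX c w u = 0 := by
  have hC : 0 ≤ C := (abs_nonneg _).trans (hw 0 (1, 0))
  refine (QuotientAddGroup.eq_zero_iff _).2 ?_
  show Tendsto _ atTop (𝓝 0)
  have h1 := (tendsto_of_mk_eq_zero c u hu).const_mul C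
  rw [mul_zero] at h1
  refine squeeze_zero_norm (fun r => ?_) h1
  have ha := c.pos r
  rw [Real.norm_eq_abs, abs_div, abs_of_pos ha, ← mul_div_assoc]
  exact div_le_div_of_nonneg_right (pX_abs_le (w r) C hC (hw r) (u.1 r)) ha.le

/-- the average pairing with a bounded sequence of functions. -/
noncomputable def avgXM (w : ℕ → XX G → ℝ) (hw : ∃ C : ℝ, ∀ r x, |w r x| ≤ C) : MM c →+ QR :=
  QuotientAddGroup.lift _ (avgX c w) fun u hu =>
    avgX_ker c w hw.choose hw.choose_spec u ((QuotientAddGroup.eq_zero_iff u).2 hu)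

lemma avgXM_mk (w : ℕ → XX G → ℝ) (hw : ∃ C : ℝ, ∀ r x, |w r x| ≤ C) (u : ZS c) :
    avgXM c w hw (mk c u) = avgX c w u := rfl

/-- the functional on the chains. -/
noncomputable def LamX {m : ℕ} (ψ : ℕ → G → Fin m → ℝ)
    (hψ : ∀ g : G, ∃ C : ℝ, ∀ (r : ℕ) (x : G) (i : Fin m), |ψ r (x * g) i - ψ r x i| ≤ C) :
    ((Fin m → G) →₀ MM c) →ₗ[ℤ] QR :=
  (Finsupp.liftAddHom fun g =>
    avgXM c (fun r x => Om (ψ r) g x.1) (Om_bdd ψ hψ g)).toIntLinearMap

lemma LamX_single {m : ℕ} (ψ : ℕ → G → Fin m → ℝ)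
    (hψ : ∀ g : G, ∃ C : ℝ, ∀ (r : ℕ) (x : G) (i : Fin m), |ψ r (x * g) i - ψ r x i| ≤ C)
    (g : Fin m → G) (u : ZS c) :
    LamX c ψ hψ (Finsupp.single g (mk c u)) = avgX c (fun r x => Om (ψ r) g x.1) u :=
  Finsupp.liftAddHom_apply_single _ _ _

/-- the pairing as a function of the weight. -/
noncomputable def pairX (u : ZS c) : (ℕ → XX G → ℝ) →+ QR where
  toFun w := avgX c w u
  map_zero' := by
    have h : (fun r => (∑ x ∈ (u.1 r).support, (u.1 r x : ℝ) * (0 : ℕ → XX G → ℝ) r x) / c.a r) =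
        (0 : ℕ → ℝ) := by
      funext r
      simp
    show (QuotientAddGroup.mk _ : QR) = 0
    rw [h]
    rfl
  map_add' v w := by
    have h : (fun r => (∑ x ∈ (u.1 r).support, (u.1 r x : ℝ) * (v + w) r x) / c.a r) =
        (fun r => (∑ x ∈ (u.1 r).support, (u.1 r x : ℝ) * v r x) / c.a r) +
        (fun r => (∑ x ∈ (u.1 r).support, (u.1 r x : ℝ) * w r x) / c.a r) := by
      funext r
      show (∑ x ∈ (u.1 r).support, (u.1 r x : ℝ) * (v r x + w r x)) / c.a r =
        (∑ x ∈ (u.1 r).support, (u.1 r x : ℝ) * v r x) / c.a r +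
        (∑ x ∈ (u.1 r).support, (u.1 r x : ℝ) * w r x) / c.a r
      rw [← add_div, ← Finset.sum_add_distrib]
      simp only [mul_add]
    show (QuotientAddGroup.mk _ : QR) = QuotientAddGroup.mk _ + QuotientAddGroup.mk _
    rw [h]
    rfl

lemma pairX_apply (u : ZS c) (w : ℕ → XX G → ℝ) : pairX c u w = avgX c w u := rfl

/-- the functional vanishes on boundaries. -/
theorem LamX_d {m : ℕ} (ψ : ℕ → G → Fin m → ℝ)
    (hψ : ∀ g : G, ∃ C : ℝ, ∀ (r : ℕ) (x : G) (i : Fin m), |ψ r (x * g) i - ψ r x i| ≤ C)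
    (y : (Fin (m + 1) → G) →₀ MM c) :
    LamX c ψ hψ (groupHomology.inhomogeneousChains.d (RM c) m y) = 0 := by
  induction y using Finsupp.induction_linear with
  | zero => rw [map_zero, map_zero]
  | add x y hx hy => rw [map_add, map_add, hx, hy, add_zero]
  | single g a =>
    obtain ⟨u, rfl⟩ := mk_surj c a
    have h1 := groupHomology.inhomogeneousChains.d_single (A := RM c) m g (mk c u)
    rw [h1, map_add, map_sum]
    have h3 : ∀ j : Fin (m + 1), LamX c ψ hψ ((-1 : ℤ) ^ ((j : ℕ) + 1) •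
        (Finsupp.single (Fin.contractNth j (· * ·) g) (mk c u) : (Fin m → G) →₀ MM c)) =
        pairX c u (fun r x => (-1 : ℝ) ^ ((j : ℕ) + 1) *
          Om (ψ r) (Fin.contractNth j (· * ·) g) x.1) := by
      intro j
      rw [map_smul, LamX_single]
      have h4 : (fun (r : ℕ) (x : XX G) => (-1 : ℝ) ^ ((j : ℕ) + 1) *
            Om (ψ r) (Fin.contractNth j (· * ·) g) x.1) =
          ((-1 : ℤ) ^ ((j : ℕ) + 1)) • fun (r : ℕ) (x : XX G) =>
            Om (ψ r) (Fin.contractNth j (· * ·) g) x.1 := by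
        funext r x
        rw [Pi.smul_apply, Pi.smul_apply, zsmul_eq_mul]
        push_cast
        rfl
      rw [h4, map_zsmul]
      rfl
    have h4 : LamX c ψ hψ (Finsupp.single (fun i => g i.succ)
        ((RM c).ρ (g 0)⁻¹ (mk c u)) : (Fin m → G) →₀ MM c) =
        pairX c u (fun r x => Om (ψ r) (fun i : Fin m => g i.succ) ((g 0)⁻¹ * x.1)) := by
      have h5 : (RM c).ρ (g 0)⁻¹ (mk c u) = mk c (LtZ c (g 0)⁻¹ u) := repM_mk c _ _
      rw [h5, LamX_single]
      show (QuotientAddGroup.mk _ : QR) = QuotientAddGroup.mk _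
      congr 1
      funext r
      rw [LtZ_apply, pX_Lt]
      rfl
    have h5 : (∑ j : Fin (m + 1), LamX c ψ hψ ((-1 : ℤ) ^ ((j : ℕ) + 1) •
        (Finsupp.single (Fin.contractNth j (· * ·) g) (mk c u) : (Fin m → G) →₀ MM c))) =
        ∑ j : Fin (m + 1), pairX c u (fun r x => (-1 : ℝ) ^ ((j : ℕ) + 1) *
          Om (ψ r) (Fin.contractNth j (· * ·) g) x.1) := Finset.sum_congr rfl fun j _ => h3 j
    refine (congrArg₂ (· + ·) h4 h5).trans ?_
    rw [← map_sum, ← map_add]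
    have h6 : (fun (r : ℕ) (x : XX G) => Om (ψ r) (fun i : Fin m => g i.succ) ((g 0)⁻¹ * x.1)) +
        ∑ j : Fin (m + 1), (fun (r : ℕ) (x : XX G) => (-1 : ℝ) ^ ((j : ℕ) + 1) *
          Om (ψ r) (Fin.contractNth j (· * ·) g) x.1) = 0 := by
      funext r x
      rw [Pi.add_apply, Pi.add_apply, Finset.sum_apply, Finset.sum_apply]
      exact Om_cocycle (ψ r) g x.1
    rw [h6, map_zero]

/-- the total pairing of a chain with the cocycle. -/
noncomputable def PsiX {m : ℕ} (φ : G → Fin m → ℝ) : ((Fin m → G) →₀ (XX G →₀ ℤ)) →+ ℝ :=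
  Finsupp.liftAddHom fun g => Finsupp.liftAddHom fun x : XX G =>
    (AddMonoidHom.mulRight (Om φ g x.1)).comp (Int.castAddHom ℝ)

lemma PsiX_single {m : ℕ} (φ : G → Fin m → ℝ) (g : Fin m → G) (u : XX G →₀ ℤ) :
    PsiX φ (Finsupp.single g u) = ∑ x ∈ u.support, (u x : ℝ) * Om φ g x.1 := by
  rw [PsiX, Finsupp.liftAddHom_apply_single, Finsupp.liftAddHom_apply, Finsupp.sum]
  rfl

/-- the functional in terms of the sequence of pairings. -/
lemma LamX_mapRange {m : ℕ} (ψ : ℕ → G → Fin m → ℝ)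
    (hψ : ∀ g : G, ∃ C : ℝ, ∀ (r : ℕ) (x : G) (i : Fin m), |ψ r (x * g) i - ψ r x i| ≤ C)
    (Y : (Fin m → G) →₀ ZS c) :
    LamX c ψ hψ (Finsupp.mapRange (mk c) (map_zero (QuotientAddGroup.mk' _)) Y) =
      QuotientAddGroup.mk fun r =>
        PsiX (ψ r) (Finsupp.mapRange (fun u : ZS c => u.1 r) rfl Y) / c.a r := by
  induction Y using Finsupp.induction_linear with
  | zero =>
    rw [Finsupp.mapRange_zero, map_zero]
    symm
    have h1 : (fun r => PsiX (ψ r) (Finsupp.mapRange (fun u : ZS c => u.1 r) rfl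
        (0 : (Fin m → G) →₀ ZS c)) / c.a r) = (0 : ℕ → ℝ) := by
      funext r
      rw [Finsupp.mapRange_zero, map_zero, zero_div]
      rfl
    rw [h1]
    rfl
  | add Y Y' hY hY' =>
    have h1 : Finsupp.mapRange (mk c) (map_zero (QuotientAddGroup.mk' _)) (Y + Y') =
        Finsupp.mapRange (mk c) (map_zero (QuotientAddGroup.mk' _)) Y +
        Finsupp.mapRange (mk c) (map_zero (QuotientAddGroup.mk' _)) Y' :=
      Finsupp.mapRange_add (fun _ _ => rfl) _ _
    rw [h1, map_add, hY, hY', ← QuotientAddGroup.mk_add]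
    congr 1
    funext r
    have h2 : Finsupp.mapRange (fun u : ZS c => u.1 r) rfl (Y + Y') =
        Finsupp.mapRange (fun u : ZS c => u.1 r) rfl Y +
        Finsupp.mapRange (fun u : ZS c => u.1 r) rfl Y' :=
      Finsupp.mapRange_add (fun _ _ => rfl) _ _
    rw [h2, map_add, add_div]
    rfl
  | single g u =>
    rw [Finsupp.mapRange_single, LamX_single]
    show (QuotientAddGroup.mk _ : QR) = QuotientAddGroup.mk _
    congr 1
    funext r
    rw [Finsupp.mapRange_single, PsiX_single]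

end Pool.Agent.LibHF46
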