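import Pool.Agent.LibHF46.Small
import Pool.Agent.LibQM51.Coh
import Pool.Agent.LibQF83.Cyc

/-!
The chains of the cubes.
-/

set_option autoImplicit false

namespace Pool.Agent.LibHF46

open Filter Topology Pool.Agent.LibQM51
open Pool.Agent.LibQF83 (box ev pv stp dd dd_single pv_step card_box sum_box_sub elt dd_cell)

variable {G : Type} [Group G]

/-- a point of a copy. -/
def ptX {G : Type} (g : G) (j : ℕ) : XX G := (g, j)

/-- the chain of a lattice path, in the copy `j`. -/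
noncomputable def eltX {m n : ℕ} (f : (Fin m → ℤ) → G) (d : Fin n → Fin m) (p : Fin m → ℤ) (j : ℕ) :
    (Fin n → G) →₀ (XX G →₀ ℤ) :=
  Finsupp.single (stp f d p) (Finsupp.single (ptX (f p)⁻¹ j) 1)

/-- the chain of the cells of the box, the cell `p` in the copy `lab p`. -/
noncomputable def zX {m : ℕ} (f : (Fin m → ℤ) → G) (lab : (Fin m → ℤ) → ℕ) (N : ℕ) :
    (Fin m → G) →₀ (XX G →₀ ℤ) :=
  ∑ p ∈ box m N, ∑ π : Equiv.Perm (Fin m), (Equiv.Perm.sign π : ℤ) • eltX f (fun i => π i) p (lab p)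

lemma abs_sign {m : ℕ} (π : Equiv.Perm (Fin m)) : |((Equiv.Perm.sign π : ℤ) : ℝ)| = 1 := by
  rcases Int.units_eq_one_or (Equiv.Perm.sign π) with h | h <;> rw [h] <;> simp

lemma zX_apply {m : ℕ} (f : (Fin m → ℤ) → G) (lab : (Fin m → ℤ) → ℕ) (N : ℕ) (g : Fin m → G)
    (x : XX G) : ((zX f lab N g x : ℤ) : ℝ) = ∑ p ∈ box m N, ∑ π : Equiv.Perm (Fin m),
      ((Equiv.Perm.sign π : ℤ) : ℝ) * ((eltX f (fun i => π i) p (lab p) g x : ℤ) : ℝ) := by
  rw [zX, Finsupp.finsetSum_apply, Finsupp.finsetSum_apply, Int.cast_sum]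
  refine Finset.sum_congr rfl fun p _ => ?_
  rw [Finsupp.finsetSum_apply, Finsupp.finsetSum_apply, Int.cast_sum]
  refine Finset.sum_congr rfl fun π _ => ?_
  rw [Finsupp.smul_apply, Finsupp.smul_apply, smul_eq_mul, Int.cast_mul]

open Classical in
lemma abs_eltX {m n : ℕ} (f : (Fin m → ℤ) → G) (d : Fin n → Fin m) (p : Fin m → ℤ) (j : ℕ)
    (g : Fin n → G) (x : XX G) : |((eltX f d p j g x : ℤ) : ℝ)| ≤
      if ptX (f p)⁻¹ j = x then 1 else 0 := by
  rw [eltX, Finsupp.single_apply]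
  split_ifs with h1 h2 h2
  · rw [Finsupp.single_apply, if_pos h2]; simp
  · rw [Finsupp.single_apply, if_neg h2]; simp
  · simp
  · simp

open Classical in
lemma abs_zX {m : ℕ} (f : (Fin m → ℤ) → G) (lab : (Fin m → ℤ) → ℕ) (N : ℕ) (g : Fin m → G)
    (x : XX G) : |((zX f lab N g x : ℤ) : ℝ)| ≤ (m.factorial : ℝ) *
      (((box m N).filter fun p => ptX (f p)⁻¹ (lab p) = x).card : ℝ) := by
  rw [zX_apply]
  refine (Finset.abs_sum_le_sum_abs _ _).trans ?_
  rw [Finset.card_filter, Nat.cast_sum, Finset.mul_sum]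
  refine Finset.sum_le_sum fun p _ => ?_
  refine (Finset.abs_sum_le_sum_abs _ _).trans ?_
  refine (Finset.sum_le_card_nsmul Finset.univ _
    (if ptX (f p)⁻¹ (lab p) = x then (1 : ℝ) else 0) fun π _ => ?_).trans (le_of_eq ?_)
  · rw [abs_mul, abs_sign, one_mul]
    exact abs_eltX f _ p (lab p) g x
  · rw [Finset.card_univ, Fintype.card_perm, Fintype.card_fin, nsmul_eq_mul]
    congr 1
    rw [Nat.cast_ite, Nat.cast_one, Nat.cast_zero]

/-- assembling a sequence of chains. -/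
lemma exists_asmX {ι : Type} (c : SH G ι) {n : ℕ} (y : ℕ → ((Fin n → G) →₀ (XX G →₀ ℤ)))
    (T : Finset (Fin n → G)) (hT : ∀ r, (y r).support ⊆ T)
    (hy : ∀ g, (fun r => y r g) ∈ ZS c) :
    ∃ Y : (Fin n → G) →₀ ZS c, ∀ g r, (Y g).1 r = y r g := by
  classical
  refine ⟨Finsupp.onFinset T (fun g => ⟨fun r => y r g, hy g⟩) fun g hg => ?_, fun g r => rfl⟩
  by_contra hcon
  refine hg (Subtype.ext (funext fun r => ?_))
  show y r g = 0
  rw [← Finsupp.notMem_support_iff]
  exact fun hh => hcon (hT r hh)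

open Classical in
/-- the sequence of the chains of the cubes. -/
theorem exists_ZX {ι : Type} (c : SH G ι) {m : ℕ} (N : ℕ → ℕ) (f : ℕ → (Fin m → ℤ) → G)
    (S : Finset G) (hf : ∀ r p i, (f r p)⁻¹ * f r (p + ev i) ∈ S) (lab : ℕ → (Fin m → ℤ) → ℕ)
    (hd : DL c fun r (x : XX G) =>
      (((box m (N r)).filter fun p => ((f r p)⁻¹, lab r p) = x).card : ℝ)) :
    ∃ Z : (Fin m → G) →₀ ZS c, ∀ g r, (Z g).1 r = zX (f r) (lab r) (N r) g := by
  refine exists_asmX c (fun r => zX (f r) (lab r) (N r)) (Fintype.piFinset fun _ => S)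
    (fun r g hg => ?_) fun g => ?_
  · rw [Fintype.mem_piFinset]
    intro i
    by_contra hcon
    rw [Finsupp.mem_support_iff] at hg
    refine hg (Finsupp.ext fun x => ?_)
    have h1 := zX_apply (f r) (lab r) (N r) g x
    rw [Finset.sum_eq_zero fun p _ => Finset.sum_eq_zero fun π _ => ?_] at h1
    · exact_mod_cast h1
    · rw [eltX, Finsupp.single_apply, if_neg]
      · simp
      · rintro rfl
        apply hcon
        rw [stp, pv_step]
        exact hf r _ _
  · have h1 : DL c fun r (x : XX G) => ((zX (f r) (lab r) (N r) g x : ℤ) : ℝ) := by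
      refine hd.of_le (m.factorial : ℝ) fun r x => ?_
      rw [Real.norm_eq_abs, Real.norm_of_nonneg (Nat.cast_nonneg _)]
      refine (abs_zX (f r) (lab r) (N r) g x).trans (le_of_eq ?_)
      congr 2
      exact congrArg Finset.card (Finset.filter_congr fun p _ => Iff.rfl)
    obtain ⟨u, hu⟩ := exists_ZS h1 fun r x => ⟨_, rfl⟩
    have h2 : (fun r => zX (f r) (lab r) (N r) g) = u.1 := by
      funext r
      refine Finsupp.ext fun x => ?_
      exact_mod_cast (hu r x).symm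
    rw [h2]
    exact u.2

/-! ### the differentials -/

/-- comparison of the differentials. -/
lemma dd_LtZX {ι : Type} (c : SH G ι) {n : ℕ} (Y : (Fin (n + 1) → G) →₀ ZS c)
    (g : Fin n → G) (r : ℕ) :
    (dd (LtZ c) n Y g).1 r = dd Lt n (Finsupp.mapRange (fun u : ZS c => u.1 r) rfl Y) g := by
  classical
  induction Y using Finsupp.induction_linear with
  | zero =>
    rw [map_zero, Finsupp.mapRange_zero, map_zero]
    rfl
  | add x y hx hy =>
    rw [map_add, Finsupp.mapRange_add (by intro a b; rfl), map_add, Finsupp.add_apply,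
      Finsupp.add_apply, ← hx, ← hy]
    rfl
  | single g' a =>
    rw [Finsupp.mapRange_single, dd_single, dd_single, Finsupp.add_apply, Finsupp.add_apply,
      Finsupp.finsetSum_apply, Finsupp.finsetSum_apply]
    have e1 : ∀ (x y : ZS c), (x + y).1 r = x.1 r + y.1 r := fun _ _ => rfl
    have e2 : ∀ (F : Fin (n + 1) → ZS c), (∑ j, F j).1 r = ∑ j, (F j).1 r := by
      intro F
      exact map_sum ((Pi.evalAddMonoidHom (fun _ : ℕ => XX G →₀ ℤ) r).comp (ZS c).subtype) F _
    have e3 : ∀ (g1 g2 : Fin n → G) (b : ZS c), ((Finsupp.single g1 b : (Fin n → G) →₀ ZS c)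
        g2).1 r = (Finsupp.single g1 (b.1 r) : (Fin n → G) →₀ (XX G →₀ ℤ)) g2 := by
      intro g1 g2 b
      rw [Finsupp.single_apply, Finsupp.single_apply]
      split_ifs
      · rfl
      · rfl
    rw [e1, e2, e3, LtZ_apply]
    congr 1
    refine Finset.sum_congr rfl fun j _ => ?_
    rw [Finsupp.smul_apply, Finsupp.smul_apply, ← e3]
    rfl

/-- comparison with the differential of the standard complex. -/
lemma d_mapX {ι : Type} (c : SH G ι) {n : ℕ} (Y : (Fin (n + 1) → G) →₀ ZS c) :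
    groupHomology.inhomogeneousChains.d (RM c) n
      (Finsupp.mapRange (mk c) (map_zero (QuotientAddGroup.mk' _)) Y : (Fin (n + 1) → G) →₀ MM c) =
    (Finsupp.mapRange (mk c) (map_zero (QuotientAddGroup.mk' _)) (dd (LtZ c) n Y) :
      (Fin n → G) →₀ MM c) := by
  classical
  let P : ∀ k : ℕ, ((Fin k → G) →₀ ZS c) →+ ((Fin k → G) →₀ MM c) := fun k =>
    Finsupp.mapRange.addMonoidHom (QuotientAddGroup.mk' (toV c).ker)
  have hP : ∀ (k : ℕ) (g : Fin k → G) (a : ZS c), P k (Finsupp.single g a) =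
      Finsupp.single g (mk c a) := by
    intro k g a
    exact Finsupp.mapRange_single (hf := map_zero (QuotientAddGroup.mk' (toV c).ker))
  suffices hs : ∀ Y : (Fin (n + 1) → G) →₀ ZS c,
      groupHomology.inhomogeneousChains.d (RM c) n (P (n + 1) Y) = P n (dd (LtZ c) n Y) from hs Y
  intro Y
  induction Y using Finsupp.induction_linear with
  | zero =>
    have h1 : P (n + 1) 0 = 0 := map_zero _
    have h2 : P n (dd (LtZ c) n 0) = 0 := by
      rw [map_zero (dd (LtZ c) n)]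
      exact map_zero _
    rw [h1, h2]
    exact map_zero (groupHomology.inhomogeneousChains.d (RM c) n).hom
  | add x y hx hy =>
    have h1 : P (n + 1) (x + y) = P (n + 1) x + P (n + 1) y := map_add _ _ _
    have h2 : P n (dd (LtZ c) n (x + y)) = P n (dd (LtZ c) n x) + P n (dd (LtZ c) n y) := by
      rw [map_add (dd (LtZ c) n) x y]
      exact map_add _ _ _
    rw [h1, h2, ← hx, ← hy]
    exact map_add _ _ _
  | single g' a =>
    rw [hP, dd_single, map_add, map_sum, hP]
    refine (groupHomology.inhomogeneousChains.d_single (A := RM c) n g' (mk c a)).trans ?_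
    congr 1
    refine Finset.sum_congr rfl fun j _ => ?_
    rw [map_zsmul, hP]

/-- the inclusion of the copy `j`. -/
noncomputable def cpy (G : Type) (j : ℕ) : (G →₀ ℤ) →+ (XX G →₀ ℤ) :=
  Finsupp.mapDomain.addMonoidHom (fun x => ptX x j)

omit [Group G] in
lemma cpy_single (j : ℕ) (x : G) (a : ℤ) :
    cpy G j (Finsupp.single x a) = Finsupp.single (ptX x j) a := by
  simp [cpy]

lemma cpy_Lt (j : ℕ) (g : G) (u : G →₀ ℤ) : cpy G j (LibQF83.Lt g u) = Lt g (cpy G j u) := by
  induction u using Finsupp.induction_linear with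
  | zero => rw [map_zero, map_zero, map_zero]
  | add x y hx hy => rw [map_add, map_add, map_add, map_add, hx, hy]
  | single x a =>
    rw [LibQF83.Lt_single, cpy_single, cpy_single, Lt_single]
    rfl

/-- the inclusion of the copy `j`, on chains. -/
noncomputable def cpyR (G : Type) (n j : ℕ) :
    ((Fin n → G) →₀ (G →₀ ℤ)) →+ ((Fin n → G) →₀ (XX G →₀ ℤ)) :=
  Finsupp.mapRange.addMonoidHom (cpy G j)

omit [Group G] in
lemma cpyR_single (n j : ℕ) (g : Fin n → G) (u : G →₀ ℤ) :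
    cpyR G n j (Finsupp.single g u) = Finsupp.single g (cpy G j u) := by
  simp [cpyR]

lemma dd_cpyR (n j : ℕ) (y : (Fin (n + 1) → G) →₀ (G →₀ ℤ)) :
    dd Lt n (cpyR G (n + 1) j y) = cpyR G n j (dd LibQF83.Lt n y) := by
  induction y using Finsupp.induction_linear with
  | zero => rw [map_zero, map_zero, map_zero, map_zero]
  | add x y hx hy => rw [map_add, map_add, map_add, map_add, hx, hy]
  | single g a =>
    rw [cpyR_single, dd_single, dd_single, map_add, map_sum, cpyR_single, cpy_Lt]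
    congr 1
    refine Finset.sum_congr rfl fun i _ => ?_
    rw [map_zsmul, cpyR_single]

lemma eltX_eq {m n : ℕ} (f : (Fin m → ℤ) → G) (d : Fin n → Fin m) (p : Fin m → ℤ) (j : ℕ) :
    eltX f d p j = cpyR G n j (elt f d p) := by
  rw [elt, cpyR_single, cpy_single]
  rfl

/-- the boundary of the chain of the cells. -/
lemma dd_zX {n : ℕ} (f : (Fin (n + 1) → ℤ) → G) (lab : (Fin (n + 1) → ℤ) → ℕ) (N : ℕ) :
    dd Lt n (zX f lab N) = ∑ π : Equiv.Perm (Fin (n + 1)), (Equiv.Perm.sign π : ℤ) •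
      ∑ p ∈ box (n + 1) N, (eltX f (fun j : Fin n => π j.succ) (p + ev (π 0)) (lab p) -
        eltX f (fun j : Fin n => π j.succ) p (lab p)) := by
  rw [zX, map_sum]
  have h1 : ∀ p ∈ box (n + 1) N, dd Lt n (∑ π : Equiv.Perm (Fin (n + 1)),
      (Equiv.Perm.sign π : ℤ) • eltX f (fun i => π i) p (lab p)) =
      ∑ π : Equiv.Perm (Fin (n + 1)), (Equiv.Perm.sign π : ℤ) •
        (eltX f (fun j : Fin n => π j.succ) (p + ev (π 0)) (lab p) -
          eltX f (fun j : Fin n => π j.succ) p (lab p)) := by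
    intro p _
    have h2 : ∑ π : Equiv.Perm (Fin (n + 1)), (Equiv.Perm.sign π : ℤ) •
        eltX f (fun i => π i) p (lab p) = cpyR G (n + 1) (lab p)
          (∑ π : Equiv.Perm (Fin (n + 1)), (Equiv.Perm.sign π : ℤ) • elt f (fun i => π i) p) := by
      rw [map_sum]
      refine Finset.sum_congr rfl fun π _ => ?_
      rw [map_zsmul, eltX_eq]
    rw [h2, dd_cpyR, dd_cell, map_sum]
    refine Finset.sum_congr rfl fun π _ => ?_
    rw [map_zsmul, map_sub, eltX_eq, eltX_eq]
  rw [Finset.sum_congr rfl h1, Finset.sum_comm]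
  refine Finset.sum_congr rfl fun π _ => ?_
  rw [Finset.smul_sum]

/-! ### the sum of the absolute values -/

omit [Group G] in
lemma sum1 (u : XX G →₀ ℤ) : Summable fun x => |((u x : ℤ) : ℝ)| := by
  refine summable_of_ne_finset_zero (s := u.support) fun x hx => ?_
  rw [Finsupp.notMem_support_iff] at hx
  rw [hx]
  simp

/-- the sum of the absolute values. -/
noncomputable def n1 {G : Type} (u : XX G →₀ ℤ) : ℝ := ∑' x, |((u x : ℤ) : ℝ)|

omit [Group G] in
lemma n1_nonneg (u : XX G →₀ ℤ) : 0 ≤ n1 u := tsum_nonneg fun _ => abs_nonneg _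

omit [Group G] in
lemma n1_zero : n1 (0 : XX G →₀ ℤ) = 0 := by
  simp [n1]

omit [Group G] in
lemma n1_add (u v : XX G →₀ ℤ) : n1 (u + v) ≤ n1 u + n1 v := by
  unfold n1
  rw [← (sum1 u).tsum_add (sum1 v)]
  refine (sum1 _).tsum_le_tsum (fun x => ?_) ((sum1 u).add (sum1 v))
  rw [Finsupp.add_apply]
  push_cast
  exact abs_add_le _ _

omit [Group G] in
lemma n1_neg (u : XX G →₀ ℤ) : n1 (-u) = n1 u := by
  unfold n1
  refine tsum_congr fun x => ?_
  rw [Finsupp.neg_apply]
  push_cast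
  exact abs_neg _

omit [Group G] in
lemma n1_sub (u v : XX G →₀ ℤ) : n1 (u - v) ≤ n1 u + n1 v := by
  rw [sub_eq_add_neg, ← n1_neg v]
  exact n1_add _ _

omit [Group G] in
lemma n1_sum {α : Type} (s : Finset α) (u : α → (XX G →₀ ℤ)) :
    n1 (∑ a ∈ s, u a) ≤ ∑ a ∈ s, n1 (u a) := by
  classical
  induction s using Finset.induction_on with
  | empty => rw [Finset.sum_empty, Finset.sum_empty, n1_zero]
  | insert a s ha ih =>
    rw [Finset.sum_insert ha, Finset.sum_insert ha]
    exact (n1_add _ _).trans (by linarith)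

lemma n1_eltX {m n : ℕ} (f : (Fin m → ℤ) → G) (d : Fin n → Fin m) (p : Fin m → ℤ) (j : ℕ)
    (g : Fin n → G) : n1 (eltX f d p j g) ≤ 1 := by
  classical
  unfold n1
  refine ((sum1 _).tsum_le_tsum (fun x => abs_eltX f d p j g x)
    (summable_of_ne_finset_zero (s := {ptX (f p)⁻¹ j}) fun x hx => ?_)).trans
    (le_of_eq ?_)
  · rw [Finset.mem_singleton] at hx
    rw [if_neg (Ne.symm hx)]
  · rw [tsum_eq_single (ptX (f p)⁻¹ j) fun x hx => if_neg (Ne.symm hx), if_pos rfl]

omit [Group G] in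
lemma n1_smul_sign {m : ℕ} (π : Equiv.Perm (Fin m)) (u : XX G →₀ ℤ) :
    n1 ((Equiv.Perm.sign π : ℤ) • u) = n1 u := by
  rcases Int.units_eq_one_or (Equiv.Perm.sign π) with h | h
  · rw [h]; simp
  · rw [h]
    simp only [Units.val_neg, Units.val_one, neg_smul, one_smul]
    exact n1_neg u

/-! ### counting -/

open Classical in
lemma card_face {n N : ℕ} (i : Fin (n + 1)) :
    ((box (n + 1) N).filter fun p => p + ev i ∉ box (n + 1) N).card ≤ (N + 1) ^ n := by
  obtain ⟨U, L, hU, hL, h⟩ := sum_box_sub (r := N) i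
  have h1 := h (A := ℤ) (fun p => if p ∈ box (n + 1) N then (1 : ℤ) else 0)
  have h2 : ∑ p ∈ box (n + 1) N, ((if p + ev i ∈ box (n + 1) N then (1 : ℤ) else 0) -
      (if p ∈ box (n + 1) N then (1 : ℤ) else 0)) =
      -(((box (n + 1) N).filter fun p => p + ev i ∉ box (n + 1) N).card : ℤ) := by
    rw [Finset.card_filter, Nat.cast_sum, ← Finset.sum_neg_distrib]
    refine Finset.sum_congr rfl fun p hp => ?_
    rw [if_pos hp]
    by_cases h3 : p + ev i ∈ box (n + 1) N
    · rw [if_pos h3, if_neg (not_not.2 h3)]; simp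
    · rw [if_neg h3, if_pos h3]; simp
  rw [h2] at h1
  have h3 : (0 : ℤ) ≤ ∑ p ∈ U, (if p ∈ box (n + 1) N then (1 : ℤ) else 0) :=
    Finset.sum_nonneg fun p _ => by split_ifs <;> norm_num
  have h4 : ∑ p ∈ L, (if p ∈ box (n + 1) N then (1 : ℤ) else 0) ≤ (L.card : ℤ) := by
    refine (Finset.sum_le_card_nsmul L _ 1 fun p _ => by split_ifs <;> norm_num).trans (le_of_eq ?_)
    simp
  have h5 : ((L.card : ℕ) : ℤ) ≤ (((N + 1) ^ n : ℕ) : ℤ) := by exact_mod_cast hL
  have h6 : ((((box (n + 1) N).filter fun p => p + ev i ∉ box (n + 1) N).card : ℕ) : ℤ) ≤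
      (((N + 1) ^ n : ℕ) : ℤ) := by linarith
  exact_mod_cast h6

open Classical in
/-- the estimate for one permutation. -/
lemma n1_face {n N : ℕ} (f : (Fin (n + 1) → ℤ) → G) (lab : (Fin (n + 1) → ℤ) → ℕ)
    (i : Fin (n + 1)) (d : Fin n → Fin (n + 1)) (g : Fin n → G) :
    n1 ((∑ p ∈ box (n + 1) N, (eltX f d (p + ev i) (lab p) - eltX f d p (lab p))) g) ≤
      4 * ((N : ℝ) + 1) ^ n + 2 * (((box (n + 1) N).filter fun p =>
        p + ev i ∈ box (n + 1) N ∧ lab p ≠ lab (p + ev i)).card : ℝ) := by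
  obtain ⟨U, L, hU, hL, h⟩ := sum_box_sub (r := N) i
  have h1 := h (A := (Fin n → G) →₀ (XX G →₀ ℤ)) (fun p => eltX f d p (lab p))
  have h2 : ∑ p ∈ box (n + 1) N, (eltX f d (p + ev i) (lab p) - eltX f d p (lab p)) =
      (∑ p ∈ U, eltX f d p (lab p) - ∑ p ∈ L, eltX f d p (lab p)) +
      ∑ p ∈ box (n + 1) N, (eltX f d (p + ev i) (lab p) -
        eltX f d (p + ev i) (lab (p + ev i))) := by
    rw [← h1, ← Finset.sum_add_distrib]
    refine Finset.sum_congr rfl fun p _ => ?_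
    abel
  set B1 := (box (n + 1) N).filter fun p => p + ev i ∈ box (n + 1) N ∧ lab p ≠ lab (p + ev i)
    with hB1
  set B2 := (box (n + 1) N).filter fun p => p + ev i ∉ box (n + 1) N with hB2
  have h3 : ∀ s : Finset (Fin (n + 1) → ℤ), n1 ((∑ p ∈ s, eltX f d p (lab p)) g) ≤ s.card := by
    intro s
    rw [Finsupp.finsetSum_apply]
    refine (n1_sum _ _).trans ?_
    refine (Finset.sum_le_card_nsmul s _ 1 fun p _ => n1_eltX f d p (lab p) g).trans (le_of_eq ?_)
    simp
  have h4 : n1 ((∑ p ∈ box (n + 1) N, (eltX f d (p + ev i) (lab p) -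
        eltX f d (p + ev i) (lab (p + ev i)))) g) ≤ 2 * (B1.card : ℝ) + 2 * (B2.card : ℝ) := by
    rw [Finsupp.finsetSum_apply]
    refine (n1_sum _ _).trans ?_
    have h5 : ∀ p ∈ box (n + 1) N, n1 ((eltX f d (p + ev i) (lab p) -
        eltX f d (p + ev i) (lab (p + ev i))) g) ≤
        (if p + ev i ∈ box (n + 1) N ∧ lab p ≠ lab (p + ev i) then 2 else 0) +
          (if p + ev i ∉ box (n + 1) N then 2 else 0) := by
      intro p _
      have h6 : n1 ((eltX f d (p + ev i) (lab p) -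
        eltX f d (p + ev i) (lab (p + ev i))) g) ≤ 2 := by
        rw [Finsupp.sub_apply]
        refine (n1_sub _ _).trans ?_
        have := n1_eltX f d (p + ev i) (lab p) g
        have := n1_eltX f d (p + ev i) (lab (p + ev i)) g
        linarith
      by_cases h7 : lab p = lab (p + ev i)
      · rw [← h7, sub_self, Finsupp.zero_apply, n1_zero]
        split_ifs <;> norm_num
      · by_cases h8 : p + ev i ∈ box (n + 1) N
        · rw [if_pos ⟨h8, h7⟩, if_neg (not_not.2 h8), add_zero]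
          exact h6
        · rw [if_neg (fun hh => h8 hh.1), if_pos h8, zero_add]
          exact h6
    refine (Finset.sum_le_sum h5).trans (le_of_eq ?_)
    rw [Finset.sum_add_distrib, ← Finset.sum_filter, ← Finset.sum_filter, Finset.sum_const,
      Finset.sum_const, nsmul_eq_mul, nsmul_eq_mul, mul_comm, mul_comm (B2.card : ℝ)]
  have h5 : (U.card : ℝ) ≤ ((N : ℝ) + 1) ^ n := by exact_mod_cast hU
  have h6 : (L.card : ℝ) ≤ ((N : ℝ) + 1) ^ n := by exact_mod_cast hL
  have h7 : (B2.card : ℝ) ≤ ((N : ℝ) + 1) ^ n := by exact_mod_cast card_face (N := N) i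
  rw [h2, Finsupp.add_apply, Finsupp.sub_apply]
  have h8 := n1_add ((∑ p ∈ U, eltX f d p (lab p)) g - (∑ p ∈ L, eltX f d p (lab p)) g)
    ((∑ p ∈ box (n + 1) N, (eltX f d (p + ev i) (lab p) -
        eltX f d (p + ev i) (lab (p + ev i)))) g)
  have h9 := n1_sub ((∑ p ∈ U, eltX f d p (lab p)) g) ((∑ p ∈ L, eltX f d p (lab p)) g)
  have h10 := h3 U
  have h11 := h3 L
  linarith

open Classical in
/-- the boundary is a null sequence. -/
theorem bd_nullX {ι : Type} (c : SH G ι) {n : ℕ} (N : ℕ → ℕ) (hN : Tendsto N atTop atTop)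
    (f : ℕ → (Fin (n + 1) → ℤ) → G) (lab : ℕ → (Fin (n + 1) → ℤ) → ℕ)
    (ha : ∀ r, c.a r = ((N r : ℝ) + 1) ^ (n + 1))
    (hcut : ∀ i, Tendsto (fun r => (((box (n + 1) (N r)).filter fun p =>
        p + ev i ∈ box (n + 1) (N r) ∧ lab r p ≠ lab r (p + ev i)).card : ℝ) /
          ((N r : ℝ) + 1) ^ (n + 1)) atTop (𝓝 0))
    (Z : (Fin (n + 1) → G) →₀ ZS c) (hZ : ∀ g r, (Z g).1 r = zX (f r) (lab r) (N r) g) :
    groupHomology.inhomogeneousChains.d (RM c) n
      (Finsupp.mapRange (mk c) (map_zero (QuotientAddGroup.mk' _)) Z) = 0 := by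
  rw [d_mapX]
  refine Finsupp.ext fun g => ?_
  rw [Finsupp.mapRange_apply]
  show mk c (dd (LtZ c) n Z g) = 0
  rw [mk_eq_zero_iff_dn]
  have hmr : ∀ r, Finsupp.mapRange (fun u : ZS c => u.1 r) rfl Z = zX (f r) (lab r) (N r) := by
    intro r
    refine Finsupp.ext fun g' => ?_
    rw [Finsupp.mapRange_apply]
    exact hZ g' r
  refine dn_of_l1 c _ (dl_int _) (fun r => sum1 _) ?_
  have hb : ∀ r, n1 ((dd (LtZ c) n Z g).1 r) ≤ ∑ π : Equiv.Perm (Fin (n + 1)),
      (4 * ((N r : ℝ) + 1) ^ n + 2 * (((box (n + 1) (N r)).filter fun p =>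
        p + ev (π 0) ∈ box (n + 1) (N r) ∧ lab r p ≠ lab r (p + ev (π 0))).card : ℝ)) := by
    intro r
    rw [dd_LtZX, hmr, dd_zX, Finsupp.finsetSum_apply]
    refine (n1_sum _ _).trans (Finset.sum_le_sum fun π _ => ?_)
    rw [Finsupp.smul_apply, n1_smul_sign]
    exact n1_face (f r) (lab r) (π 0) _ g
  have hlim : Tendsto (fun r => ∑ π : Equiv.Perm (Fin (n + 1)),
      (4 * (1 / ((N r : ℝ) + 1)) + 2 * ((((box (n + 1) (N r)).filter fun p =>
        p + ev (π 0) ∈ box (n + 1) (N r) ∧ lab r p ≠ lab r (p + ev (π 0))).card : ℝ) /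
          ((N r : ℝ) + 1) ^ (n + 1)))) atTop (𝓝 0) := by
    have h1 : Tendsto (fun r => 1 / ((N r : ℝ) + 1)) atTop (𝓝 0) :=
      (tendsto_one_div_add_atTop_nhds_zero_nat (𝕜 := ℝ)).comp hN
    have h2 : ∀ π : Equiv.Perm (Fin (n + 1)), Tendsto (fun r =>
        (4 * (1 / ((N r : ℝ) + 1)) + 2 * ((((box (n + 1) (N r)).filter fun p =>
        p + ev (π 0) ∈ box (n + 1) (N r) ∧ lab r p ≠ lab r (p + ev (π 0))).card : ℝ) /
          ((N r : ℝ) + 1) ^ (n + 1)))) atTop (𝓝 0) := by
      intro π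
      have h3 := (h1.const_mul 4).add ((hcut (π 0)).const_mul 2)
      rw [mul_zero, mul_zero, add_zero] at h3
      exact h3
    have h3 := tendsto_finsetSum Finset.univ fun π _ => h2 π
    rw [Finset.sum_const_zero] at h3
    exact h3
  refine squeeze_zero (fun r => div_nonneg (tsum_nonneg fun _ => abs_nonneg _) (c.pos r).le)
    (fun r => ?_) hlim
  have h0 : (0 : ℝ) < (N r : ℝ) + 1 := by positivity
  rw [ha, div_le_iff₀ (by positivity), Finset.sum_mul]
  refine (hb r).trans (le_of_eq (Finset.sum_congr rfl fun π _ => ?_))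
  rw [add_mul, mul_assoc 2, div_mul_cancel₀ _ (by positivity), pow_succ]
  field_simp

end Pool.Agent.LibHF46
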