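import Pool.Agent.LibHF46.Psi
import Pool.Agent.LibHF46.Lam
import Pool.Agent.LibHF46.IntB
import Pool.Agent.LibHF46.CubeLev
import Pool.Agent.LibHF46.ZX

/-!
Fat cubes of codimension at most two.
-/

set_option autoImplicit false

namespace Pool.Agent.LibHF46

open Filter Topology Pool.Agent.LibQM51
open Pool.Agent.LibQF83 (box ev pv stp Om QR nullR partialProd_stp nontrivial_of_cycle')

universe v

variable {G : Type} [Group G]

lemma PsiX_eltX {m : ℕ} (φ : G → Fin m → ℝ) (f : (Fin m → ℤ) → G) (d : Fin m → Fin m)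
    (p : Fin m → ℤ) (j : ℕ) :
    PsiX φ (eltX f d p j) = ∏ i : Fin m, (φ (f (pv d p ((i : ℕ) + 1))) i - φ (f (pv d p (i : ℕ))) i) := by
  rw [eltX, PsiX, Finsupp.liftAddHom_apply_single, Finsupp.liftAddHom_apply_single]
  show ((1 : ℤ) : ℝ) * Om φ (stp f d p) (f p)⁻¹ = _
  rw [Int.cast_one, one_mul, Om]
  refine Finset.prod_congr rfl fun i _ => ?_
  rw [partialProd_stp, partialProd_stp]
  rfl

/-- the pairing of the chain of a cube. -/
lemma PsiX_zX {m : ℕ} (φ : G → Fin m → ℝ) (f : (Fin m → ℤ) → G) (lab : (Fin m → ℤ) → ℕ) (N : ℕ)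
    (A B : ℝ) (hA : ∀ i p, p i = 0 → φ (f p) i = A) (hB : ∀ i p, p i = (N : ℤ) + 1 → φ (f p) i = B) :
    PsiX φ (zX f lab N) = (B - A) ^ m := by
  rw [zX, map_sum]
  have h1 := int_box N (fun i p => φ (f p) i) (fun _ : Fin m => A) (fun _ => B) hA hB
  rw [Finset.prod_const, Finset.card_univ, Fintype.card_fin] at h1
  rw [← h1]
  refine Finset.sum_congr rfl fun p _ => ?_
  rw [map_sum]
  refine Finset.sum_congr rfl fun π _ => ?_
  rw [map_zsmul, PsiX_eltX, zsmul_eq_mul]

/-- the homology of the asymptotic module of a fat cube. -/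
theorem fat_homology {m : ℕ} (hf : FatCubes G m) :
    ∃ c : SH G ℕ, Nontrivial (groupHomology (RM c) m) := by
  classical
  obtain ⟨l, S, c0, M, N, f, hl, hc0, hN, hS, hfar, hM⟩ := hf
  have hcb : ∀ N, cube m N = box m N := fun _ => rfl
  simp only [hcb] at hS hfar hM
  -- a shift, and the cubes are extended to the lattice
  obtain ⟨r0, hr0⟩ := eventually_atTop.1 (hN.eventually (eventually_ge_atTop 1))
  set N' : ℕ → ℕ := fun r => N (r + r0) - 1 with hN'
  have hNN : ∀ r, N (r + r0) = N' r + 1 := by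
    intro r
    have := hr0 (r + r0) (by omega)
    show _ = N (r + r0) - 1 + 1
    omega
  set f' : ℕ → (Fin m → ℤ) → G := fun r p => f (r + r0) (clp (N' r + 1) p) with hf'
  have hstep : ∀ r p i, (f' r p)⁻¹ * f' r (p + ev i) ∈ insert 1 S := by
    intro r p i
    rcases clp_step (N' r + 1) p i with h | ⟨h, h'⟩
    · show (f (r + r0) _)⁻¹ * f (r + r0) _ ∈ _
      rw [h, inv_mul_cancel]
      exact Finset.mem_insert_self _ _
    · show (f (r + r0) _)⁻¹ * f (r + r0) _ ∈ _
      rw [h]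
      refine Finset.mem_insert_of_mem (hS (r + r0) _ ?_ i ?_)
      · rw [hNN]; exact clp_mem _ _
      · rw [hNN]; exact h'
  have hsub : ∀ r, box m (N' r) ⊆ box m (N' r + 1) := by
    intro r p hp
    rw [mem_box] at hp ⊢
    intro i
    have := hp i
    push_cast
    omega
  have hM' : ∀ s : ℕ, ∀ᶠ r in atTop, (((box m (N' r) ×ˢ box m (N' r)).filter fun x =>
      (∀ j, |x.1 j - x.2 j| ≤ (s : ℤ)) ∧ f' r x.1 = f' r x.2).card : ℝ) ≤
        M * ((N' r : ℝ) + 1) ^ m := by
    intro s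
    have h1 := (tendsto_add_atTop_nat r0).eventually (hM s)
    filter_upwards [h1] with r hr
    have h2 : ((N (r + r0) : ℕ) : ℝ) = (N' r : ℝ) + 1 := by
      rw [hNN]; push_cast; rfl
    rw [h2] at hr
    refine le_trans (Nat.cast_le.2 (Finset.card_le_card fun x hx => ?_)) hr
    rw [Finset.mem_filter, Finset.mem_product] at hx ⊢
    obtain ⟨⟨h3, h4⟩, h5, h6⟩ := hx
    rw [hNN]
    refine ⟨⟨hsub r h3, hsub r h4⟩, h5, ?_⟩
    have h7 : f (r + r0) (clp (N' r + 1) x.1) = f (r + r0) (clp (N' r + 1) x.2) := h6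
    rwa [clp_eq (hsub r h3), clp_eq (hsub r h4)] at h7
  obtain ⟨φ, lab, c, hφ, ha, hd, hcut⟩ := exists_cube_levels N' f' (insert 1 S) hstep M hM'
  refine ⟨c, ?_⟩
  have hN'' : Tendsto N' atTop atTop := by
    refine tendsto_atTop.2 fun b => ?_
    filter_upwards [(tendsto_add_atTop_nat r0).eventually (hN.eventually
      (eventually_ge_atTop (b + 1)))] with r hr
    show b ≤ N (r + r0) - 1
    omega
  have hNφ : Tendsto (fun r => N' (φ r)) atTop atTop := hN''.comp hφ.tendsto_atTop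
  obtain ⟨Z, hZ⟩ := exists_ZX c (fun r => N' (φ r)) (fun r => f' (φ r)) (insert 1 S)
    (fun r => hstep (φ r)) lab hd
  -- the Lipschitz functions
  set ψ : ℕ → G → Fin m → ℝ := fun r => psi l (f (φ r + r0)) c0 (N' (φ r) + 1) with hψd
  have hψ : ∀ g : G, ∃ C : ℝ, ∀ (r : ℕ) (x : G) (i : Fin m), |ψ r (x * g) i - ψ r x i| ≤ C := by
    intro g
    obtain ⟨C, hC⟩ := psi_lip (m := m) l hl g
    exact ⟨C, fun r x i => hC _ _ _ _ _⟩
  have hval : ∀ r, PsiX (ψ r) (zX (f' (φ r)) (lab r) (N' (φ r))) =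
      (max (l 1) (c0 * (N' (φ r) + 1)) - l 1) ^ m := by
    intro r
    refine PsiX_zX (ψ r) (f' (φ r)) (lab r) (N' (φ r)) (l 1) _ (fun i p hp => ?_) fun i p hp => ?_
    · refine psi_low l (f (φ r + r0)) c0 (N' (φ r) + 1) i (clp (N' (φ r) + 1) p) (clp_mem _ _) ?_
      rw [clp, hp]
      push_cast
      omega
    · have h1 := psi_up l (f (φ r + r0)) c0 (N' (φ r) + 1) i (fun p hp q hq h h' => by
        have h2 := hfar (φ r + r0) p (by rw [hNN]; exact hp) q (by rw [hNN]; exact hq) i h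
          (by rw [hNN]; exact h')
        rw [hNN] at h2
        exact h2) (clp (N' (φ r) + 1) p) (clp_mem _ _) (by
          rw [clp, hp]
          push_cast
          omega)
      push_cast at h1
      exact h1
  refine nontrivial_of_cycle' (RM c) m
    (Finsupp.mapRange (mk c) (map_zero (QuotientAddGroup.mk' _)) Z) ?_
    (LamX c ψ hψ) (LamX_d c ψ hψ) ?_
  · rintro n rfl
    exact bd_nullX c (fun r => N' (φ r)) hNφ (fun r => f' (φ r)) lab ha hcut Z hZ
  · intro h0
    rw [LamX_mapRange] at h0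
    have hlim : Tendsto (fun r => PsiX (ψ r) (Finsupp.mapRange (fun u : ZS c => u.1 r) rfl Z) /
        c.a r) atTop (𝓝 0) := (QuotientAddGroup.eq_zero_iff _).1 h0
    have h1 : ∀ r, PsiX (ψ r) (Finsupp.mapRange (fun u : ZS c => u.1 r) rfl Z) / c.a r =
        ((max (l 1) (c0 * (N' (φ r) + 1)) - l 1) / ((N' (φ r) : ℝ) + 1)) ^ m := by
      intro r
      have hmr : Finsupp.mapRange (fun u : ZS c => u.1 r) rfl Z =
          zX (f' (φ r)) (lab r) (N' (φ r)) := by
        refine Finsupp.ext fun g' => ?_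
        rw [Finsupp.mapRange_apply]
        exact hZ g' r
      rw [hmr, hval, ha, div_pow]
    simp only [h1] at hlim
    have h2 : ∀ᶠ r in atTop, (c0 / 2) ^ m ≤
        ((max (l 1) (c0 * (N' (φ r) + 1)) - l 1) / ((N' (φ r) : ℝ) + 1)) ^ m := by
      have h3 : Tendsto (fun r => ((N' (φ r) : ℕ) : ℝ)) atTop atTop :=
        tendsto_natCast_atTop_atTop.comp hNφ
      filter_upwards [h3.eventually (eventually_ge_atTop (2 * |l 1| / c0))] with r hr
      have h4 : (0 : ℝ) < (N' (φ r) : ℝ) + 1 := by positivity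
      refine pow_le_pow_left₀ (by positivity) ?_ m
      rw [le_div_iff₀ h4]
      have h5 : 2 * |l 1| ≤ N' (φ r) * c0 := by
        rwa [div_le_iff₀ hc0] at hr
      have h6 := le_abs_self (l 1)
      have h7 := le_max_right (l 1) (c0 * ((N' (φ r) : ℝ) + 1))
      nlinarith
    have h3 := ge_of_tendsto hlim h2
    have h4 : 0 < (c0 / 2) ^ m := by positivity
    linarith

/-- fat cubes of codimension at most two. -/
theorem fat_main {E : Type v} [TopologicalSpace E] [PathConnectedSpace E]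
    [MulAction G E] [ContinuousConstSMul G E] (hfree : ∀ (g : G) (e : E), g • e = e → g = 1)
    (hE : LibZIS.H1Zero E) (m k : ℕ) (hk : k ≤ 2)
    (hG : ∀ M : Rep.{0} ℤ G, Nonempty (groupCohomology M k ≅ groupHomology M m))
    (hf : FatCubes G m) :
    ∃ i, i ≤ k ∧ Nontrivial (LibZIS.Hgy (LibZIS.lam G) E i) := by
  by_contra hcon
  push Not at hcon
  have H : ∀ i, i ≤ k → ¬ Nontrivial (LibZIS.Hgy (LibZIS.lam G) E i) := fun i hi => by
    have := hcon i hi
    rwa [not_nontrivial_iff_subsingleton]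
  obtain ⟨c, hc⟩ := fat_homology hf
  obtain ⟨e⟩ := hG (RM c)
  have h3 : Nontrivial (groupCohomology (RM c) k) := by
    have e' : groupCohomology (RM c) k ≃ groupHomology (RM c) m := e.toLinearEquiv.toEquiv
    exact e'.nontrivial
  exact coh hfree hE k hk H h3

end Pool.Agent.LibHF46
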