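import Pool.Agent.LibHF46.Defs
import Pool.Agent.LibHF46.C3

/-!
Levels: the hyperfinite sequence of sheets gives labels and a structure `SH` (page, section 5, C1-C4).
-/

set_option autoImplicit false

namespace Pool.Agent.LibHF46

open CategoryTheory Filter Topology Pool.Agent.LibFi47 Pool.Agent.LibQM51
open scoped Pointwise

variable {G I : Type} [Group G]

/-- The cells with the same position and the same label as the cell `v`. -/
def Sheet.fib (T : Sheet G I) (lab : Fin T.n → ℕ) (v : Fin T.n) : Set (Fin T.n) :=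
  {u | T.pos u = T.pos v ∧ lab u = lab v}

open Classical in
/-- counting pairs -/
lemma card_pairs {α : Type} [Fintype α] (R : α → α → Prop) :
    (Finset.univ.filter fun q : α × α => R q.1 q.2).card =
      ∑ v, (Finset.univ.filter fun w => R v w).card := by
  rw [Finset.card_filter, Fintype.sum_prod_type]
  exact Finset.sum_congr rfl fun v _ => (Finset.card_filter _ _).symm

/-- the number of pairs with a property -/
noncomputable def prs {n : ℕ} (R : Fin n → Fin n → Prop) : ℕ :=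
  open Classical in (Finset.univ.filter fun q : Fin n × Fin n => R q.1 q.2).card

lemma prs_eq {n : ℕ} (R : Fin n → Fin n → Prop) : prs R = ∑ v, {w | R v w}.ncard := by
  classical
  refine (card_pairs R).trans (Finset.sum_congr rfl fun v _ => ?_)
  rw [← Set.ncard_coe_finset]
  congr 1
  ext w
  simp

lemma prs_created {n : ℕ} (D : Lv G n) {k : G} {i j : ℕ} (hij : i ≤ j) :
    (prs (fun v w => (D.pos v)⁻¹ * D.pos w = k ∧ D.R j v w ∧ ¬ D.R i v w) : ℝ) =
      cnt D k j - cnt D k i := by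
  classical
  rw [← card_created D hij]
  unfold prs
  congr 2
  ext q
  simp

/-- crowded sites are created between the levels `j` and `L` -/
lemma crowded {n : ℕ} (D : Lv G n) {K : ℕ} {j L : ℕ} (hj : j ≤ L)
    (hK : ∀ v, {w | D.R j v w}.ncard ≤ K) :
    (prs (fun v w => (D.pos w = D.pos v ∧ lbl D L w = lbl D L v) ∧
      2 * K < {u | D.pos u = D.pos v ∧ lbl D L u = lbl D L v}.ncard) : ℝ) ≤
      2 * (cnt D 1 L - cnt D 1 j) := by
  have h1 : prs (fun v w => (D.pos w = D.pos v ∧ lbl D L w = lbl D L v) ∧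
      2 * K < {u | D.pos u = D.pos v ∧ lbl D L u = lbl D L v}.ncard) ≤
      2 * prs (fun v w => (D.pos v)⁻¹ * D.pos w = 1 ∧ D.R L v w ∧ ¬ D.R j v w) := by
    rw [prs_eq, prs_eq, Finset.mul_sum]
    refine Finset.sum_le_sum fun v _ => ?_
    set A : Set (Fin n) := {u | D.pos u = D.pos v ∧ lbl D L u = lbl D L v} with hA
    by_cases hbig : 2 * K < A.ncard
    · have e4 : {w | (D.pos w = D.pos v ∧ lbl D L w = lbl D L v) ∧ 2 * K < A.ncard} ⊆ A :=
        fun w hw => hw.1
      have e4' := Set.ncard_le_ncard e4 (Set.toFinite _)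
      have e5 : A ⊆ {w | D.R j v w} ∪
          {w | (D.pos v)⁻¹ * D.pos w = 1 ∧ D.R L v w ∧ ¬ D.R j v w} := by
        intro w hw
        by_cases h : D.R j v w
        · exact Or.inl h
        · exact Or.inr ⟨by rw [hw.1]; exact inv_mul_cancel _,
            (D.equiv L).symm ((lbl_eq_iff D L w v).1 hw.2), h⟩
      have e6 := (Set.ncard_le_ncard e5 (Set.toFinite _)).trans (Set.ncard_union_le _ _)
      have e7 := hK v
      omega
    · have e4 : {w | (D.pos w = D.pos v ∧ lbl D L w = lbl D L v) ∧ 2 * K < A.ncard} = ∅ := by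
        ext w
        simp [hbig]
      rw [e4, Set.ncard_empty]
      exact Nat.zero_le _
  rw [← prs_created D hj]
  exact_mod_cast h1

/-- levels, for a sequence of partitions -/
theorem exists_levels₀ (T : ℕ → Sheet G I) (h0 : ∀ r, 0 < (T r).n) (F₀ : Finset G)
    (hF : ∀ r v w, (T r).gr.Adj v w → ((T r).pos v)⁻¹ * (T r).pos w ∈ F₀) (M : ℝ) (K : ℕ → ℕ)
    (p : ℕ → (r : ℕ) → Fin (T r).n → ℕ) (hst : ∀ i r, r ≤ i → p i r = p r r)
    (hK : ∀ i r c, {v | p i r v = c}.ncard ≤ K i)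
    (hp : ∀ i r, i ≤ r → (((T r).edges fun v w => p i r v ≠ p i r w : ℕ) : ℝ) ≤
      (1 / 2) ^ i * (T r).n)
    (hM : ∀ i r, (((T r).pairs fun v w => p i r v = p i r w ∧
      (T r).pos v = (T r).pos w : ℕ) : ℝ) ≤ M * (T r).n) :
    ∃ (φ : ℕ → ℕ) (lab : (r : ℕ) → Fin (T (φ r)).n → ℕ) (c : SH G ℕ), StrictMono φ ∧
      (∀ r, c.a r = (T (φ r)).n) ∧ (∀ r, c.D r = Finset.range (T (φ r)).n) ∧
      (∀ r (v : Fin (T (φ r)).n), c.f r v = (T (φ r)).pos v) ∧
      (∀ r (v : Fin (T (φ r)).n), c.lab r v = lab r v) ∧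
      Tendsto (fun r => (((T (φ r)).edges fun v w => lab r v ≠ lab r w : ℕ) : ℝ) / (T (φ r)).n)
        atTop (𝓝 0) ∧
      (∃ M : ℝ, ∀ r, (((T (φ r)).pairs fun v w => w ∈ (T (φ r)).fib (lab r) v : ℕ) : ℝ) ≤
        M * (T (φ r)).n) ∧
      ∀ ε : ℝ, 0 < ε → ∃ C : ℕ, ∀ᶠ r in atTop,
        (((T (φ r)).pairs fun v w => w ∈ (T (φ r)).fib (lab r) v ∧
          C < ((T (φ r)).fib (lab r) v).ncard : ℕ) : ℝ) ≤ ε * (T (φ r)).n := by
  classical
  let D : ∀ r, Lv G (T r).n := fun r => lv (T r).pos (T r).gr (fun i => p i r)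
  have hK' : ∀ r j v, (Finset.univ.filter fun w => p j r w = p j r v).card ≤ K j := by
    intro r j v
    have h1 := hK j r (p j r v)
    have h2 : {w | p j r w = p j r v}.ncard =
        (Finset.univ.filter fun w => p j r w = p j r v).card := by
      rw [← Set.ncard_coe_finset]
      congr 1
      ext u
      simp
    rw [h2] at h1
    exact h1
  have hsize : ∀ r j v, {w | (D r).R j v w}.ncard ≤ K j := by
    intro r j v
    have h1 := lv_size (T r).pos (T r).gr (fun i => p i r) (hK' r) j v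
    refine le_trans (le_of_eq ?_) h1
    rw [← Set.ncard_coe_finset]
    congr 1
    ext u
    simp [D]
  have hcnt : ∀ r j, (cnt (D r) 1 j : ℝ) ≤ M * (T r).n := by
    intro r j
    refine le_trans (Nat.cast_le.2 (Finset.card_le_card fun x hx => ?_)) (hM j r)
    simp only [Finset.mem_filter, Finset.mem_univ, true_and] at hx ⊢
    exact ⟨(lv_class (T r).pos (T r).gr (fun i => p i r) hx.2).symm,
      inv_mul_eq_one.1 hx.1⟩
  obtain ⟨φ, L, h1, h2, h2', h3⟩ := exists_lev h0 D (M := M) hcnt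
  let c : Sel G :=
    { n := fun r => (T (φ r)).n
      npos := fun r => h0 (φ r)
      D := fun r => D (φ r)
      L := L
      lim := h2
      F := fun j => (insert 1 F₀) ^ K j
      disp := fun j r v w h => lv_disp (T (φ r)).pos (T (φ r)).gr (fun i => p i (φ r))
        (hF (φ r)) (hK' (φ r)) j v w h
      sel := h3 }
  have hn : ∀ r, (0 : ℝ) < (T (φ r)).n := fun r => by exact_mod_cast h0 (φ r)
  have hLr : ∀ r, L r ≤ φ r := fun r => (h2' r).trans (h1.le_apply)
  have hpc : ∀ r i, ((Finset.univ.filter fun x : Fin (T (φ r)).n × Fin (T (φ r)).n =>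
      (T (φ r)).gr.Adj x.1 x.2 ∧ (if i ≤ φ r then p i (φ r) else fun _ => 0) x.1 ≠
        (if i ≤ φ r then p i (φ r) else fun _ => 0) x.2).card : ℝ) ≤
      (1 / 2) ^ i * (T (φ r)).n := by
    intro r i
    by_cases hi : i ≤ φ r
    · simp only [if_pos hi]
      refine le_trans (le_of_eq ?_) (hp i (φ r) hi)
      unfold Sheet.edges
      congr 2
      ext q
      simp
    · simp only [if_neg hi]
      have := hn r
      simp only [ne_eq, not_true_eq_false, and_false, Finset.filter_false, Finset.card_empty,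
        Nat.cast_zero]
      positivity
  refine ⟨φ, fun r v => lbl (D (φ r)) (L r) v, c.sh, h1, fun r => rfl, fun r => rfl,
    fun r v => c.f_apply v, fun r v => c.lab_apply v, ?_, ⟨M, fun r => ?_⟩, fun ε hε => ?_⟩
  · have hcut : ∀ r, (((T (φ r)).edges fun v w => lbl (D (φ r)) (L r) v ≠
        lbl (D (φ r)) (L r) w : ℕ) : ℝ) ≤ 2 * (1 / 2) ^ (L r) * (T (φ r)).n := by
      intro r
      have h4 := lv_cut (T (φ r)).pos (T (φ r)).gr
        (fun i => if i ≤ φ r then p i (φ r) else fun _ => 0) (fun i => hpc r i) (L r)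
      refine le_trans (Nat.cast_le.2 (Finset.card_le_card fun q hq => ?_)) h4
      simp only [Finset.mem_filter, Finset.mem_univ, true_and] at hq ⊢
      rw [ne_eq, lbl_eq_iff] at hq
      refine ⟨hq.1, fun h5 => hq.2 fun i hi => ?_⟩
      by_cases h6 : i ≤ φ r
      · have h7 := h5 i hi
        simp only [if_pos h6] at h7
        exact h7
      · have h7 := h5 (φ r) (hLr r)
        simp only [if_pos le_rfl] at h7
        show (inner (T (φ r)).gr (p i (φ r))).Reachable q.1 q.2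
        rw [hst i (φ r) (by omega)]
        exact h7
    have hlim : Tendsto (fun r => 2 * (1 / 2 : ℝ) ^ (L r)) atTop (𝓝 0) := by
      have h4 := ((tendsto_pow_atTop_nhds_zero_of_lt_one (r := (1 / 2 : ℝ)) (by norm_num)
        (by norm_num)).comp h2).const_mul 2
      rw [mul_zero] at h4
      exact h4
    refine squeeze_zero (fun r => by positivity) (fun r => ?_) hlim
    rw [div_le_iff₀ (hn r)]
    exact hcut r
  · refine le_trans (Nat.cast_le.2 (Finset.card_le_card fun x hx => ?_)) (hcnt (φ r) (L r))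
    simp only [Finset.mem_filter, Finset.mem_univ, true_and] at hx ⊢
    exact ⟨inv_mul_eq_one.2 hx.1.symm, ((D (φ r)).equiv (L r)).symm
      ((lbl_eq_iff _ _ _ _).1 hx.2)⟩
  · obtain ⟨j, hj⟩ := h3 1 (ε / 2) (by positivity)
    refine ⟨2 * K j, ?_⟩
    filter_upwards [hj, h2.eventually (eventually_ge_atTop j)] with r h4 h5
    have h6 := crowded (D (φ r)) h5 (hsize (φ r) j)
    refine le_trans (le_trans (le_of_eq ?_) h6) ?_
    · rfl
    · linarith

/-- levels -/
theorem exists_levels (T : ℕ → Sheet G I) (h0 : ∀ r, 0 < (T r).n) (F₀ : Finset G)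
    (hF : ∀ r v w, (T r).gr.Adj v w → ((T r).pos v)⁻¹ * (T r).pos w ∈ F₀)
    (hH : Hyperfinite T) :
    ∃ (φ : ℕ → ℕ) (lab : (r : ℕ) → Fin (T (φ r)).n → ℕ) (c : SH G ℕ), StrictMono φ ∧
      (∀ r, c.a r = (T (φ r)).n) ∧ (∀ r, c.D r = Finset.range (T (φ r)).n) ∧
      (∀ r (v : Fin (T (φ r)).n), c.f r v = (T (φ r)).pos v) ∧
      (∀ r (v : Fin (T (φ r)).n), c.lab r v = lab r v) ∧
      Tendsto (fun r => (((T (φ r)).edges fun v w => lab r v ≠ lab r w : ℕ) : ℝ) / (T (φ r)).n)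
        atTop (𝓝 0) ∧
      (∃ M : ℝ, ∀ r, (((T (φ r)).pairs fun v w => w ∈ (T (φ r)).fib (lab r) v : ℕ) : ℝ) ≤
        M * (T (φ r)).n) ∧
      ∀ ε : ℝ, 0 < ε → ∃ C : ℕ, ∀ᶠ r in atTop,
        (((T (φ r)).pairs fun v w => w ∈ (T (φ r)).fib (lab r) v ∧
          C < ((T (φ r)).fib (lab r) v).ncard : ℕ) : ℝ) ≤ ε * (T (φ r)).n := by
  classical
  obtain ⟨M, hH⟩ := hH
  choose K0 hK0 using fun i : ℕ => hH ((1 / 2) ^ i) (by positivity)
  choose R hR using fun i => eventually_atTop.1 (hK0 i)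
  -- the first subsequence
  obtain ⟨φ₀, hφ₀, hφR⟩ : ∃ φ₀ : ℕ → ℕ, StrictMono φ₀ ∧ ∀ r, ∀ i ≤ r, R i ≤ φ₀ r := by
    refine ⟨fun r => r + ∑ i ∈ Finset.range (r + 1), R i, fun a b hab => ?_, fun r i hi => ?_⟩
    · have h1 : ∑ i ∈ Finset.range (a + 1), R i ≤ ∑ i ∈ Finset.range (b + 1), R i :=
        Finset.sum_le_sum_of_subset (Finset.range_subset_range.2 (by omega))
      show a + _ < b + _
      omega
    · have h1 : R i ≤ ∑ i ∈ Finset.range (r + 1), R i :=
        Finset.single_le_sum (f := R) (fun _ _ => Nat.zero_le _) (Finset.mem_range.2 (by omega))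
      show R i ≤ r + _
      omega
  have hH1 : ∀ r i, ∃ p : Fin (T (φ₀ r)).n → ℕ, (∀ c, {v | p v = c}.ncard ≤ K0 (min i r)) ∧
      (((T (φ₀ r)).edges fun v w => p v ≠ p w : ℕ) : ℝ) ≤ (1 / 2) ^ (min i r) * (T (φ₀ r)).n ∧
      (((T (φ₀ r)).pairs fun v w => p v = p w ∧ (T (φ₀ r)).pos v = (T (φ₀ r)).pos w : ℕ) : ℝ) ≤
        M * (T (φ₀ r)).n := fun r i => hR (min i r) (φ₀ r) (hφR r _ (min_le_right i r))
  have hH2 : ∀ r, ∃ p : ℕ → Fin (T (φ₀ r)).n → ℕ, (∀ i, r ≤ i → p i = p r) ∧ ∀ i,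
      (∀ c, {v | p i v = c}.ncard ≤ K0 (min i r)) ∧
      (((T (φ₀ r)).edges fun v w => p i v ≠ p i w : ℕ) : ℝ) ≤
        (1 / 2) ^ (min i r) * (T (φ₀ r)).n ∧
      (((T (φ₀ r)).pairs fun v w => p i v = p i w ∧
        (T (φ₀ r)).pos v = (T (φ₀ r)).pos w : ℕ) : ℝ) ≤ M * (T (φ₀ r)).n := by
    intro r
    choose p hp using hH1 r
    refine ⟨fun i => p (min i r), fun i hi => ?_, fun i => ?_⟩
    · show p (min i r) = p (min r r)
      rw [min_eq_right hi, min_self]
    · have h1 := hp (min i r)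
      rw [min_assoc, min_self] at h1
      exact h1
  choose p hp1 hp2 using hH2
  obtain ⟨φ, lab, c, h1, h2, h3, h4, h5, h6, h7, h8⟩ := exists_levels₀ (fun r => T (φ₀ r))
    (fun r => h0 _) F₀ (fun r => hF _) M (fun i => ∑ j ∈ Finset.range (i + 1), K0 j)
    (fun i r => p r i) (fun i r hi => hp1 r i hi)
    (fun i r c => ((hp2 r i).1 c).trans (Finset.single_le_sum (f := K0) (fun _ _ => Nat.zero_le _)
      (Finset.mem_range.2 (Nat.lt_succ_of_le (min_le_left i r)))))
    (fun i r hi => by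
      have h1 := (hp2 r i).2.1
      rw [min_eq_left hi] at h1
      exact h1)
    (fun i r => (hp2 r i).2.2)
  exact ⟨fun r => φ₀ (φ r), lab, c, hφ₀.comp h1, h2, h3, h4, h5, h6, h7, h8⟩

end Pool.Agent.LibHF46
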