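import Pool.Agent.LibHF46.Lev
import Pool.Agent.LibHF46.Chain
import Pool.Agent.LibHF46.Bd

/-!
Hyperfinite fillings.
-/

set_option autoImplicit false

namespace Pool.Agent.LibHF46

open Pool.Agent.LibZIS Filter Topology Pool.Agent.LibQM51 Pool.Agent.LibFi47 CategoryTheory

universe v

variable {G : Type} [Group G] {E : Type v} [TopologicalSpace E] [PathConnectedSpace E]
  [MulAction G E] [ContinuousConstSMul G E]

open Classical in
lemma site_eq_iff {I : Type} (T : Sheet G I) (lab : Fin T.n → ℕ) (u v : Fin T.n) :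
    T.site lab u = T.site lab v ↔ u ∈ T.fib lab v := by
  constructor
  · intro h
    exact ⟨inv_injective (congrArg Prod.fst h), congrArg Prod.snd h⟩
  · rintro ⟨h1, h2⟩
    show (((T.pos u)⁻¹, lab u) : G × ℕ) = ((T.pos v)⁻¹, lab v)
    rw [h1, h2]

open Classical in
lemma mlt_site {I : Type} (T : Sheet G I) (lab : Fin T.n → ℕ) (v : Fin T.n) :
    mlt (T.site lab) (T.site lab v) = (T.fib lab v).ncard := by
  rw [mlt, ← Set.ncard_coe_finset]
  congr 1
  ext u
  simp only [Finset.coe_filter, Finset.mem_univ, true_and, Set.mem_ofPred_eq, site_eq_iff]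

open Classical in
lemma ch_univ {I : Type} (T : Sheet G I) (lab : Fin T.n → ℕ) :
    T.ch Finset.univ = ∑ j ∈ Finset.univ.image lab, T.lch lab j := by
  unfold Sheet.ch Sheet.lch Sheet.ch
  exact (Finset.sum_fiberwise_of_maps_to
    (fun v _ => Finset.mem_image_of_mem lab (Finset.mem_univ v)) _).symm

/-- hyperfinite fillings which are optimal up to a factor. -/
theorem main (hfree : ∀ (g : G) (e : E), g • e = e → g = 1) (hE : H1Zero E) (k m : ℕ)
    (hk : k ≤ 2)
    (hG : ∀ M : Rep.{0} ℤ G, Nonempty (groupCohomology M k ≅ groupHomology M (m + 1)))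
    (P : ProjectiveResolution (Rep.trivial ℤ G ℤ)) {I J : Type} [Finite I] [Finite J]
    (e : P.complex.X (m + 1) ≅ Rep.free ℤ G I) (e' : P.complex.X m ≅ Rep.free ℤ G J)
    (T : ℕ → Sheet G I) (hg : Glued (bdy P m e e') T) (hh : Hyperfinite T)
    (ho : Optimal (bdy P m e e') T) : ∃ i, i ≤ k ∧ Nontrivial (Hgy (lam G) E i) := by
  classical
  by_contra hcon
  push Not at hcon
  have hz : ∀ i, i ≤ k → ¬ Nontrivial (Hgy (lam G) E i) := fun i hi => by
    rw [not_nontrivial_iff_subsingleton]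
    exact hcon i hi
  have _ := Fintype.ofFinite I
  have _ := Fintype.ofFinite J
  obtain ⟨D₀, F₀, C, hgl⟩ := hg
  obtain ⟨hn, hW, c0, hc0, hmin⟩ := ho
  obtain ⟨φ, lab, c, hφ, ha, hDr, hf, hlab, hcut, ⟨M, hM⟩, hui⟩ :=
    exists_levels T hn F₀ (fun r => (hgl r).2.1) hh
  have hnpos : ∀ r, (0 : ℝ) < (T (φ r)).n := fun r => by exact_mod_cast hn (φ r)
  -- the multiplicity
  have h1 : DL c fun r x => (mlt ((T (φ r)).site (lab r)) x : ℝ) := by
    refine dl_mlt c (fun r => (T (φ r)).n) ha (fun r => (T (φ r)).site (lab r)) (fun r v => ?_) M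
      (fun r => ?_) (fun ε hε => ?_)
    · refine ⟨1, Finset.mem_singleton_self 1, (v : ℕ), ?_, ?_⟩
      · rw [hDr, Finset.mem_range]
        exact v.2
      · rw [one_mul, hf, hlab]
        rfl
    · refine le_trans ?_ (hM r)
      unfold Sheet.pairs
      refine Nat.cast_le.2 (Finset.card_le_card fun q hq => ?_)
      simp only [Finset.mem_filter, Finset.mem_univ, true_and] at hq ⊢
      exact (site_eq_iff _ _ _ _).1 hq
    · obtain ⟨C1, hC1⟩ := hui ε hε
      refine ⟨C1, ?_⟩
      filter_upwards [hC1] with r hr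
      refine le_trans ?_ hr
      unfold Sheet.pairs
      refine Nat.cast_le.2 (Finset.card_le_card fun q hq => ?_)
      simp only [Finset.mem_filter, Finset.mem_univ, true_and] at hq ⊢
      refine ⟨(site_eq_iff _ _ _ _).1 hq.1, ?_⟩
      rw [← mlt_site]
      exact hq.2
  -- the chains carried by the labels
  set U : ℕ → ℕ → (I →₀ MonoidAlgebra ℤ G) := fun r j => (T (φ r)).lch (lab r) j with hU
  set Js : ℕ → Finset ℕ := fun r => Finset.univ.image (lab r) with hJs
  have h2 : ∀ i, DL c fun r x => cf (U r x.2) i x.1 := fun i =>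
    dl_lch c (fun r => T (φ r)) lab D₀ (fun r v => (hgl (φ r)).1 v) h1 i
  have h0 : ∀ r, ∀ j ∉ Js r, U r j = 0 := by
    intro r j hj
    show (T (φ r)).ch _ = 0
    unfold Sheet.ch
    refine Finset.sum_eq_zero fun v hv => ?_
    rw [Finset.mem_filter] at hv
    exact absurd (Finset.mem_image.2 ⟨v, Finset.mem_univ v, hv.2⟩) hj
  have h3 : ∀ b, DN c fun r x => cf (bdyH P m e e' (U r x.2)) b x.1 := by
    intro b
    have hs : ∀ r, _ := fun r => sum_copies (fun j => bdyH P m e e' (U r j)) (Js r)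
      (fun j hj => by rw [h0 r j hj, map_zero]) b
    refine dn_of_l1 c _ (dl_bdy c (bdyH P m e e') (eqv_bdyH P m e e') U h2 b)
      (fun r => (hs r).1) ?_
    have ht : Tendsto (fun r => |C| * ((((T (φ r)).edges fun v w => lab r v ≠ lab r w : ℕ) : ℝ) /
        (T (φ r)).n + ((T (φ r)).W.card : ℝ) / (T (φ r)).n)) atTop (𝓝 0) := by
      have h4 := (hcut.add (hW.comp hφ.tendsto_atTop)).const_mul |C|
      simpa using h4
    refine squeeze_zero (fun r => ?_) (fun r => ?_) ht
    · exact div_nonneg (tsum_nonneg fun x => abs_nonneg _) (c.pos r).le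
    · have h5 := sum_bdy_le (T (φ r)) (bdy P m e e') C (hgl (φ r)).2.2 (lab r)
      rw [ha, ← add_div, mul_div_assoc']
      exact div_le_div_of_nonneg_right ((hs r).2.trans h5) (hnpos r).le
  have h4 : ¬ Nontrivial (groupHomology (RM c) (m + 1)) := by
    intro h5
    obtain ⟨f⟩ := hG (RM c)
    have f' := (CategoryTheory.forget (ModuleCat ℤ)).mapIso f
    exact coh (c := c) hfree hE k hk hz f'.toEquiv.nontrivial
  obtain ⟨W, hWc, hWt⟩ := exists_cycles c (bdyH P m e e') (eqv_bdyH P m e e')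
    (HX3.hc_of (RM c) P m e e' h4) U Js h0 h2 h3
  obtain ⟨r, hr⟩ := (hWt.eventually_lt_const hc0).exists
  rw [ha, div_lt_iff₀ (hnpos r)] at hr
  have h5 : bdyH P m e e' (∑ j ∈ Js r, (U r j - W r j)) =
      bdyH P m e e' ((T (φ r)).ch Finset.univ) := by
    rw [ch_univ (T (φ r)) (lab r), map_sum, map_sum]
    refine Finset.sum_congr rfl fun j _ => ?_
    rw [map_sub, hWc, sub_zero]
  have h6 := hmin (φ r) _ h5
  have h7 : l1F (∑ j ∈ Js r, (U r j - W r j)) ≤ ∑ j ∈ Js r, sqF (U r j - W r j) :=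
    (l1F_sum _ _).trans (Finset.sum_le_sum fun j _ => l1F_le_sqF _)
  linarith

end Pool.Agent.LibHF46
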