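import Pool.Agent.LibHF46.FDef
import Pool.Agent.LibQF83.Path

/-!
The Lipschitz functions attached to a fat cube.
-/

set_option autoImplicit false

namespace Pool.Agent.LibHF46

open Filter Topology
open Pool.Agent.LibQF83 (box ev)

variable {G : Type} [Group G] {m : ℕ}

/-- the nearest point of the cube. -/
def clp (N : ℕ) (p : Fin m → ℤ) : Fin m → ℤ := fun i => max 0 (min (p i) N)

lemma clp_mem (N : ℕ) (p : Fin m → ℤ) : clp N p ∈ box m N := by
  unfold box
  rw [Fintype.mem_piFinset]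
  intro i
  rw [Finset.mem_Icc, clp]
  exact ⟨le_max_left _ _, max_le (by positivity) (min_le_right _ _)⟩

lemma mem_box {N : ℕ} {p : Fin m → ℤ} : p ∈ box m N ↔ ∀ i, 0 ≤ p i ∧ p i ≤ N := by
  unfold box
  rw [Fintype.mem_piFinset]
  simp only [Finset.mem_Icc]

lemma clp_eq {N : ℕ} {p : Fin m → ℤ} (hp : p ∈ box m N) : clp N p = p := by
  rw [mem_box] at hp
  funext i
  rw [clp, min_eq_left (hp i).2, max_eq_right (hp i).1]

lemma clp_step (N : ℕ) (p : Fin m → ℤ) (i : Fin m) :
    clp N (p + ev i) = clp N p ∨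
      (clp N (p + ev i) = clp N p + Pi.single i 1 ∧ clp N p + Pi.single i 1 ∈ box m N) := by
  have h0 : ∀ j, j ≠ i → (p + ev i) j = p j := by
    intro j hj
    rw [Pi.add_apply, ev, Pi.single_eq_of_ne hj, add_zero]
  have h1 : (p + ev i) i = p i + 1 := by
    rw [Pi.add_apply, ev, Pi.single_eq_same]
  by_cases h : 0 ≤ p i ∧ p i < N
  · right
    have h2 : clp N (p + ev i) = clp N p + Pi.single i 1 := by
      funext j
      by_cases hj : j = i
      · subst hj
        rw [Pi.add_apply, Pi.single_eq_same, clp, clp, h1]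
        omega
      · rw [Pi.add_apply, Pi.single_eq_of_ne hj, add_zero, clp, clp, h0 j hj]
    exact ⟨h2, h2 ▸ clp_mem N _⟩
  · left
    funext j
    by_cases hj : j = i
    · subst hj
      rw [clp, clp, h1]
      have h3 : p j < 0 ∨ (N : ℤ) ≤ p j := by
        by_contra hcon
        push Not at hcon
        exact h hcon
      omega
    · rw [clp, clp, h0 j hj]

/-- the points of the cube in the lower face. -/
noncomputable def lowf (N : ℕ) (i : Fin m) : Finset (Fin m → ℤ) := (box m N).filter fun q => q i = 0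

lemma lowf_nonempty (N : ℕ) (i : Fin m) : (lowf (m := m) N i).Nonempty :=
  ⟨0, Finset.mem_filter.2 ⟨mem_box.2 fun j => ⟨le_rfl, by simp⟩, rfl⟩⟩

/-- the distance of the image of the lower face, cut off. -/
noncomputable def psi (l : G → ℝ) (f : (Fin m → ℤ) → G) (c : ℝ) (N : ℕ) (x : G) (i : Fin m) : ℝ :=
  max (l 1) (min (c * N) ((lowf N i).inf' (lowf_nonempty N i) fun q => l ((f q)⁻¹ * x)))

lemma inf'_abs_sub {α : Type} (s : Finset α) (hs : s.Nonempty) (u v : α → ℝ) (C : ℝ)
    (h : ∀ a ∈ s, u a ≤ v a + C) : s.inf' hs u ≤ s.inf' hs v + C := by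
  rw [← sub_le_iff_le_add, Finset.le_inf'_iff]
  intro a ha
  rw [sub_le_iff_le_add]
  exact (Finset.inf'_le _ ha).trans (h a ha)

/-- Lipschitz, uniformly. -/
lemma psi_lip (l : G → ℝ) (hl : ∀ g h, l (g * h) ≤ l g + l h) (g : G) : ∃ C : ℝ,
    ∀ (f : (Fin m → ℤ) → G) (c : ℝ) (N : ℕ) (x : G) (i : Fin m),
      |psi l f c N (x * g) i - psi l f c N x i| ≤ C := by
  refine ⟨max |l g| |l g⁻¹|, fun f c N x i => ?_⟩
  set C := max |l g| |l g⁻¹| with hC
  have hC1 : l g ≤ C := (le_abs_self _).trans (le_max_left _ _)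
  have hC2 : l g⁻¹ ≤ C := (le_abs_self _).trans (le_max_right _ _)
  have h1 : (lowf N i).inf' (lowf_nonempty N i) (fun q => l ((f q)⁻¹ * (x * g))) ≤
      (lowf N i).inf' (lowf_nonempty N i) (fun q => l ((f q)⁻¹ * x)) + C := by
    refine inf'_abs_sub _ _ _ _ _ fun q _ => ?_
    rw [← mul_assoc]
    exact (hl _ _).trans (by linarith)
  have h2 : (lowf N i).inf' (lowf_nonempty N i) (fun q => l ((f q)⁻¹ * x)) ≤
      (lowf N i).inf' (lowf_nonempty N i) (fun q => l ((f q)⁻¹ * (x * g))) + C := by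
    refine inf'_abs_sub _ _ _ _ _ fun q _ => ?_
    have e : (f q)⁻¹ * x = ((f q)⁻¹ * (x * g)) * g⁻¹ := by group
    rw [e]
    exact (hl _ _).trans (by linarith)
  have h3 : |(lowf N i).inf' (lowf_nonempty N i) (fun q => l ((f q)⁻¹ * (x * g))) -
      (lowf N i).inf' (lowf_nonempty N i) (fun q => l ((f q)⁻¹ * x))| ≤ C := by
    rw [abs_le]
    constructor <;> linarith
  refine (abs_max_sub_max_le_max _ _ _ _).trans ?_
  rw [sub_self, abs_zero]
  refine max_le ((abs_nonneg _).trans h3) ((abs_min_sub_min_le_max _ _ _ _).trans ?_)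
  rw [sub_self, abs_zero]
  exact max_le ((abs_nonneg _).trans h3) h3

/-- the values on the lower face. -/
lemma psi_low (l : G → ℝ) (f : (Fin m → ℤ) → G) (c : ℝ) (N : ℕ) (i : Fin m) (p : Fin m → ℤ)
    (hp : p ∈ box m N) (h : p i = 0) : psi l f c N (f p) i = l 1 := by
  unfold psi
  refine max_eq_left ((min_le_right _ _).trans ?_)
  refine (Finset.inf'_le (fun q => l ((f q)⁻¹ * f p)) (Finset.mem_filter.2 ⟨hp, h⟩)).trans ?_
  rw [inv_mul_cancel]

/-- the values on the upper face. -/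
lemma psi_up (l : G → ℝ) (f : (Fin m → ℤ) → G) (c : ℝ) (N : ℕ) (i : Fin m)
    (hf : ∀ p ∈ box m N, ∀ q ∈ box m N, p i = 0 → q i = N → c * N ≤ l ((f p)⁻¹ * f q))
    (p : Fin m → ℤ) (hp : p ∈ box m N) (h : p i = N) :
    psi l f c N (f p) i = max (l 1) (c * N) := by
  unfold psi
  congr 1
  refine min_eq_left ?_
  rw [Finset.le_inf'_iff]
  intro q hq
  have hq' := Finset.mem_filter.1 hq
  exact hf q hq'.1 p hp hq'.2 h

end Pool.Agent.LibHF46
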